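import Mathlib
import Pool.Agent.H91.LK.Defs

/-!
# Comparison of Mahler measures with relations of polynomial size: definitions

`ι` is a finite index set (the monomials), `UnitAddCircle = ℝ/ℤ`, the torus is `ι → UnitAddCircle`. A rational subspace `V ⊆ ℚ^ι` has the subtorus
`H_V` = closure of the image of `V`; its Haar measure is the unique probability measure with
`∫ mFourier c = 1` if `c ⟂ V`, and `0` otherwise.
-/

set_option autoImplicit false

namespace H25.LKP

open MeasureTheory Polynomial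

/-- the value of `∑ a_i y_i` at the point `y` of the torus -/
noncomputable def FF {ι : Type} [Fintype ι] (a : ι → ℤ) (y : ι → UnitAddCircle) : ℂ :=
  ∑ i, (a i : ℂ) * (AddCircle.toCircle (y i) : ℂ)

/-- the integer vector `c` is orthogonal to `V` -/
def Orth {ι : Type} [Fintype ι] (V : Submodule ℚ (ι → ℚ)) (c : ι → ℤ) : Prop :=
  ∀ x ∈ V, ∑ i, (c i : ℚ) * x i = 0

/-- the line spanned by an integer vector -/
def line {ι : Type} (v : ι → ℤ) : Submodule ℚ (ι → ℚ) :=
  Submodule.span ℚ {fun i => (v i : ℚ)}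

open Classical in
/-- `ν` is the Haar measure of the subtorus of `V` -/
def IsHaar {ι : Type} [Fintype ι] (V : Submodule ℚ (ι → ℚ))
    (ν : Measure (ι → UnitAddCircle)) : Prop :=
  IsProbabilityMeasure ν ∧
    ∀ c : ι → ℤ, ∫ y, UnitAddTorus.mFourier c y ∂ν = if Orth V c then 1 else 0

/-- the distribution of `y + t v`, `y` distributed as `ν`, `t` uniform on the circle -/
noncomputable def twist {ι : Type} [Fintype ι] (v : ι → ℤ)
    (ν : Measure (ι → UnitAddCircle)) : Measure (ι → UnitAddCircle) :=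
  (ν.prod AddCircle.haarAddCircle).map fun p i => p.1 i + v i • p.2

/-- the mean of `log |∑ a_i y_i|` -/
noncomputable def Lm {ι : Type} [Fintype ι] (a : ι → ℤ)
    (ν : Measure (ι → UnitAddCircle)) : ℝ := ∫ y, Real.log ‖FF a y‖ ∂ν

/-- the polynomial `∑ a_i e(y_i) X ^ (e_i)` -/
noncomputable def PP {ι : Type} [Fintype ι] (a : ι → ℤ) (y : ι → UnitAddCircle) (e : ι → ℕ) :
    ℂ[X] := ∑ i, monomial (e i) ((a i : ℂ) * (AddCircle.toCircle (y i) : ℂ))

/-- all vectors of `W` satisfy the short relations of `n` -/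
def KillsI {ι : Type} [Fintype ι] (J : ℕ) (n : ι → ℕ) (W : Submodule ℚ (ι → ℚ)) : Prop :=
  ∀ c : ι → ℤ, ∑ i, c i = 0 → ∑ i, |c i| ≤ 2 * (J : ℤ) → ∑ i, c i * (n i : ℤ) = 0 →
    ∀ x ∈ W, ∑ i, (c i : ℚ) * x i = 0

/-- the error of one step -/
noncomputable def Err (t : ℕ) (L ρ T : ℝ) : ℝ :=
  Pool.Agent.H61.Sparse.GG t (6 * ρ * L) + 2 / T * Real.log ((1 + ρ) / ρ)

end H25.LKP
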