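import Pool.Agent.H25.LKP.Defs

/-!
# N1: a polynomial at the roots of unity

Let `P = c ∏ (X - α_l)` have degree `≤ d` and let `ζ` be a primitive `q`-th root of unity. Then `∏_j P(ζ^j s) = c^q ∏_l ± (s^q - α_l^q)`.
`pl1`: `∏_j |P(ζ^j)| = |c|^q ∏ |1 - α_l^q| ≤ |c|^q ∏ 2 max(1, |α_l|)^q ≤ 2^d M(P)^q`.
`pl2`: `Q(Y) = c^q ∏ (1 + ρ Y - α_l^q)` has Mahler measure `|c|^q ∏ max(ρ, |1 - α_l^q|) ≥ (ρ/(1+ρ))^d M(P)^q` as
`max(1, |ξ|) ≤ (1+ρ)/ρ max(ρ, |1 - ξ|)`, and `M(Q) ≤ sup |Q|`, `|Q(Y)| = ∏_j |P(ζ^j s)|`, `s^q = 1 + ρ Y`.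
`pl3`: `s = exp (log x / q)`, `|log x| ≤ 3ρ/2`, `|s^e - 1| ≤ 2 (e/q) (3/2) ρ ≤ 6ρ` for `e ≤ 2q`, `|x - 1| = ρ ≤ 1/4`.
-/

set_option autoImplicit false

namespace H25.LKP

open Polynomial

lemma prod_pow_sub {q : ℕ} (hq : 0 < q) {ζ : ℂ} (hζ : IsPrimitiveRoot ζ q) (x y : ℂ) :
    x ^ q - y ^ q = ∏ j ∈ Finset.range q, (x - ζ ^ j * y) := by
  have h1 : nthRootsFinset q (1 : ℂ) = (Finset.range q).image (fun j => ζ ^ j) := by
    symm
    apply Finset.eq_of_subset_of_card_le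
    · intro z hz
      rw [Finset.mem_image] at hz
      obtain ⟨j, _, rfl⟩ := hz
      rw [mem_nthRootsFinset hq, ← pow_mul, mul_comm, pow_mul, hζ.pow_eq_one, one_pow]
    · rw [hζ.card_nthRootsFinset, Finset.card_image_of_injOn, Finset.card_range]
      intro i hi j hj hij
      simp only [Finset.coe_range, Set.mem_Iio] at hi hj
      exact hζ.pow_inj hi hj hij
  rw [hζ.pow_sub_pow_eq_prod_sub_mul x y hq, h1, Finset.prod_image]
  intro i hi j hj hij
  simp only [Finset.coe_range, Set.mem_Iio] at hi hj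
  exact hζ.pow_inj hi hj hij

lemma norm_mprod (s : Multiset ℂ) : ‖s.prod‖ = (s.map fun z => ‖z‖).prod := by
  induction s using Multiset.induction_on with
  | empty => simp
  | cons a s ih => simp [ih]

lemma prod_comm_multiset (t : Multiset ℂ) (q : ℕ) (f : ℕ → ℂ → ℝ) :
    ∏ j ∈ Finset.range q, (t.map (f j)).prod =
      (t.map fun a => ∏ j ∈ Finset.range q, f j a).prod := by
  induction t using Multiset.induction_on with
  | empty => simp
  | cons a s ih => simp [ih, Finset.prod_mul_distrib]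

lemma norm_eval_eq (P : ℂ[X]) (z : ℂ) :
    ‖P.eval z‖ = ‖P.leadingCoeff‖ * (P.roots.map fun a => ‖z - a‖).prod := by
  conv_lhs => rw [(IsAlgClosed.splits P).eq_prod_roots]
  rw [eval_mul, eval_C, norm_mul, eval_multiset_prod, Multiset.map_map]
  congr 1
  rw [norm_mprod, Multiset.map_map]
  congr 1
  apply Multiset.map_congr rfl
  intro a _
  simp

lemma prod_norm_eval (P : ℂ[X]) {q : ℕ} (hq : 0 < q) {ζ : ℂ} (hζ : IsPrimitiveRoot ζ q) (s : ℂ) :
    ∏ j ∈ Finset.range q, ‖P.eval (ζ ^ j * s)‖ =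
      ‖P.leadingCoeff‖ ^ q * (P.roots.map fun a => ‖s ^ q - a ^ q‖).prod := by
  have h1 : ∀ j ∈ Finset.range q, ‖P.eval (ζ ^ j * s)‖ =
      ‖P.leadingCoeff‖ * (P.roots.map fun a => ‖ζ ^ j * s - a‖).prod :=
    fun j _ => norm_eval_eq P _
  rw [Finset.prod_congr rfl h1, Finset.prod_mul_distrib, Finset.prod_const, Finset.card_range]
  congr 1
  rw [prod_comm_multiset]
  congr 1
  apply Multiset.map_congr rfl
  intro a _
  have h2 : ∏ j ∈ Finset.range q, ‖ζ ^ j * s - a‖ = ∏ j ∈ Finset.range q, ‖a - ζ ^ j * s‖ :=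
    Finset.prod_congr rfl fun j _ => norm_sub_rev _ _
  rw [h2, ← norm_prod, ← prod_pow_sub hq hζ, norm_sub_rev]

lemma mahler_le_of_bound (Q : ℂ[X]) {B : ℝ} (hB : 0 ≤ B)
    (h : ∀ Y : ℂ, ‖Y‖ = 1 → ‖Q.eval Y‖ ≤ B) : Q.mahlerMeasure ≤ B := by
  by_cases hQ : Q = 0
  · rw [hQ, mahlerMeasure_zero]
    exact hB
  apply le_of_forall_pos_le_add
  intro ε hε
  have hC : 0 < B + ε := by linarith
  have hne : (C (((B + ε)⁻¹ : ℝ) : ℂ) * Q) ≠ 0 := by
    refine mul_ne_zero ?_ hQ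
    rw [Ne, C_eq_zero, Complex.ofReal_eq_zero]
    exact (inv_pos.2 hC).ne'
  have h1 : (C (((B + ε)⁻¹ : ℝ) : ℂ) * Q).mahlerMeasure ≤ 1 := by
    rw [mahlerMeasure_def_of_ne_zero hne, ← Real.exp_zero]
    apply Real.exp_le_exp.2
    have h2 := Real.circleAverage_mono_on_of_le_circle (c := 0) (R := 1) (a := 0)
      (f := fun x => Real.log ‖eval x (C (((B + ε)⁻¹ : ℝ) : ℂ) * Q)‖)
      ((analyticOnNhd_id.aeval_polynomial _).meromorphicOn.circleIntegrable_log_norm) ?_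
    · simpa [Real.circleAverage_def] using h2
    · intro x hx
      rw [abs_one, mem_sphere_zero_iff_norm] at hx
      apply Real.log_nonpos (norm_nonneg _)
      rw [eval_mul, eval_C, norm_mul, Complex.norm_real, Real.norm_of_nonneg (inv_pos.2 hC).le,
        inv_mul_le_iff₀ hC]
      linarith [h x hx]
  rw [mahlerMeasure_mul, mahlerMeasure_const, Complex.norm_real,
    Real.norm_of_nonneg (inv_pos.2 hC).le, inv_mul_le_iff₀ hC] at h1
  linarith

theorem pl3 {q : ℕ} (hq : 0 < q) (ρ : ℝ) (hρ : ρ ≤ 1 / 4) (x : ℂ) (hx : ‖x - 1‖ = ρ) :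
    ∃ s : ℂ, s ^ q = x ∧ ∀ e : ℕ, e ≤ 2 * q → ‖s ^ e - 1‖ ≤ 6 * ρ := by
  have hq' : (0 : ℝ) < q := by exact_mod_cast hq
  have hqc : (q : ℂ) ≠ 0 := by exact_mod_cast hq.ne'
  have hx0 : x ≠ 0 := by
    rintro rfl
    rw [zero_sub, norm_neg, norm_one] at hx
    linarith
  have hρ0 : 0 ≤ ρ := by
    rw [← hx]
    exact norm_nonneg _
  have hlog : ‖Complex.log x‖ ≤ 3 / 2 * ρ := by
    have := Complex.norm_log_one_add_half_le_self (z := x - 1) (by rw [hx]; linarith)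
    rwa [add_sub_cancel, hx] at this
  refine ⟨Complex.exp (Complex.log x / q), ?_, ?_⟩
  · rw [← Complex.exp_nat_mul, mul_div_cancel₀ _ hqc, Complex.exp_log hx0]
  · intro e he
    rw [← Complex.exp_nat_mul]
    have he' : (e : ℝ) ≤ 2 * q := by exact_mod_cast he
    have h1 : ‖(e : ℂ) * (Complex.log x / q)‖ ≤ 3 * ρ := by
      rw [norm_mul, norm_div, Complex.norm_natCast, Complex.norm_natCast, ← mul_div_assoc,
        div_le_iff₀ hq']
      calc (e : ℝ) * ‖Complex.log x‖ ≤ (2 * q) * (3 / 2 * ρ) := by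
            apply mul_le_mul he' hlog (norm_nonneg _) (by positivity)
        _ = 3 * ρ * q := by ring
    have h2 := Complex.norm_exp_sub_one_le (x := (e : ℂ) * (Complex.log x / q)) (by linarith)
    linarith

theorem pl1 (P : ℂ[X]) {q d : ℕ} (hq : 0 < q) (hd : P.natDegree ≤ d) (ζ : ℂ)
    (hζ : IsPrimitiveRoot ζ q) :
    ∏ j ∈ Finset.range q, ‖P.eval (ζ ^ j)‖ ≤ 2 ^ d * P.mahlerMeasure ^ q := by
  have h1 := prod_norm_eval P hq hζ 1
  simp only [mul_one, one_pow] at h1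
  rw [h1, mahlerMeasure_eq_leadingCoeff_mul_prod_roots, mul_pow]
  have h2 : (P.roots.map fun a => ‖1 - a ^ q‖).prod ≤
      (P.roots.map fun a => 2 * max 1 ‖a‖ ^ q).prod := by
    apply Multiset.prod_map_le_prod_map₀
    · intro a _
      exact norm_nonneg _
    · intro a _
      have h3 : 1 ≤ max 1 ‖a‖ ^ q := one_le_pow₀ (le_max_left _ _)
      have h4 : ‖a‖ ^ q ≤ max 1 ‖a‖ ^ q := pow_le_pow_left₀ (norm_nonneg _) (le_max_right _ _) _
      calc ‖1 - a ^ q‖ ≤ ‖(1 : ℂ)‖ + ‖a ^ q‖ := norm_sub_le _ _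
        _ ≤ 2 * max 1 ‖a‖ ^ q := by
          rw [norm_one, norm_pow]
          linarith
  have h5 : (P.roots.map fun a => 2 * max 1 ‖a‖ ^ q).prod =
      2 ^ (Multiset.card P.roots) * (P.roots.map fun a => max 1 ‖a‖).prod ^ q := by
    rw [Multiset.prod_map_mul, Multiset.map_const', Multiset.prod_replicate,
      Multiset.prod_map_pow]
  rw [h5] at h2
  have h6 : (2 : ℝ) ^ (Multiset.card P.roots) ≤ 2 ^ d :=
    pow_le_pow_right₀ (by norm_num) ((card_roots' P).trans hd)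
  have h7 : (0 : ℝ) ≤ (P.roots.map fun a => max 1 ‖a‖).prod ^ q := by
    apply pow_nonneg
    exact zero_le_one.trans (one_le_prod_max_one_norm_roots P)
  calc ‖P.leadingCoeff‖ ^ q * (P.roots.map fun a => ‖1 - a ^ q‖).prod ≤
      ‖P.leadingCoeff‖ ^ q *
        (2 ^ (Multiset.card P.roots) * (P.roots.map fun a => max 1 ‖a‖).prod ^ q) :=
        mul_le_mul_of_nonneg_left h2 (pow_nonneg (norm_nonneg _) _)
    _ ≤ ‖P.leadingCoeff‖ ^ q * (2 ^ d * (P.roots.map fun a => max 1 ‖a‖).prod ^ q) := by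
        apply mul_le_mul_of_nonneg_left _ (pow_nonneg (norm_nonneg _) _)
        exact mul_le_mul_of_nonneg_right h6 h7
    _ = _ := by ring

theorem pl2 (P : ℂ[X]) {q d : ℕ} (hq : 0 < q) (hd : P.natDegree ≤ d) (ζ : ℂ)
    (hζ : IsPrimitiveRoot ζ q) (ρ τ : ℝ) (hρ : 0 < ρ)
    (h : ∀ x : ℂ, ‖x - 1‖ = ρ → ∃ s : ℂ, s ^ q = x ∧
      ∀ j : ℕ, ‖P.eval (ζ ^ j * s)‖ ≤ ‖P.eval (ζ ^ j)‖ + τ) :
    P.mahlerMeasure ^ q ≤
      ((1 + ρ) / ρ) ^ d * ∏ j ∈ Finset.range q, (‖P.eval (ζ ^ j)‖ + τ) := by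
  set B := ∏ j ∈ Finset.range q, (‖P.eval (ζ ^ j)‖ + τ) with hB
  have hfac : ∀ j : ℕ, 0 ≤ ‖P.eval (ζ ^ j)‖ + τ := by
    intro j
    obtain ⟨s, _, hs⟩ := h (1 + (ρ : ℂ)) (by simp [abs_of_pos hρ])
    exact (norm_nonneg _).trans (hs j)
  have hB0 : 0 ≤ B := Finset.prod_nonneg fun j _ => hfac j
  set Q : ℂ[X] := C (P.leadingCoeff ^ q) *
    (P.roots.map fun a => C (ρ : ℂ) * X + C (1 - a ^ q)).prod with hQ
  have hMQ : Q.mahlerMeasure ≤ B := by
    apply mahler_le_of_bound Q hB0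
    intro Y hY
    obtain ⟨s, hs1, hs2⟩ := h (1 + ρ * Y) (by simp [hY, abs_of_pos hρ])
    have h1 := prod_norm_eval P hq hζ s
    have h2 : ‖Q.eval Y‖ = ∏ j ∈ Finset.range q, ‖P.eval (ζ ^ j * s)‖ := by
      rw [h1, hQ, eval_mul, eval_C, norm_mul, norm_pow, eval_multiset_prod, Multiset.map_map,
        norm_mprod, Multiset.map_map]
      congr 2
      apply Multiset.map_congr rfl
      intro a _
      rw [hs1]
      simp only [Function.comp_apply, eval_add, eval_mul, eval_C, eval_X]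
      congr 1
      ring
    rw [h2, hB]
    exact Finset.prod_le_prod (fun j _ => norm_nonneg _) (fun j _ => hs2 j)
  have hMQ' : Q.mahlerMeasure = ‖P.leadingCoeff‖ ^ q *
      (P.roots.map fun a => max ρ ‖1 - a ^ q‖).prod := by
    rw [hQ, mahlerMeasure_mul, mahlerMeasure_const, norm_pow,
      prod_mahlerMeasure_eq_mahlerMeasure_prod, Multiset.map_map]
    congr 2
    apply Multiset.map_congr rfl
    intro a _
    rw [Function.comp_apply, mahlerMeasure_C_mul_X_add_C (by exact_mod_cast hρ.ne'),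
      Complex.norm_real, Real.norm_of_nonneg hρ.le]
  have hr : (1 : ℝ) ≤ (1 + ρ) / ρ := by
    rw [le_div_iff₀ hρ]
    linarith
  have h2 : (P.roots.map fun a => max 1 ‖a‖ ^ q).prod ≤
      (P.roots.map fun a => ((1 + ρ) / ρ) * max ρ ‖1 - a ^ q‖).prod := by
    apply Multiset.prod_map_le_prod_map₀
    · intro a _
      exact pow_nonneg (zero_le_one.trans (le_max_left _ _)) _
    · intro a _
      have e1 : max 1 ‖a‖ ^ q = max 1 ‖a ^ q‖ := by
        rw [norm_pow]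
        rcases le_total 1 ‖a‖ with h3 | h3
        · rw [max_eq_right h3, max_eq_right (one_le_pow₀ h3)]
        · rw [max_eq_left h3, one_pow, max_eq_left (pow_le_one₀ (norm_nonneg _) h3)]
      rw [e1]
      set m := max ρ ‖1 - a ^ q‖ with hm
      have hm1 : ρ ≤ m := le_max_left _ _
      have hm2 : ‖1 - a ^ q‖ ≤ m := le_max_right _ _
      have hm3 : 1 ≤ m / ρ := by rwa [one_le_div hρ]
      have e2 : (1 + ρ) / ρ * m = m / ρ + m := by
        field_simp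
      rw [e2]
      apply max_le
      · have : 0 ≤ m := hρ.le.trans hm1
        linarith
      · have : ‖a ^ q‖ ≤ ‖(1 : ℂ)‖ + ‖1 - a ^ q‖ := by
          have h4 := norm_sub_le (1 : ℂ) (1 - a ^ q)
          rwa [sub_sub_cancel] at h4
        rw [norm_one] at this
        linarith
  have h5 : (P.roots.map fun a => ((1 + ρ) / ρ) * max ρ ‖1 - a ^ q‖).prod =
      ((1 + ρ) / ρ) ^ (Multiset.card P.roots) *
        (P.roots.map fun a => max ρ ‖1 - a ^ q‖).prod := by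
    rw [Multiset.prod_map_mul, Multiset.map_const', Multiset.prod_replicate]
  rw [h5, Multiset.prod_map_pow] at h2
  have h6 : ((1 + ρ) / ρ) ^ (Multiset.card P.roots) ≤ ((1 + ρ) / ρ) ^ d :=
    pow_le_pow_right₀ hr ((card_roots' P).trans hd)
  have h7 : 0 ≤ (P.roots.map fun a => max ρ ‖1 - a ^ q‖).prod := by
    apply Multiset.prod_nonneg
    intro x hx
    rw [Multiset.mem_map] at hx
    obtain ⟨a, _, rfl⟩ := hx
    exact hρ.le.trans (le_max_left _ _)
  rw [mahlerMeasure_eq_leadingCoeff_mul_prod_roots, mul_pow]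
  calc ‖P.leadingCoeff‖ ^ q * (P.roots.map fun a => max 1 ‖a‖).prod ^ q
      ≤ ‖P.leadingCoeff‖ ^ q * (((1 + ρ) / ρ) ^ (Multiset.card P.roots) *
        (P.roots.map fun a => max ρ ‖1 - a ^ q‖).prod) :=
        mul_le_mul_of_nonneg_left h2 (pow_nonneg (norm_nonneg _) _)
    _ ≤ ‖P.leadingCoeff‖ ^ q * (((1 + ρ) / ρ) ^ d *
        (P.roots.map fun a => max ρ ‖1 - a ^ q‖).prod) := by
        apply mul_le_mul_of_nonneg_left _ (pow_nonneg (norm_nonneg _) _)
        exact mul_le_mul_of_nonneg_right h6 h7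
    _ = ((1 + ρ) / ρ) ^ d * Q.mahlerMeasure := by rw [hMQ']; ring
    _ ≤ ((1 + ρ) / ρ) ^ d * B :=
        mul_le_mul_of_nonneg_left hMQ (pow_nonneg (zero_le_one.trans hr) _)

end H25.LKP
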