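import Pool.Agent.H91.LK.B5

/-!
# N10: Dobrowolski's bound with the factor `(log log D)^3`

As `dobrowolski_explicit` (B5), but with the Chebyshev upper bound `#Q = π(x) ≤ 4 x/log x`
(`Chebyshev.pi_le_log4_mul_div`) and `∑_{p ≤ x} p ≤ x π(x)`. With `Λ = log D`, `ℓ = log Λ ≥ 1`, `u = Λ/ℓ`:
`x = ⌈3·10⁶ u² ℓ⌉`, `T = ⌈2560 u⌉`, `z = x/ℓ`: `#Q ≤ 4 z`, and `dob_raw` gives `T x/3 ≤ 50 x z² S`, so
`S ≥ c T/z² ≥ c' u^(-3)`.
-/

set_option autoImplicit false

namespace H25.LKP

open Polynomial H91.LK H25.Arith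

theorem N10_log (x : ℝ) (hx : 0 < x) : Real.log x ≤ √x := by
  have h0 : 0 < √x := Real.sqrt_pos.2 hx
  have h1 : Real.log x = 2 * Real.log (√x) := by
    rw [Real.log_sqrt hx.le]
    ring
  have h2 := Real.log_le_sub_one_of_pos (by positivity : 0 < √x / 2)
  rw [Real.log_div h0.ne' (by norm_num)] at h2
  have h3 := Real.log_two_lt_d9
  rw [h1]
  linarith

theorem N10_pi (x : ℕ) (hx : 3 ≤ x) :
    ((Nat.primesLE x).card : ℝ) * Real.log x ≤ 4 * x := by
  have hxr : (3 : ℝ) ≤ x := by exact_mod_cast hx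
  have h1 := Chebyshev.pi_le_log4_mul_div (x := (x : ℝ)) (by linarith)
  rw [Nat.floor_natCast] at h1
  have hc : Nat.primeCounting x = (Nat.primesLE x).card := by
    rw [Nat.primesLE, Nat.primesBelow_card_eq_primeCounting', Nat.primeCounting]
  rw [hc] at h1
  have hl : 0 < Real.log x := Real.log_pos (by linarith)
  rw [Real.log_sqrt (by linarith)] at h1
  have h4 : Real.log 4 = 2 * Real.log 2 := by
    rw [show (4 : ℝ) = 2 ^ 2 by norm_num, Real.log_pow]
    norm_num
  have h5 := Real.log_two_lt_d9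
  have h6 := N10_log x (by linarith)
  have h7 : √(x : ℝ) * √(x : ℝ) = x := Real.mul_self_sqrt (by linarith)
  calc ((Nat.primesLE x).card : ℝ) * Real.log x
      ≤ (Real.log 4 * x / (Real.log x / 2) + √(x : ℝ)) * Real.log x := by gcongr
    _ = 2 * Real.log 4 * x + √(x : ℝ) * Real.log x := by
        field_simp
    _ ≤ 2 * (2 * 0.6931471808) * x + √(x : ℝ) * √(x : ℝ) := by
        rw [h4]
        gcongr
    _ ≤ 4 * x := by
        rw [h7]
        linarith

theorem N10_num (u ℓ T z s L θ P S : ℝ) (hℓ : 1 ≤ ℓ) (hu : 1 ≤ u) (hT1 : 2560 * u ≤ T)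
    (hT2 : T ≤ 2561 * u) (hz1 : 3000000 * u ^ 2 ≤ z) (hz2 : z ≤ 3000001 * u ^ 2) (hs0 : 0 ≤ s)
    (hs : s ≤ 4 * z) (hP0 : 0 ≤ P) (hP : P ≤ z * ℓ * s) (hL0 : 0 ≤ L) (hL : L ≤ 20 * (u * ℓ))
    (hθ : z * ℓ / 4 ≤ θ) (hS : 0 ≤ S)
    (h : 2 * T * θ ≤ (T ^ 2 + 2 * (T + s)) * L + 2 * (T + s) * ((T + P) * S + 1)) :
    15 / 3000001 ^ 2 / u ^ 3 ≤ S := by
  have hu2 : u ≤ u ^ 2 := by nlinarith
  have hTpos : 0 < T := by linarith
  have hzpos : 0 < z := by nlinarith
  have hz3 : 3000000 * u ≤ z := by linarith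
  set x : ℝ := z * ℓ with hxdef
  have hzx : z ≤ x := by nlinarith
  have hxpos : 0 < x := by linarith
  have hxu : 3000000 * (u * ℓ) ≤ x := by
    have : 3000000 * u * ℓ ≤ z * ℓ := by gcongr
    linarith
  have hxu2 : 3000000 * (u ^ 2 * ℓ) ≤ x := by
    have : 3000000 * u ^ 2 * ℓ ≤ z * ℓ := by gcongr
    linarith
  have hTx : 0 < T * x := by positivity
  have h1 : T ^ 2 * L ≤ T * x / 16 := by
    calc T ^ 2 * L = T * (T * L) := by ring
      _ ≤ T * (2561 * u * (20 * (u * ℓ))) := by gcongr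
      _ = T * (51220 * (u ^ 2 * ℓ)) := by ring
      _ ≤ T * (x / 16) := by
        gcongr
        linarith
      _ = T * x / 16 := by ring
  have h2 : 2 * T * L ≤ T * x / 1000 := by
    calc 2 * T * L ≤ 2 * T * (20 * (u * ℓ)) := by gcongr
      _ = T * (40 * (u * ℓ)) := by ring
      _ ≤ T * (x / 1000) := by
        gcongr
        linarith
      _ = T * x / 1000 := by ring
  have h3 : 2 * s * L ≤ T * x / 16 := by
    calc 2 * s * L ≤ 2 * (4 * z) * (20 * (u * ℓ)) := by gcongr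
      _ = (160 * u) * x := by rw [hxdef]; ring
      _ ≤ (T / 16) * x := by
        gcongr
        linarith
      _ = T * x / 16 := by ring
  have h4 : 2 * (T + s) ≤ T * x / 1000 + T * x / 320 := by
    have e2 : 2 * T ≤ T * x / 1000 := by
      have : T * 2000 ≤ T * x := by
        gcongr
        nlinarith
      linarith
    have e3 : 8 * z ≤ T * x / 320 := by
      have : 2560 * x ≤ T * x := by
        gcongr
        linarith
      linarith
    linarith
  have h5 : 2 * (T + s) * ((T + P) * S) ≤ 50 * x * z ^ 2 * S := by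
    have e0 : T ≤ z := by linarith
    have e1 : T + s ≤ 5 * z := by linarith
    have e2 : T + P ≤ 5 * (x * z) := by
      have f1 : P ≤ x * (4 * z) := by
        refine hP.trans ?_
        gcongr
      have f2 : z ≤ x * z := by
        have : (1 : ℝ) ≤ x := by nlinarith
        nlinarith
      linarith
    calc 2 * (T + s) * ((T + P) * S) ≤ 2 * (5 * z) * ((5 * (x * z)) * S) := by gcongr
      _ = 50 * x * z ^ 2 * S := by ring
  have h6 : T * x / 2 ≤ 2 * T * θ := by
    have : 2 * T * (x / 4) ≤ 2 * T * θ := by gcongr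
    linarith
  have h7 : 36 / 100 * T * x ≤ 50 * z ^ 2 * S * x := by
    have e : (T ^ 2 + 2 * (T + s)) * L + 2 * (T + s) * ((T + P) * S + 1) =
      T ^ 2 * L + 2 * T * L + 2 * s * L + 2 * (T + s) * ((T + P) * S) + 2 * (T + s) := by ring
    rw [e] at h
    have e' : 50 * z ^ 2 * S * x = 50 * x * z ^ 2 * S := by ring
    rw [e']
    linarith
  have h8 : 36 / 100 * T ≤ 50 * z ^ 2 * S := le_of_mul_le_mul_right h7 hxpos
  have h9 : 50 * z ^ 2 * S ≤ 50 * (3000001 * u ^ 2) ^ 2 * S := by gcongr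
  have h10 : 15 * u ≤ 3000001 ^ 2 * (S * u ^ 3) * u := by
    calc 15 * u ≤ (36 / 100 * T) / 50 := by linarith
      _ ≤ (50 * (3000001 * u ^ 2) ^ 2 * S) / 50 := by
        have := h8.trans h9
        linarith
      _ = 3000001 ^ 2 * (S * u ^ 3) * u := by ring
  have h11 := le_of_mul_le_mul_right h10 (by linarith : (0 : ℝ) < u)
  have hu3 : 0 < u ^ 3 := by positivity
  rw [div_le_iff₀ hu3, div_le_iff₀ (by norm_num)]
  linarith

theorem dobrowolski_full_explicit (f : ℤ[X]) (D : ℝ) (h0 : 0 < lm f) (hD : 16 ≤ D)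
    (hdeg : (f.natDegree : ℝ) ≤ D) :
    15 / 3000001 ^ 2 * (Real.log (Real.log D) / Real.log D) ^ 3 ≤ lm f := by
  set Λ := Real.log D with hΛdef
  set ℓ := Real.log Λ with hℓdef
  have hΛe : Real.exp 1 ≤ Λ := by
    have h1 : Real.log 16 ≤ Λ := Real.log_le_log (by norm_num) hD
    have h2 : Real.log 16 = 4 * Real.log 2 := by
      rw [show (16 : ℝ) = 2 ^ 4 by norm_num, Real.log_pow]
      norm_num
    have h3 := Real.log_two_gt_d9
    have h4 := Real.exp_one_lt_d9
    linarith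
  have hΛ2 : (2 : ℝ) ≤ Λ := by
    have := Real.exp_one_gt_d9
    linarith
  have hΛ0 : 0 < Λ := by linarith
  have hℓ : 1 ≤ ℓ := by
    rw [hℓdef, Real.le_log_iff_exp_le hΛ0]
    exact hΛe
  have hℓΛ : ℓ ≤ Λ := by
    have := Real.log_le_sub_one_of_pos hΛ0
    linarith
  have hℓ0 : 0 < ℓ := by linarith
  set u := Λ / ℓ with hudef
  have hu : 1 ≤ u := by
    rw [hudef, le_div_iff₀ hℓ0]
    linarith
  have hu0 : 0 < u := by linarith
  have huℓ : u * ℓ = Λ := by
    rw [hudef]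
    field_simp
  have hinv : (ℓ / Λ) ^ 3 = 1 / u ^ 3 := by
    rw [hudef, div_pow, div_pow, one_div, inv_div]
  have hgoal : 15 / 3000001 ^ 2 * (ℓ / Λ) ^ 3 = 15 / 3000001 ^ 2 / u ^ 3 := by
    rw [hinv]
    ring
  rw [hgoal]
  by_cases h2 : lm f < Real.log 2
  · obtain ⟨K, iF, iN, iG, σ, α, hα, hn1, hn2, hS, hinj, hne⟩ := nondegenerate f h0 h2
    refine le_trans ?_ hS
    set T := ⌈2560 * u⌉₊ with hT
    set x := ⌈3000000 * (u ^ 2 * ℓ)⌉₊ with hx
    have hT1 : 2560 * u ≤ T := Nat.le_ceil _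
    have hT2 : (T : ℝ) ≤ 2561 * u := by
      have := (Nat.ceil_lt_add_one (by positivity : 0 ≤ 2560 * u)).le
      linarith
    have hu2ℓ : 1 ≤ u ^ 2 * ℓ := by
      have : (1 : ℝ) ≤ u ^ 2 := one_le_pow₀ hu
      nlinarith
    have hx1 : 3000000 * (u ^ 2 * ℓ) ≤ x := Nat.le_ceil _
    have hx2 : (x : ℝ) ≤ 3000001 * (u ^ 2 * ℓ) := by
      have := (Nat.ceil_lt_add_one (by positivity : 0 ≤ 3000000 * (u ^ 2 * ℓ))).le
      linarith
    have hTone : 1 ≤ T := by
      have : (1 : ℝ) ≤ T := by linarith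
      exact_mod_cast this
    have hxbig : 3000000 ≤ x := by
      have : (3000000 : ℝ) ≤ x := by linarith
      exact_mod_cast this
    have hxr : (3000000 : ℝ) ≤ x := by exact_mod_cast hxbig
    have hraw := dob_raw σ α hα hn1 hinj hne T hTone (Nat.primesLE x)
      (fun p hp => (Nat.mem_primesLE.1 hp).2)
    -- `log x ≥ ℓ`
    have hxΛ : Λ ≤ x := by
      rw [← huℓ]
      have h3 : u * ℓ ≤ u ^ 2 * ℓ := by
        have : u ≤ u ^ 2 := by nlinarith
        gcongr
      linarith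
    have hlogx : ℓ ≤ Real.log x := Real.log_le_log hΛ0 hxΛ
    have hs : ((Nat.primesLE x).card : ℝ) ≤ 4 * (x / ℓ) := by
      have h3 := N10_pi x (by omega)
      have h4 : ((Nat.primesLE x).card : ℝ) * ℓ ≤ 4 * x := by
        refine le_trans ?_ h3
        gcongr
      rw [← mul_div_assoc, le_div_iff₀ hℓ0]
      exact h4
    have hs0 : (0 : ℝ) ≤ (Nat.primesLE x).card := Nat.cast_nonneg _
    have hzl : (x / ℓ : ℝ) * ℓ = x := by field_simp
    have hP : ∑ p ∈ Nat.primesLE x, (p : ℝ) ≤ x / ℓ * ℓ * (Nat.primesLE x).card := by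
      have h3 : ∑ p ∈ Nat.primesLE x, (p : ℝ) ≤ ∑ p ∈ Nat.primesLE x, (x : ℝ) := by
        refine Finset.sum_le_sum fun p hp => ?_
        rw [Nat.mem_primesLE] at hp
        exact_mod_cast hp.1
      rw [Finset.sum_const, nsmul_eq_mul] at h3
      rw [hzl, mul_comm]
      exact h3
    have hz1 : 3000000 * u ^ 2 ≤ x / ℓ := by
      rw [le_div_iff₀ hℓ0]
      linarith
    have hz2 : x / ℓ ≤ 3000001 * u ^ 2 := by
      rw [div_le_iff₀ hℓ0]
      linarith
    have hn1' : (1 : ℝ) ≤ (orb α).card := by exact_mod_cast hn1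
    have hn2' : ((orb α).card : ℝ) ≤ D := by
      refine le_trans ?_ hdeg
      exact_mod_cast hn2
    have hTr : (1 : ℝ) ≤ T := by exact_mod_cast hTone
    have hN1 : (1 : ℝ) ≤ (orb α).card * (T + (Nat.primesLE x).card) := by nlinarith
    have hL : Real.log ((orb α).card * (T + (Nat.primesLE x).card)) ≤ 20 * (u * ℓ) := by
      rw [huℓ]
      have huΛ : u ≤ Λ := by
        rw [hudef, div_le_iff₀ hℓ0]
        nlinarith
      have h3 : ((orb α).card : ℝ) * (T + (Nat.primesLE x).card) ≤ D * (12002565 * Λ ^ 2) := by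
        have h4 : (T : ℝ) + (Nat.primesLE x).card ≤ 12002565 * Λ ^ 2 := by
          have e1 : u ^ 2 ≤ Λ ^ 2 := by gcongr
          have e2 : u ≤ Λ ^ 2 := by nlinarith
          linarith
        gcongr
      have h5 := Real.log_le_log (by linarith) h3
      have hD0 : D ≠ 0 := by linarith
      have hΛ0' : Λ ≠ 0 := by linarith
      have h5' : Real.log (D * (12002565 * Λ ^ 2)) =
          Real.log D + (Real.log 12002565 + 2 * Real.log Λ) := by
        rw [Real.log_mul hD0 (mul_ne_zero (by norm_num) (pow_ne_zero _ hΛ0')),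
          Real.log_mul (by norm_num) (pow_ne_zero _ hΛ0'), Real.log_pow]
        push_cast
        ring
      rw [h5', ← hΛdef] at h5
      have h6 : Real.log 12002565 ≤ 17 := by
        rw [Real.log_le_iff_le_exp (by norm_num)]
        have h7 : Real.exp 17 = Real.exp 1 ^ 17 := by
          rw [← Real.exp_nat_mul]
          norm_num
        rw [h7]
        have h8 := Real.exp_one_gt_d9
        have h9 : (27 / 10 : ℝ) ^ 17 ≤ Real.exp 1 ^ 17 := by
          gcongr
          linarith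
        refine le_trans ?_ h9
        norm_num
      have h7 := Real.log_le_sub_one_of_pos hΛ0
      linarith
    refine N10_num u ℓ T (x / ℓ) (Nat.primesLE x).card _ _ (∑ p ∈ Nat.primesLE x, (p : ℝ)) _ hℓ hu
      hT1 hT2 hz1 hz2 hs0 hs (Finset.sum_nonneg fun p _ => Nat.cast_nonneg p) hP
      (Real.log_nonneg hN1) hL ?_ (Finset.sum_nonneg fun y _ => Real.posLog_nonneg) hraw
    rw [hzl]
    exact B5_theta x hxbig
  · push Not at h2
    refine le_trans ?_ h2
    have h3 := Real.log_two_gt_d9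
    have h4 : (1 : ℝ) ≤ u ^ 3 := one_le_pow₀ hu
    have h5 : (15 : ℝ) / 3000001 ^ 2 / u ^ 3 ≤ 15 / 3000001 ^ 2 := by
      apply div_le_self (by positivity) h4
    have h6 : (15 : ℝ) / 3000001 ^ 2 ≤ 1 / 2 := by norm_num
    linarith

theorem dobrowolski_full : ∃ c : ℝ, 0 < c ∧ ∀ (f : ℤ[X]) (D : ℝ), 0 < lm f → 16 ≤ D →
    (f.natDegree : ℝ) ≤ D → c * (Real.log (Real.log D) / Real.log D) ^ 3 ≤ lm f :=
  ⟨15 / 3000001 ^ 2, by positivity, fun f D h0 hD hdeg =>
    dobrowolski_full_explicit f D h0 hD hdeg⟩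

end H25.LKP
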