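import Pool.Agent.H91.LK.Defs

/-!
# N9: small exponents with the same short relations, by counting

Let `R` be the set of the `c` with `∑ c = 0`, `∑ |c| ≤ 2J`, `c·n = 0`, `W = R^⊥`, `r = dim W`. A set of points of the box `{0,…,N}^k` whose
differences lie in a space of dimension `d` has at most `(N+1)^d` elements (`N9_card_le`). Adding the relations of `R` one by one and taking the largest
fibre (`|c·x| ≤ J N` on the box): there is a set `S` of box points with differences in `W` and `(N+1)^r ≤ #S (2J)^(k-r)` (`N9_fiber`). For a short `c`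
with `c·n ≠ 0` (at most `(4J+1)^k` of them), the points of `S` with a given value of `c·x` are at most `(N+1)^(r-1)`; with `N = (4J+1)^(2k)` some
`x ∈ S` has `c·x ≠ c·x₀` for all those `c`. `m = x - x₀ + N`.
-/

set_option autoImplicit false

namespace H25.LKP

open Polynomial H91.LK

/-- the points of the box `{0,…,N}^k` -/
def N9box (k N : ℕ) : Finset (Fin k → ℕ) := Fintype.piFinset fun _ => Finset.range (N + 1)

/-- a vector of naturals as a rational vector -/
def N9q {k : ℕ} (x : Fin k → ℕ) : Fin k → ℚ := fun i => (x i : ℚ)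

/-- the rational vectors orthogonal to all `c ∈ R` -/
def N9ann {k : ℕ} (R : Finset (Fin k → ℤ)) : Submodule ℚ (Fin k → ℚ) where
  carrier := {x | ∀ c ∈ R, ∑ i, (c i : ℚ) * x i = 0}
  zero_mem' := by
    intro c _
    simp
  add_mem' := by
    intro x y hx hy c hc
    simp only [Pi.add_apply, mul_add, Finset.sum_add_distrib]
    rw [hx c hc, hy c hc, add_zero]
  smul_mem' := by
    intro q x hx c hc
    have : ∑ i, (c i : ℚ) * (q • x) i = q * ∑ i, (c i : ℚ) * x i := by
      rw [Finset.mul_sum]
      refine Finset.sum_congr rfl fun i _ => ?_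
      simp only [Pi.smul_apply, smul_eq_mul]
      ring
    rw [this, hx c hc, mul_zero]

theorem N9_mem_ann {k : ℕ} (R : Finset (Fin k → ℤ)) (x : Fin k → ℚ) :
    x ∈ N9ann R ↔ ∀ c ∈ R, ∑ i, (c i : ℚ) * x i = 0 := Iff.rfl

theorem N9_card_le {k : ℕ} (N d : ℕ) : ∀ (U : Submodule ℚ (Fin k → ℚ)),
    Module.finrank ℚ U ≤ d → ∀ S : Finset (Fin k → ℕ), S ⊆ N9box k N →
    (∀ x ∈ S, ∀ y ∈ S, N9q x - N9q y ∈ U) → S.card ≤ (N + 1) ^ d := by
  induction d with
  | zero =>
    intro U hU S _ hd
    have hU' : U = ⊥ := Submodule.finrank_eq_zero.1 (Nat.le_zero.1 hU)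
    rw [pow_zero]
    refine Finset.card_le_one.2 fun x hx y hy => ?_
    have h1 := hd x hx y hy
    rw [hU', Submodule.mem_bot, sub_eq_zero] at h1
    funext i
    have h2 := congrFun h1 i
    simp only [N9q] at h2
    exact_mod_cast h2
  | succ d ih =>
    intro U hU S hS hd
    by_cases hbot : U = ⊥
    · have h0 : Module.finrank ℚ U ≤ d := by
        rw [hbot, finrank_bot]
        exact Nat.zero_le _
      refine (ih U h0 S hS hd).trans ?_
      exact Nat.pow_le_pow_right (Nat.succ_pos N) (Nat.le_succ d)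
    · obtain ⟨u, huU, hu0⟩ := Submodule.exists_mem_ne_zero_of_ne_bot hbot
      obtain ⟨i, hi⟩ : ∃ i, u i ≠ 0 := by
        by_contra hcon
        push Not at hcon
        exact hu0 (funext hcon)
      set U' : Submodule ℚ (Fin k → ℚ) := U ⊓ LinearMap.ker (LinearMap.proj (R := ℚ) i) with hU'
      have hlt : U' < U := by
        refine lt_of_le_of_ne inf_le_left fun hEq => hi ?_
        have : u ∈ U' := by
          rw [hEq]
          exact huU
        rw [hU', Submodule.mem_inf, LinearMap.mem_ker] at this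
        exact this.2
      have hfr : Module.finrank ℚ U' ≤ d := by
        have := Submodule.finrank_lt_finrank_of_lt hlt
        omega
      have hmaps : ∀ x ∈ S, x i ∈ Finset.range (N + 1) := by
        intro x hx
        have := hS hx
        rw [N9box, Fintype.mem_piFinset] at this
        exact this i
      have hfib : ∀ v ∈ Finset.range (N + 1), (S.filter fun x => x i = v).card ≤ (N + 1) ^ d := by
        intro v _
        refine ih U' hfr _ ((Finset.filter_subset _ _).trans hS) ?_
        intro x hx y hy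
        rw [Finset.mem_filter] at hx hy
        rw [hU', Submodule.mem_inf, LinearMap.mem_ker]
        refine ⟨hd x hx.1 y hy.1, ?_⟩
        simp only [LinearMap.proj_apply, Pi.sub_apply, N9q]
        rw [hx.2, hy.2, sub_self]
      have := Finset.card_le_mul_card_image_of_maps_to hmaps ((N + 1) ^ d) hfib
      rw [Finset.card_range] at this
      rw [pow_succ]
      exact this

theorem N9_abs_le {k : ℕ} (J N : ℕ) (c : Fin k → ℤ) (h0 : ∑ i, c i = 0)
    (h1 : ∑ i, |c i| ≤ 2 * (J : ℤ)) (x : Fin k → ℕ) (hx : x ∈ N9box k N) :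
    |∑ i, c i * (x i : ℤ)| ≤ J * N := by
  rw [N9box, Fintype.mem_piFinset] at hx
  have h2 : 2 * ∑ i, c i * (x i : ℤ) = ∑ i, c i * (2 * (x i : ℤ) - N) := by
    have : ∑ i, c i * (2 * (x i : ℤ) - N) = 2 * ∑ i, c i * (x i : ℤ) - (∑ i, c i) * N := by
      rw [Finset.mul_sum, Finset.sum_mul, ← Finset.sum_sub_distrib]
      refine Finset.sum_congr rfl fun i _ => ?_
      ring
    rw [this, h0]
    ring
  have h3 : |∑ i, c i * (2 * (x i : ℤ) - N)| ≤ ∑ i, |c i| * N := by
    refine (Finset.abs_sum_le_sum_abs _ _).trans (Finset.sum_le_sum fun i _ => ?_)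
    rw [abs_mul]
    refine mul_le_mul_of_nonneg_left ?_ (abs_nonneg _)
    have := Finset.mem_range.1 (hx i)
    rw [abs_le]
    constructor <;> omega
  rw [← Finset.sum_mul] at h3
  have h4 : (∑ i, |c i|) * (N : ℤ) ≤ 2 * J * N := by
    refine mul_le_mul_of_nonneg_right h1 (by positivity)
  rw [← h2, abs_mul, abs_two] at h3
  linarith

theorem N9_fiber {k : ℕ} (J N : ℕ) (hJ : 1 ≤ J) (R : Finset (Fin k → ℤ)) :
    (∀ c ∈ R, ∑ i, c i = 0 ∧ ∑ i, |c i| ≤ 2 * (J : ℤ)) →
    ∃ S : Finset (Fin k → ℕ), S ⊆ N9box k N ∧ (∀ x ∈ S, ∀ y ∈ S, N9q x - N9q y ∈ N9ann R) ∧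
      (N + 1) ^ Module.finrank ℚ (N9ann R) ≤
        S.card * (2 * J) ^ (k - Module.finrank ℚ (N9ann R)) := by
  classical
  induction R using Finset.induction_on with
  | empty =>
    intro _
    have htop : N9ann (∅ : Finset (Fin k → ℤ)) = ⊤ := by
      rw [eq_top_iff]
      intro x _
      rw [N9_mem_ann]
      intro c hc
      simp at hc
    refine ⟨N9box k N, subset_rfl, ?_, ?_⟩
    · intro x _ y _
      rw [htop]
      trivial
    · rw [htop, finrank_top, Module.finrank_fin_fun, Nat.sub_self, pow_zero, mul_one, N9box,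
        Fintype.card_piFinset]
      simp
  | insert c R hcR ih =>
    intro hR
    obtain ⟨S, hS, hd, hcard⟩ := ih fun c' hc' => hR c' (Finset.mem_insert_of_mem hc')
    obtain ⟨hc0, hc1⟩ := hR c (Finset.mem_insert_self _ _)
    have hle : N9ann (insert c R) ≤ N9ann R := by
      intro x hx
      rw [N9_mem_ann] at hx ⊢
      exact fun c' hc' => hx c' (Finset.mem_insert_of_mem hc')
    by_cases hc : ∀ x ∈ N9ann R, ∑ i, (c i : ℚ) * x i = 0
    · have heq : N9ann (insert c R) = N9ann R := by
        refine le_antisymm hle ?_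
        intro x hx
        rw [N9_mem_ann]
        intro c' hc'
        rw [Finset.mem_insert] at hc'
        rcases hc' with rfl | hc'
        · exact hc x hx
        · exact hx c' hc'
      rw [heq]
      exact ⟨S, hS, hd, hcard⟩
    · push Not at hc
      obtain ⟨u, hu, hu0⟩ := hc
      have hlt : N9ann (insert c R) < N9ann R := by
        refine lt_of_le_of_ne hle fun hEq => hu0 ?_
        have : u ∈ N9ann (insert c R) := by
          rw [hEq]
          exact hu
        exact this c (Finset.mem_insert_self _ _)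
      have hfr := Submodule.finrank_lt_finrank_of_lt hlt
      have hk : Module.finrank ℚ (N9ann R) ≤ k := by
        have := Submodule.finrank_le (N9ann R)
        rwa [Module.finrank_fin_fun] at this
      set r := Module.finrank ℚ (N9ann R) with hr
      set r' := Module.finrank ℚ (N9ann (insert c R)) with hr'
      -- the fibres of `x ↦ c·x`
      let f : (Fin k → ℕ) → ℤ := fun x => ∑ i, c i * (x i : ℤ)
      let t : Finset ℤ := Finset.Icc (-((J : ℤ) * N)) (J * N)
      have hmaps : ∀ x ∈ S, f x ∈ t := by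
        intro x hx
        have := N9_abs_le J N c hc0 hc1 x (hS hx)
        rw [abs_le] at this
        exact Finset.mem_Icc.2 this
      have hJN : (0 : ℤ) ≤ (J : ℤ) * N := by positivity
      have htne : t.Nonempty := ⟨0, Finset.mem_Icc.2 ⟨by linarith, hJN⟩⟩
      have htcard : t.card = 2 * J * N + 1 := by
        have : (t.card : ℤ) = 2 * J * N + 1 := by
          rw [Int.card_Icc_of_le]
          · ring
          · linarith
        exact_mod_cast this
      obtain ⟨v, hv, hmax⟩ := Finset.exists_max_image t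
        (fun v => (S.filter fun x => f x = v).card) htne
      set S' := S.filter fun x => f x = v with hS'
      have hle1 : S.card ≤ S'.card * (2 * J * N + 1) := by
        rw [← htcard]
        exact Finset.card_le_mul_card_image_of_maps_to hmaps S'.card hmax
      refine ⟨S', (Finset.filter_subset _ _).trans hS, ?_, ?_⟩
      · intro x hx y hy
        rw [hS', Finset.mem_filter] at hx hy
        rw [N9_mem_ann]
        intro c' hc'
        rw [Finset.mem_insert] at hc'
        rcases hc' with rfl | hc'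
        · have h1 : (∑ i, c' i * (x i : ℤ)) = ∑ i, c' i * (y i : ℤ) := hx.2.trans hy.2.symm
          have h2 : (∑ i, (c' i : ℚ) * (x i : ℚ)) = ∑ i, (c' i : ℚ) * (y i : ℚ) := by
            exact_mod_cast congrArg (Int.cast : ℤ → ℚ) h1
          simp only [Pi.sub_apply, N9q, mul_sub, Finset.sum_sub_distrib]
          rw [h2, sub_self]
        · exact hd x hx.1 y hy.1 c' hc'
      · have h1 : (N + 1) ^ (r' + 1) ≤ (N + 1) ^ r := Nat.pow_le_pow_right (Nat.succ_pos N) hfr
        have h2 : (2 * J) ^ (k - r + 1) ≤ (2 * J) ^ (k - r') :=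
          Nat.pow_le_pow_right (by omega) (by omega)
        have h3 : 2 * J * N + 1 ≤ 2 * J * (N + 1) := by
          rw [mul_add]
          omega
        have h4 : (N + 1) ^ r' * (N + 1) ≤ (S'.card * (2 * J) ^ (k - r')) * (N + 1) := by
          calc (N + 1) ^ r' * (N + 1) = (N + 1) ^ (r' + 1) := (pow_succ _ _).symm
            _ ≤ (N + 1) ^ r := h1
            _ ≤ S.card * (2 * J) ^ (k - r) := hcard
            _ ≤ (S'.card * (2 * J * (N + 1))) * (2 * J) ^ (k - r) := by
                refine Nat.mul_le_mul_right _ (hle1.trans ?_)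
                exact Nat.mul_le_mul_left _ h3
            _ = (S'.card * (2 * J) ^ (k - r + 1)) * (N + 1) := by
                rw [pow_succ]
                ring
            _ ≤ (S'.card * (2 * J) ^ (k - r')) * (N + 1) := by
                refine Nat.mul_le_mul_right _ ?_
                exact Nat.mul_le_mul_left _ h2
        exact Nat.le_of_mul_le_mul_right h4 (Nat.succ_pos N)

theorem small_model {k : ℕ} (hk : 2 ≤ k) (n : Fin k → ℕ) (hn : Function.Injective n) (J : ℕ)
    (hJ : 1 ≤ J) : ∃ m : Fin k → ℕ, Function.Injective m ∧ SameRel J n m ∧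
      ∀ i, m i ≤ 2 * (4 * J + 1) ^ (2 * k) := by
  classical
  set N := (4 * J + 1) ^ (2 * k) with hN
  -- the short vectors
  let Q : Finset (Fin k → ℤ) :=
    (Fintype.piFinset fun _ => Finset.Icc (-(2 * (J : ℤ))) (2 * J)).filter fun c =>
      ∑ i, c i = 0 ∧ ∑ i, |c i| ≤ 2 * (J : ℤ)
  have hQ : ∀ c : Fin k → ℤ, ∑ i, c i = 0 → ∑ i, |c i| ≤ 2 * (J : ℤ) → c ∈ Q := by
    intro c h0 h1
    refine Finset.mem_filter.2 ⟨Fintype.mem_piFinset.2 fun i => Finset.mem_Icc.2 ?_, h0, h1⟩
    have : |c i| ≤ ∑ i, |c i| :=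
      Finset.single_le_sum (f := fun i => |c i|) (fun j _ => abs_nonneg _) (Finset.mem_univ i)
    exact abs_le.1 (this.trans h1)
  have hQcard : Q.card ≤ (4 * J + 1) ^ k := by
    refine (Finset.card_filter_le _ _).trans ?_
    rw [Fintype.card_piFinset]
    have : (Finset.Icc (-(2 * (J : ℤ))) (2 * J)).card = 4 * J + 1 := by
      have h : ((Finset.Icc (-(2 * (J : ℤ))) (2 * J)).card : ℤ) = 4 * J + 1 := by
        rw [Int.card_Icc_of_le]
        · ring
        · have : (0 : ℤ) ≤ J := by positivity
          linarith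
      exact_mod_cast h
    simp [this]
  let R := Q.filter fun c => ∑ i, c i * (n i : ℤ) = 0
  let B := Q.filter fun c => ∑ i, c i * (n i : ℤ) ≠ 0
  have hBcard : B.card ≤ (4 * J + 1) ^ k := (Finset.card_filter_le _ _).trans hQcard
  obtain ⟨S, hS, hd, hcard⟩ := N9_fiber (k := k) J N hJ R fun c hc =>
    (Finset.mem_filter.1 (Finset.mem_filter.1 hc).1).2
  have hnR : N9q n ∈ N9ann R := by
    rw [N9_mem_ann]
    intro c hc
    have := (Finset.mem_filter.1 hc).2
    simp only [N9q]
    exact_mod_cast congrArg (Int.cast : ℤ → ℚ) this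
  set r := Module.finrank ℚ (N9ann R) with hr
  have hSne : S.Nonempty := by
    rw [Finset.nonempty_iff_ne_empty]
    rintro rfl
    rw [Finset.card_empty, zero_mul] at hcard
    have : 0 < (N + 1) ^ r := pow_pos (Nat.succ_pos N) _
    omega
  obtain ⟨x₀, hx₀⟩ := hSne
  obtain ⟨x, hxS, hxB⟩ : ∃ x ∈ S, ∀ c ∈ B, ∑ i, c i * (x i : ℤ) ≠ ∑ i, c i * (x₀ i : ℤ) := by
    by_contra hcon
    push Not at hcon
    have hsub : S ⊆ B.biUnion fun c =>
        S.filter fun x => ∑ i, c i * (x i : ℤ) = ∑ i, c i * (x₀ i : ℤ) := by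
      intro x hx
      obtain ⟨c, hc, hcx⟩ := hcon x hx
      exact Finset.mem_biUnion.2 ⟨c, hc, Finset.mem_filter.2 ⟨hx, hcx⟩⟩
    have hfr : ∀ c ∈ B, Module.finrank ℚ (N9ann (insert c R)) < r := by
      intro c hc
      have hle : N9ann (insert c R) ≤ N9ann R := by
        intro x hx
        rw [N9_mem_ann] at hx ⊢
        exact fun c' hc' => hx c' (Finset.mem_insert_of_mem hc')
      have hlt : N9ann (insert c R) < N9ann R := by
        refine lt_of_le_of_ne hle fun hEq => ?_
        have h1 : N9q n ∈ N9ann (insert c R) := by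
          rw [hEq]
          exact hnR
        have h2 := h1 c (Finset.mem_insert_self _ _)
        simp only [N9q] at h2
        exact (Finset.mem_filter.1 hc).2 (by exact_mod_cast h2)
      exact Submodule.finrank_lt_finrank_of_lt hlt
    obtain ⟨c₀, hc₀, -⟩ := hcon x₀ hx₀
    have hr1 : 1 ≤ r := by
      have := hfr c₀ hc₀
      omega
    have hfib : ∀ c ∈ B, (S.filter fun x =>
        ∑ i, c i * (x i : ℤ) = ∑ i, c i * (x₀ i : ℤ)).card ≤ (N + 1) ^ (r - 1) := by
      intro c hc
      refine N9_card_le N (r - 1) (N9ann (insert c R)) ?_ _ ((Finset.filter_subset _ _).trans hS) ?_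
      · have := hfr c hc
        omega
      · intro x hx y hy
        rw [Finset.mem_filter] at hx hy
        rw [N9_mem_ann]
        intro c' hc'
        rw [Finset.mem_insert] at hc'
        rcases hc' with rfl | hc'
        · have h1 : (∑ i, c' i * (x i : ℤ)) = ∑ i, c' i * (y i : ℤ) := hx.2.trans hy.2.symm
          have h2 : (∑ i, (c' i : ℚ) * (x i : ℚ)) = ∑ i, (c' i : ℚ) * (y i : ℚ) := by
            exact_mod_cast congrArg (Int.cast : ℤ → ℚ) h1
          simp only [Pi.sub_apply, N9q, mul_sub, Finset.sum_sub_distrib]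
          rw [h2, sub_self]
        · exact hd x hx.1 y hy.1 c' hc'
    have h1 : S.card ≤ B.card * (N + 1) ^ (r - 1) :=
      (Finset.card_le_card hsub).trans (Finset.card_biUnion_le_card_mul _ _ _ hfib)
    have h2 : (2 * J) ^ (k - r) ≤ (4 * J + 1) ^ k := by
      calc (2 * J) ^ (k - r) ≤ (4 * J + 1) ^ (k - r) := Nat.pow_le_pow_left (by omega) _
        _ ≤ (4 * J + 1) ^ k := Nat.pow_le_pow_right (by omega) (Nat.sub_le _ _)
    have h3 : (N + 1) * (N + 1) ^ (r - 1) ≤ N * (N + 1) ^ (r - 1) := by
      calc (N + 1) * (N + 1) ^ (r - 1) = (N + 1) ^ r := by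
            rw [← pow_succ', Nat.sub_add_cancel hr1]
        _ ≤ S.card * (2 * J) ^ (k - r) := hcard
        _ ≤ (B.card * (N + 1) ^ (r - 1)) * (2 * J) ^ (k - r) := Nat.mul_le_mul_right _ h1
        _ ≤ ((4 * J + 1) ^ k * (N + 1) ^ (r - 1)) * (4 * J + 1) ^ k := by
            refine Nat.mul_le_mul ?_ h2
            exact Nat.mul_le_mul_right _ hBcard
        _ = N * (N + 1) ^ (r - 1) := by
            rw [hN, two_mul, pow_add]
            ring
    have h4 := Nat.le_of_mul_le_mul_right h3 (pow_pos (Nat.succ_pos N) _)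
    omega
  -- the model
  have hbox : ∀ y ∈ S, ∀ i, y i ≤ N := by
    intro y hy i
    have := hS hy
    rw [N9box, Fintype.mem_piFinset] at this
    have := Finset.mem_range.1 (this i)
    omega
  let m : Fin k → ℕ := fun i => x i + N - x₀ i
  have hm : ∀ i, (m i : ℤ) = x i + N - x₀ i := by
    intro i
    have := hbox x₀ hx₀ i
    simp only [m]
    omega
  have hmc : ∀ c : Fin k → ℤ, ∑ i, c i = 0 →
      ∑ i, c i * (m i : ℤ) = ∑ i, c i * (x i : ℤ) - ∑ i, c i * (x₀ i : ℤ) := by
    intro c h0
    have : ∑ i, c i * (m i : ℤ) =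
        ∑ i, c i * (x i : ℤ) - ∑ i, c i * (x₀ i : ℤ) + (∑ i, c i) * N := by
      rw [Finset.sum_mul, ← Finset.sum_sub_distrib, ← Finset.sum_add_distrib]
      refine Finset.sum_congr rfl fun i _ => ?_
      rw [hm]
      ring
    rw [this, h0]
    ring
  have hrel : SameRel J n m := by
    intro c h0 h1
    rw [hmc c h0]
    constructor
    · intro h2
      have hcR : c ∈ R := Finset.mem_filter.2 ⟨hQ c h0 h1, h2⟩
      have h3 := hd x hxS x₀ hx₀ c hcR
      simp only [Pi.sub_apply, N9q, mul_sub, Finset.sum_sub_distrib] at h3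
      exact_mod_cast h3
    · intro h2
      by_contra h3
      have hcB : c ∈ B := Finset.mem_filter.2 ⟨hQ c h0 h1, h3⟩
      exact hxB c hcB (sub_eq_zero.1 h2)
  refine ⟨m, ?_, hrel, ?_⟩
  · intro i j hij
    by_contra hne
    have hnij : n i ≠ n j := fun h => hne (hn h)
    let c : Fin k → ℤ := Pi.single i 1 - Pi.single j 1
    have hs : ∀ g : Fin k → ℤ, ∑ l, c l * g l = g i - g j := by
      intro g
      simp only [c, Pi.sub_apply, sub_mul, Finset.sum_sub_distrib, Pi.single_apply, ite_mul,
        one_mul, zero_mul, Finset.sum_ite_eq', Finset.mem_univ, if_true]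
    have h0 : ∑ l, c l = 0 := by
      have := hs fun _ => 1
      simpa using this
    have h1 : ∑ l, |c l| ≤ 2 * (J : ℤ) := by
      have : ∑ l, |c l| ≤ ∑ l, (|(Pi.single i (1 : ℤ) : Fin k → ℤ) l| +
          |(Pi.single j (1 : ℤ) : Fin k → ℤ) l|) := by
        refine Finset.sum_le_sum fun l _ => ?_
        exact abs_sub _ _
      rw [Finset.sum_add_distrib] at this
      have h2 : ∀ a : Fin k, ∑ l, |(Pi.single a (1 : ℤ) : Fin k → ℤ) l| = 1 := by
        intro a
        rw [Finset.sum_eq_single a]
        · simp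
        · intro b _ hb
          simp [hb]
        · simp
      rw [h2, h2] at this
      have hJ' : (1 : ℤ) ≤ J := by exact_mod_cast hJ
      linarith
    have h2 := (hrel c h0 h1).2
    rw [hs, hs] at h2
    have h3 := h2 (by rw [hij, sub_self])
    exact hnij (by exact_mod_cast sub_eq_zero.1 h3)
  · intro i
    have h1 := hbox x hxS i
    simp only [m]
    omega

end H25.LKP
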