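import Pool.Agent.H25.LKP.N7
import Pool.Agent.H25.LKP.N9
import Pool.Agent.H25.LKP.N10
import Pool.Agent.H91.LK.F5

/-!
# N11: `log M(f) ≥ c / k^3`

BOOTSTRAP. `lm f ≥ δ = 10^(-36) (k log k)^(-6)` (`main6_explicit`), `lm f < log 2` without loss, `ε = δ/2`. `L = 2 k exp (2t (1 + log (1 + 26 t)))` (`coeff_bound`),
`ρ = (ε/(16 k t (1 + 26 t)))^(2t)/(6 L)`, `T = 16 k log (2/ρ)/ε`, `J = ⌈k² T⌉`: `4 k Err ≤ ε`. `small_model` gives `m` with `SameRel J n m`, `compareP`: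
`|lm (sp a m) - lm f| ≤ ε ≤ lm f/2`, so `0 < lm (sp a m) ≤ (3/2) lm f`, and `log (deg (sp a m)) ≤ C k log k`, so `dobrowolski_full` with `D = exp (C k log k)`:
`lm (sp a m) ≥ c (log k/(k log k))^3`.
-/

set_option autoImplicit false

namespace H25.LKP

open Polynomial H91.LK Pool.Agent.H61.Sparse

/-- the first error term -/
theorem N11_GG (t : ℕ) (ht : 0 < t) (ε k : ℝ) (hε : 0 < ε) (hk : 0 < k) :
    GG t ((ε / (16 * k * t * (1 + 26 * t))) ^ (2 * t)) = ε / (8 * k) := by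
  have ht0 : (0 : ℝ) < t := by exact_mod_cast ht
  unfold GG
  have h1 : (1 : ℝ) / (2 * (t : ℝ)) = (((2 * t : ℕ)) : ℝ)⁻¹ := by
    push_cast
    rw [one_div]
  rw [h1, Real.pow_rpow_inv_natCast (by positivity) (by omega)]
  field_simp
  ring

/-- the size of the first parameter -/
theorem N11_eta (t : ℕ) (ε u : ℝ) (hε : 0 < ε) (hu : 4 ≤ u) (hk : 2 * ((t : ℝ) + 1) ≤ u)
    (hu' : u = ((t : ℝ) + 1) / ε) :
    ((16 * ((t : ℝ) + 1) * t * (1 + 26 * t)) / ε) ^ (2 * t) ≤ u ^ (14 * t) := by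
  have ht0 : (0 : ℝ) ≤ t := Nat.cast_nonneg t
  have h1 : (16 * ((t : ℝ) + 1) * t * (1 + 26 * t)) / ε ≤ u ^ 7 := by
    have h2 : (16 * ((t : ℝ) + 1) * t * (1 + 26 * t)) / ε = 16 * t * (1 + 26 * t) * u := by
      rw [hu']
      ring
    have h3 : 16 * (t : ℝ) * (1 + 26 * t) ≤ 104 * u ^ 2 := by nlinarith
    have h4 : (104 : ℝ) ≤ u ^ 4 := by
      have := pow_le_pow_left₀ (by norm_num : (0 : ℝ) ≤ 4) hu 4
      norm_num at this
      linarith
    rw [h2]
    calc 16 * (t : ℝ) * (1 + 26 * t) * u ≤ 104 * u ^ 2 * u :=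
          mul_le_mul_of_nonneg_right h3 (by linarith)
      _ ≤ u ^ 4 * u ^ 2 * u :=
          mul_le_mul_of_nonneg_right (mul_le_mul_of_nonneg_right h4 (by positivity)) (by linarith)
      _ = u ^ 7 := by ring
  calc _ ≤ (u ^ 7) ^ (2 * t) := pow_le_pow_left₀ (by positivity) h1 _
    _ = u ^ (14 * t) := by rw [← pow_mul]; congr 1; ring

/-- the error is at most `ε` -/
theorem N11_err (t : ℕ) (ht : 0 < t) (ε k L R ρ T : ℝ) (hε : 0 < ε) (hk : 0 < k) (hL : 0 < L)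
    (hR : R = (ε / (16 * k * t * (1 + 26 * t))) ^ (2 * t)) (hρ : ρ = R / (6 * L)) (hρ0 : 0 < ρ)
    (hρ1 : ρ ≤ 1) (hT : T = 16 * k * Real.log (2 / ρ) / ε) : 4 * k * Err t L ρ T ≤ ε := by
  have h1 : 6 * ρ * L = R := by
    rw [hρ]
    field_simp
  have h2 : GG t (6 * ρ * L) = ε / (8 * k) := by
    rw [h1, hR]
    exact N11_GG t ht ε k hε hk
  have hl0 : 0 < Real.log (2 / ρ) := by
    apply Real.log_pos
    rw [lt_div_iff₀ hρ0]
    linarith
  have h3 : Real.log ((1 + ρ) / ρ) ≤ Real.log (2 / ρ) := by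
    apply Real.log_le_log (by positivity)
    apply div_le_div_of_nonneg_right _ hρ0.le
    linarith
  have hT0 : 0 < T := by
    rw [hT]
    positivity
  unfold Err
  rw [h2]
  have h4 : 2 / T * Real.log ((1 + ρ) / ρ) ≤ 2 / T * Real.log (2 / ρ) :=
    mul_le_mul_of_nonneg_left h3 (by positivity)
  have h5 : 2 / T * Real.log (2 / ρ) = ε / (8 * k) := by
    rw [hT]
    field_simp
    norm_num
  have h6 : ε / (8 * k) + 2 / T * Real.log ((1 + ρ) / ρ) ≤ ε / (4 * k) := by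
    have h7 : ε / (4 * k) = ε / (8 * k) + ε / (8 * k) := by
      field_simp
      norm_num
    rw [h7]
    linarith
  calc 4 * k * (ε / (8 * k) + 2 / T * Real.log ((1 + ρ) / ρ)) ≤ 4 * k * (ε / (4 * k)) :=
        mul_le_mul_of_nonneg_left h6 (by positivity)
    _ = ε := by field_simp

/-- the size of the degree -/
theorem N11_deg (k u T : ℝ) (J K : ℕ) (hk : 2 ≤ k) (hu : 4 ≤ u) (hlu : 1 ≤ Real.log u)
    (hT0 : 0 ≤ T) (hT : T ≤ 352 * k * u * Real.log u) (hJ : J = ⌈k ^ 2 * T⌉₊) :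
    2 * (4 * (J : ℝ) + 1) ^ (2 * K) ≤ 2 * (1409 * k ^ 3 * u * Real.log u) ^ (2 * K) := by
  have h1 : (J : ℝ) ≤ k ^ 2 * T + 1 := by
    rw [hJ]
    exact (Nat.ceil_lt_add_one (by positivity)).le
  have h2 : k ^ 2 * T ≤ 352 * (k ^ 3 * u * Real.log u) := by
    calc k ^ 2 * T ≤ k ^ 2 * (352 * k * u * Real.log u) :=
          mul_le_mul_of_nonneg_left hT (by positivity)
      _ = 352 * (k ^ 3 * u * Real.log u) := by ring
  have h3 : 8 ≤ k ^ 3 := by
    have := pow_le_pow_left₀ (by norm_num : (0 : ℝ) ≤ 2) hk 3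
    norm_num at this
    exact this
  have h4 : 32 ≤ k ^ 3 * u * Real.log u := by
    calc (32 : ℝ) = 8 * 4 * 1 := by norm_num
      _ ≤ k ^ 3 * u * Real.log u :=
          mul_le_mul (mul_le_mul h3 hu (by norm_num) (by positivity)) hlu (by norm_num)
            (by positivity)
  have h6 : 4 * (J : ℝ) + 1 ≤ 1409 * k ^ 3 * u * Real.log u := by
    have h7 : 1409 * k ^ 3 * u * Real.log u = 1409 * (k ^ 3 * u * Real.log u) := by ring
    rw [h7]
    linarith
  exact mul_le_mul_of_nonneg_left (pow_le_pow_left₀ (by positivity) h6 _) (by norm_num)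

/-- the small model of a sparse polynomial -/
theorem N11_model (t : ℕ) (ht : 0 < t) (a : Fin (t + 1) → ℤ) (ha : ∀ i, a i ≠ 0)
    (n : Fin (t + 1) → ℕ) (hn : Function.Injective n) (h2 : lm (sp a n) < Real.log 2)
    (ε : ℝ) (hε : 0 < ε) (hε2 : ε ≤ 1 / 2) :
    ∃ m : Fin (t + 1) → ℕ, Function.Injective m ∧ |lm (sp a m) - lm (sp a n)| ≤ ε ∧
      ((sp a m).natDegree : ℝ) ≤ 2 * (1409 * ((t : ℝ) + 1) ^ 3 * (((t : ℝ) + 1) / ε) *
        Real.log (((t : ℝ) + 1) / ε)) ^ (2 * (t + 1)) := by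
  have ht0 : (1 : ℝ) ≤ t := by exact_mod_cast ht
  have hcast : ((t + 1 : ℕ) : ℝ) = (t : ℝ) + 1 := by push_cast; ring
  obtain ⟨u, hu'⟩ : ∃ u : ℝ, u = ((t : ℝ) + 1) / ε := ⟨_, rfl⟩
  rw [← hu']
  have hk : 2 * ((t : ℝ) + 1) ≤ u := by
    rw [hu', le_div_iff₀ hε]
    nlinarith
  have hu : 4 ≤ u := by linarith
  have hu0 : 0 < u := by linarith
  obtain ⟨L, hL⟩ : ∃ L : ℝ, L = 2 * ((t : ℝ) + 1) * Real.exp (2 * t * (1 + Real.log (1 + 26 * t))) :=
    ⟨_, rfl⟩
  obtain ⟨R, hR⟩ : ∃ R : ℝ, R = (ε / (16 * ((t : ℝ) + 1) * t * (1 + 26 * t))) ^ (2 * t) :=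
    ⟨_, rfl⟩
  obtain ⟨ρ, hρ⟩ : ∃ ρ : ℝ, ρ = R / (6 * L) := ⟨_, rfl⟩
  obtain ⟨T, hT⟩ : ∃ T : ℝ, T = 16 * ((t : ℝ) + 1) * Real.log (2 / ρ) / ε := ⟨_, rfl⟩
  obtain ⟨J, hJ⟩ : ∃ J : ℕ, J = ⌈((t : ℝ) + 1) ^ 2 * T⌉₊ := ⟨_, rfl⟩
  have hL1 : 1 ≤ L := by
    rw [hL]
    have h3 : (1 : ℝ) ≤ Real.exp (2 * t * (1 + Real.log (1 + 26 * t))) := by
      apply Real.one_le_exp
      have : 0 ≤ Real.log (1 + 26 * t) := Real.log_nonneg (by linarith)
      positivity
    nlinarith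
  have hw0 : 0 < ε / (16 * ((t : ℝ) + 1) * t * (1 + 26 * t)) := by positivity
  have hw1 : ε / (16 * ((t : ℝ) + 1) * t * (1 + 26 * t)) ≤ 1 := by
    rw [div_le_one (by positivity)]
    have h3 : (1 : ℝ) ≤ 16 * ((t : ℝ) + 1) * t * (1 + 26 * t) := by
      have h4 : (1 : ℝ) ≤ 16 * ((t : ℝ) + 1) := by linarith
      have h5 : (1 : ℝ) ≤ 1 + 26 * t := by linarith
      exact one_le_mul_of_one_le_of_one_le (one_le_mul_of_one_le_of_one_le h4 ht0) h5
    linarith
  have hR0 : 0 < R := by rw [hR]; positivity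
  have hR1 : R ≤ 1 := by rw [hR]; exact pow_le_one₀ hw0.le hw1
  have hρ0 : 0 < ρ := by
    rw [hρ]
    have : 0 < L := by linarith
    positivity
  have hρ4 : ρ ≤ 1 / 4 := by
    rw [hρ, div_le_iff₀ (by linarith)]
    linarith
  have hsum : ∑ i, |(a i : ℝ)| ≤ L := by
    have hsupp := F1_support a ha n hn
    have hcard : (sp a n).support.card ≤ t + 1 := by
      rw [hsupp]
      exact Finset.card_image_le.trans (by simp)
    have h3 : ∀ i, |(a i : ℝ)| ≤ 2 * Real.exp (2 * t * (1 + Real.log (1 + 26 * t))) := by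
      intro i
      have h4 := coeff_bound t ht (sp a n) hcard (n i)
      rw [F1_coeff a n hn i, Real.exp_add] at h4
      refine h4.trans (mul_le_mul_of_nonneg_right ?_ (Real.exp_pos _).le)
      rw [← Real.exp_log (by norm_num : (0 : ℝ) < 2)]
      exact Real.exp_le_exp.2 h2.le
    refine (Finset.sum_le_sum fun i _ => h3 i).trans ?_
    rw [Finset.sum_const, Finset.card_univ, Fintype.card_fin, nsmul_eq_mul, hL, hcast]
    linarith
  -- the size of `2/ρ`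
  have hρinv : 2 / ρ ≤ u ^ (22 * (t + 1)) := by
    have h3 : 2 / ρ = 12 * (L * R⁻¹) := by
      rw [hρ]
      field_simp
      norm_num
    have h4 : R⁻¹ ≤ u ^ (14 * t) := by
      rw [hR, ← inv_pow, inv_div]
      exact N11_eta t ε u hε hu hk hu'
    have h5 : L ≤ u ^ (8 * (t + 1)) := by
      rw [hL]
      exact F2_L t u hu hk
    have h6 : (12 : ℝ) ≤ u ^ 14 := by
      have := pow_le_pow_left₀ (by norm_num : (0 : ℝ) ≤ 4) hu 14
      norm_num at this
      linarith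
    rw [h3]
    calc 12 * (L * R⁻¹) ≤ u ^ 14 * (u ^ (8 * (t + 1)) * u ^ (14 * t)) := by
          apply mul_le_mul h6 _ (by positivity) (by positivity)
          exact mul_le_mul h5 h4 (by positivity) (by positivity)
      _ = u ^ (22 * (t + 1)) := by
          rw [← pow_add, ← pow_add]
          congr 1
          ring
  have h8ρ : 8 ≤ 2 / ρ := by
    rw [le_div_iff₀ hρ0]
    linarith
  have hlogρ : 1 ≤ Real.log (2 / ρ) := by
    rw [Real.le_log_iff_exp_le (by positivity)]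
    have := Real.exp_one_lt_d9
    linarith
  have hlogρ2 : Real.log (2 / ρ) ≤ 22 * ((t : ℝ) + 1) * Real.log u := by
    have := Real.log_le_log (by positivity) hρinv
    rw [Real.log_pow] at this
    push_cast at this
    linarith
  have hTu : T = 16 * u * Real.log (2 / ρ) := by
    rw [hT, hu']
    ring
  have hlogu : 1 ≤ Real.log u := by
    rw [Real.le_log_iff_exp_le hu0]
    have := Real.exp_one_lt_d9
    linarith
  have hT1 : 1 ≤ T := by
    rw [hTu]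
    nlinarith
  have hT2 : T ≤ 352 * ((t : ℝ) + 1) * u * Real.log u := by
    rw [hTu]
    calc 16 * u * Real.log (2 / ρ) ≤ 16 * u * (22 * ((t : ℝ) + 1) * Real.log u) :=
          mul_le_mul_of_nonneg_left hlogρ2 (by positivity)
      _ = 352 * ((t : ℝ) + 1) * u * Real.log u := by ring
  have hJge : ((t : ℝ) + 1) ^ 2 * T ≤ J := by
    rw [hJ]
    exact Nat.le_ceil _
  have hJ1 : 1 ≤ J := by
    have h3 : (1 : ℝ) ≤ ((t : ℝ) + 1) ^ 2 * T :=
      one_le_mul_of_one_le_of_one_le (one_le_pow₀ (by linarith)) hT1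
    exact_mod_cast h3.trans hJge
  obtain ⟨m, hmi, hmJ, hmdeg⟩ := small_model (by omega) n hn J hJ1
  refine ⟨m, hmi, ?_, ?_⟩
  · have h3 := compareP t ht le_rfl (by omega) a ha n m hn hmi J hmJ L T ρ hsum hT1
      (by rw [hcast]; exact hJge) hρ0 hρ4
    rw [hcast] at h3
    exact h3.trans (N11_err t ht ε ((t : ℝ) + 1) L R ρ T hε (by linarith) (by linarith) hR hρ hρ0
      (by linarith) hT)
  · have h3 : (sp a m).natDegree ≤ 2 * (4 * J + 1) ^ (2 * (t + 1)) := by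
      unfold sp
      apply natDegree_sum_le_of_forall_le
      intro i _
      exact (natDegree_monomial_le _).trans (hmdeg i)
    have h4 : ((sp a m).natDegree : ℝ) ≤ 2 * (4 * (J : ℝ) + 1) ^ (2 * (t + 1)) := by
      exact_mod_cast h3
    exact h4.trans (N11_deg ((t : ℝ) + 1) u T J (t + 1) (by linarith) hu hlogu (by linarith) hT2
      hJ)

theorem N11_exp (x : ℝ) (n : ℕ) (hx : 0 < x) (h : x ≤ 2.7 ^ n) : Real.log x ≤ n := by
  rw [Real.log_le_iff_le_exp hx]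
  have h1 : Real.exp n = Real.exp 1 ^ n := by
    rw [← Real.exp_nat_mul]
    norm_num
  have h2 := Real.exp_one_gt_d9
  have h3 : (2.7 : ℝ) ^ n ≤ Real.exp 1 ^ n := pow_le_pow_left₀ (by norm_num) (by linarith) n
  rw [h1]
  exact h.trans h3

/-- the logarithm of `u` -/
theorem N11_logu (k : ℝ) (hk : 2 ≤ k) :
    Real.log (k / (1 / 10 ^ 36 / (k * Real.log k) ^ 6 / 2)) ≤ 77.86 + 13 * Real.log k := by
  have hK0 : 0 < k := by linarith
  have hlog2 := Real.log_two_gt_d9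
  have hlog2' := Real.log_two_lt_d9
  have hLk : Real.log 2 ≤ Real.log k := Real.log_le_log (by norm_num) hk
  have hLk0 : 0 < Real.log k := by linarith
  have hl1 : Real.log 10 ≤ 2.31 := by
    rw [Real.log_le_iff_le_exp (by norm_num)]
    have h1 : Real.exp 2.31 = Real.exp 1 ^ 2 * Real.exp 0.31 := by
      rw [← Real.exp_nat_mul, ← Real.exp_add]
      norm_num
    have h2 : (1 : ℝ) + 0.31 + 0.31 ^ 2 / 2 ≤ Real.exp 0.31 :=
      Real.quadratic_le_exp_of_nonneg (by norm_num)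
    have h3 := Real.exp_one_gt_d9
    have h4 : (2.7182818283 : ℝ) ^ 2 ≤ Real.exp 1 ^ 2 := by
      gcongr
    rw [h1]
    calc (10 : ℝ) ≤ 2.7182818283 ^ 2 * (1 + 0.31 + 0.31 ^ 2 / 2) := by norm_num
      _ ≤ Real.exp 1 ^ 2 * Real.exp 0.31 := mul_le_mul h4 h2 (by norm_num) (by positivity)
  have h5 : k / (1 / 10 ^ 36 / (k * Real.log k) ^ 6 / 2) =
      2 * k * 10 ^ 36 * (k * Real.log k) ^ 6 := by
    field_simp
  have h6 : Real.log (2 * k * 10 ^ 36 * (k * Real.log k) ^ 6) =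
      Real.log 2 + Real.log k + 36 * Real.log 10 + 6 * (Real.log k + Real.log (Real.log k)) := by
    rw [Real.log_mul (by positivity) (by positivity), Real.log_mul (by positivity) (by positivity),
      Real.log_mul (by norm_num) hK0.ne', Real.log_pow, Real.log_pow,
      Real.log_mul hK0.ne' hLk0.ne']
    push_cast
    ring
  have h7 := Real.log_le_sub_one_of_pos hLk0
  rw [h5, h6]
  linarith

/-- the logarithm of the bound of the degree -/
theorem N11_logD (k u : ℝ) (K : ℕ) (hKk : (K : ℝ) = k) (hk : 2 ≤ k) (hu : 4 ≤ u)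
    (hlu : 1 ≤ Real.log u) (hlu2 : Real.log u ≤ 77.86 + 13 * Real.log k) :
    k ≤ Real.log (2 * (1409 * k ^ 3 * u * Real.log u) ^ (2 * K)) ∧
      Real.log (2 * (1409 * k ^ 3 * u * Real.log u) ^ (2 * K)) ≤ 300 * k * Real.log k := by
  have hk0 : 0 < k := by linarith
  have hu0 : 0 < u := by linarith
  have hlog2 := Real.log_two_gt_d9
  have hlog2' := Real.log_two_lt_d9
  have hLk : Real.log 2 ≤ Real.log k := Real.log_le_log (by norm_num) hk
  have hLk0 : 0 < Real.log k := by linarith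
  have hl0 : 0 < Real.log u := by linarith
  have h1 : Real.log (2 * (1409 * k ^ 3 * u * Real.log u) ^ (2 * K)) = Real.log 2 +
      2 * k * (Real.log 1409 + 3 * Real.log k + Real.log u + Real.log (Real.log u)) := by
    rw [Real.log_mul (by norm_num) (by positivity), Real.log_pow,
      Real.log_mul (by positivity) hl0.ne', Real.log_mul (by positivity) hu0.ne',
      Real.log_mul (by norm_num) (by positivity), Real.log_pow]
    push_cast
    rw [hKk]
  have h2 : Real.log 1409 ≤ 8 := by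
    have := N11_exp 1409 8 (by norm_num) (by norm_num)
    exact_mod_cast this
  have h3 : Real.log 126 ≤ 5 := by
    have := N11_exp 126 5 (by norm_num) (by norm_num)
    exact_mod_cast this
  have h4 : Real.log u ≤ 126 * Real.log k := by linarith
  have h5 : Real.log (Real.log u) ≤ 5 + (Real.log k - 1) := by
    have h6 := Real.log_le_log hl0 h4
    rw [Real.log_mul (by norm_num) hLk0.ne'] at h6
    have h7 := Real.log_le_sub_one_of_pos hLk0
    linarith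
  have h6 : 0 ≤ Real.log (Real.log u) := Real.log_nonneg hlu
  have h7 : 0 ≤ Real.log 1409 := Real.log_nonneg (by norm_num)
  rw [h1]
  constructor
  · have h8 : 1 ≤ Real.log 1409 + 3 * Real.log k + Real.log u + Real.log (Real.log u) := by
      linarith
    nlinarith
  · have h8 : Real.log 1409 + 3 * Real.log k + Real.log u + Real.log (Real.log u) ≤
        147 * Real.log k := by
      linarith
    have h9 : 2 * k * (Real.log 1409 + 3 * Real.log k + Real.log u + Real.log (Real.log u)) ≤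
        2 * k * (147 * Real.log k) := mul_le_mul_of_nonneg_left h8 (by positivity)
    have h10 : Real.log 2 ≤ k * Real.log k := by nlinarith
    linarith

theorem N11_final (k Λ F G ε : ℝ) (hk : 2 ≤ k) (hΛ1 : k ≤ Λ) (hΛ2 : Λ ≤ 300 * k * Real.log k)
    (hG : 15 / 3000001 ^ 2 * (Real.log Λ / Λ) ^ 3 ≤ G)
    (hFG : G ≤ F + ε) (hε : 2 * ε ≤ F) : 1 / 10 ^ 20 / k ^ 3 ≤ F := by
  have hk0 : 0 < k := by linarith
  have hΛ0 : 0 < Λ := by linarith
  have hℓ : 0 < Real.log k := Real.log_pos (by linarith)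
  have h1 : Real.log k ≤ Real.log Λ := Real.log_le_log hk0 hΛ1
  have h4 : 1 / (300 * k) ≤ Real.log Λ / Λ := by
    calc 1 / (300 * k) = Real.log k / (300 * k * Real.log k) := by field_simp
      _ ≤ Real.log k / Λ := div_le_div_of_nonneg_left hℓ.le hΛ0 hΛ2
      _ ≤ _ := div_le_div_of_nonneg_right h1 hΛ0.le
  have h5 : (1 / (300 * k)) ^ 3 ≤ (Real.log Λ / Λ) ^ 3 := pow_le_pow_left₀ (by positivity) h4 3
  have h6 : 15 / 3000001 ^ 2 * (1 / (300 * k)) ^ 3 ≤ 3 / 2 * F := by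
    have := mul_le_mul_of_nonneg_left h5 (by norm_num : (0 : ℝ) ≤ 15 / 3000001 ^ 2)
    linarith
  have h7 : 15 / 3000001 ^ 2 * (1 / (300 * k)) ^ 3 = 15 / 3000001 ^ 2 / 300 ^ 3 / k ^ 3 := by
    field_simp
  have h8 : 3 / 2 * (1 / 10 ^ 20 / k ^ 3) ≤ 15 / 3000001 ^ 2 / 300 ^ 3 / k ^ 3 := by
    have h9 : 3 / 2 * (1 / 10 ^ 20 / k ^ 3) = 3 / 2 * (1 / 10 ^ 20) / k ^ 3 := by ring
    rw [h9]
    apply div_le_div_of_nonneg_right _ (by positivity)
    norm_num
  linarith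

/-- the theorem with an explicit constant -/
theorem main3_explicit (f : ℤ[X]) (hf : 0 < lm f) (hk2 : 2 ≤ f.support.card) :
    1 / 10 ^ 20 / (f.support.card : ℝ) ^ 3 ≤ lm f := by
  have h6 := main6_explicit f hf hk2
  obtain ⟨k, a, n, ha, hn, hsp, hkdef⟩ := F3a_sp' f
  rw [hkdef] at hk2 h6 ⊢
  obtain ⟨t, rfl⟩ : ∃ t, k = t + 1 := ⟨k - 1, by omega⟩
  have hcast : ((t + 1 : ℕ) : ℝ) = (t : ℝ) + 1 := by push_cast; ring
  have hK : (2 : ℝ) ≤ (t : ℝ) + 1 := by
    rw [← hcast]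
    exact_mod_cast hk2
  rw [hcast] at h6 ⊢
  obtain ⟨K, hKdef⟩ : ∃ K : ℝ, K = (t : ℝ) + 1 := ⟨_, rfl⟩
  have hlog2 := Real.log_two_gt_d9
  have hLk : Real.log 2 ≤ Real.log K := Real.log_le_log (by norm_num) (by rw [hKdef]; exact hK)
  have hLk0 : 0 < Real.log K := by linarith
  have hK2 : 2 ≤ K := by rw [hKdef]; exact hK
  rw [← hsp] at hf h6 ⊢
  rw [← hKdef] at h6 ⊢
  have hK3 : (1 : ℝ) ≤ K ^ 3 := one_le_pow₀ (by linarith)
  by_cases hl2 : Real.log 2 ≤ lm (sp a n)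
  · have : (1 : ℝ) / 10 ^ 20 / K ^ 3 ≤ 1 / 10 ^ 20 := div_le_self (by positivity) hK3
    have h7 : (1 : ℝ) / 10 ^ 20 ≤ 1 / 2 := by norm_num
    linarith
  push Not at hl2
  have hkL : 1 ≤ K * Real.log K := by nlinarith
  obtain ⟨ε, hε⟩ : ∃ ε : ℝ, ε = 1 / 10 ^ 36 / (K * Real.log K) ^ 6 / 2 := ⟨_, rfl⟩
  have hε0 : 0 < ε := by rw [hε]; positivity
  have hε2 : ε ≤ 1 / 2 := by
    have h7 : (1 : ℝ) ≤ (K * Real.log K) ^ 6 := one_le_pow₀ hkL
    have h8 : (1 : ℝ) / 10 ^ 36 / (K * Real.log K) ^ 6 ≤ 1 / 10 ^ 36 :=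
      div_le_self (by positivity) h7
    have h9 : (1 : ℝ) / 10 ^ 36 ≤ 1 := by norm_num
    rw [hε]
    linarith
  have h2ε : 2 * ε ≤ lm (sp a n) := by
    rw [hε]
    linarith
  obtain ⟨m, hmi, habs, hdeg⟩ := N11_model t (by omega) a ha n hn hl2 ε hε0 hε2
  rw [← hKdef] at hdeg
  rw [abs_le] at habs
  have hpos : 0 < lm (sp a m) := by linarith
  have hu4 : 4 ≤ K / ε := by
    rw [le_div_iff₀ hε0]
    linarith
  have hu0 : 0 < K / ε := by linarith
  have hlu : 1 ≤ Real.log (K / ε) := by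
    rw [Real.le_log_iff_exp_le hu0]
    have := Real.exp_one_lt_d9
    linarith
  have hlu2 : Real.log (K / ε) ≤ 77.86 + 13 * Real.log K := by
    rw [hε]
    exact N11_logu K hK2
  have hD : (16 : ℝ) ≤ 2 * (1409 * K ^ 3 * (K / ε) * Real.log (K / ε)) ^ (2 * (t + 1)) := by
    have h7 : 16 ≤ 1409 * K ^ 3 * (K / ε) * Real.log (K / ε) := by
      calc (16 : ℝ) ≤ 1409 * 1 * 4 * 1 := by norm_num
        _ ≤ 1409 * K ^ 3 * (K / ε) * Real.log (K / ε) := by gcongr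
    have h8 : 16 ≤ (1409 * K ^ 3 * (K / ε) * Real.log (K / ε)) ^ (2 * (t + 1)) :=
      h7.trans (le_self_pow₀ (by linarith) (by omega))
    linarith
  have hdob := dobrowolski_full_explicit (sp a m) _ hpos hD hdeg
  obtain ⟨hΛ1, hΛ2⟩ := N11_logD K (K / ε) (t + 1) (by rw [hKdef]; exact hcast) hK2 hu4 hlu hlu2
  exact N11_final K _ (lm (sp a n)) (lm (sp a m)) ε hK2 hΛ1 hΛ2 hdob (by linarith [habs.2]) h2ε

theorem main3 : ∃ c : ℝ, 0 < c ∧ ∀ f : ℤ[X], 0 < lm f → 2 ≤ f.support.card →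
    c / (f.support.card : ℝ) ^ 3 ≤ lm f :=
  ⟨1 / 10 ^ 20, by positivity, fun f hf hk => main3_explicit f hf hk⟩

end H25.LKP
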