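import Pool.Agent.H25.LKP.N13
import Pool.Agent.H95.LK.S8

/-!
# N12: faces of sparse polynomials, relations of size `10^7 k^5`

`face_lmP`: as `H91.LK.face_lm`, with `extremeP`. `facesP_aux`: `param` with `ε = 1/5000`: `2 k Err ≤ 10^(-4)`, `T ≤ 4.1·10^6 k^3`. Then helper95's
`faces_of_bound`, `face_of_bound`, `rank_of_bound`.
-/

set_option autoImplicit false

namespace H25.LKP

open Polynomial H91.LK

theorem face_lmP {k J : ℕ} (t : ℕ) (ht : 0 < t) (hk : t + 1 = k) (a : Fin k → ℤ)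
    (ha : ∀ i, a i ≠ 0) (n : Fin k → ℕ) (hn : Function.Injective n)
    (V : Submodule ℚ (Fin k → ℚ)) (hV : Kills J n V) (L T ρ : ℝ)
    (hL : ∑ i, |(a i : ℝ)| ≤ L) (hT : 1 ≤ T) (hJ : (k : ℝ) ^ 2 * T ≤ J) (hρ : 0 < ρ)
    (hρ4 : ρ ≤ 1 / 4) (w : Fin k → ℚ) (hw : w ∈ V) :
    lm (fp a n (face w)) ≤ lm (sp a n) + 2 * k * Err t L ρ T := by
  obtain ⟨u, D, m, hD, hu, i₀, hi₀⟩ := exists_nat (by omega) w
  obtain ⟨iT, hiT⟩ := face_nonempty (by omega) w
  have hiT' := mem_face.1 hiT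
  have hle : ∀ i, u i ≤ u iT := by
    intro i
    have h1 : (u i : ℚ) ≤ u iT := by
      rw [hu i, hu iT]
      exact mul_le_mul_of_nonneg_left (by linarith [hiT' i]) hD.le
    exact_mod_cast h1
  have hface : (Finset.univ.filter fun i => u i = u iT) = face w := by
    ext i
    rw [Finset.mem_filter, mem_face]
    constructor
    · rintro ⟨-, h1⟩ j
      have h2 : (u i : ℚ) = u iT := by exact_mod_cast h1
      rw [hu i, hu iT] at h2
      have h3 := mul_left_cancel₀ hD.ne' h2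
      linarith [hiT' j]
    · intro h1
      refine ⟨Finset.mem_univ i, ?_⟩
      have h2 : w i = w iT := le_antisymm (hiT' i) (h1 iT)
      have h3 : (u i : ℚ) = u iT := by rw [hu i, hu iT, h2]
      exact_mod_cast h3
  have hrel : ∀ c : Fin k → ℤ, (∀ i, i ∉ (Finset.univ : Finset (Fin k)) → c i = 0) →
      ∑ i, c i = 0 → ∑ i, |c i| ≤ 2 * (J : ℤ) → ∑ i, c i * (n i : ℤ) = 0 →
      ∑ i, c i * (u i : ℤ) = 0 := by
    intro c _ h0 h1 h2
    have h3 := hV c h0 h1 h2 w hw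
    have h4 : (∑ i, (c i : ℚ)) = 0 := by exact_mod_cast h0
    have h5 : ((∑ i, c i * (u i : ℤ) : ℤ) : ℚ) = 0 := by
      push_cast
      calc ∑ i, (c i : ℚ) * (u i : ℚ) = ∑ i, (D * ((c i : ℚ) * w i) - D * m * (c i : ℚ)) :=
            Finset.sum_congr rfl fun i _ => by rw [hu i]; ring
        _ = D * ∑ i, (c i : ℚ) * w i - D * m * ∑ i, (c i : ℚ) := by
            rw [Finset.sum_sub_distrib, ← Finset.mul_sum, ← Finset.mul_sum]
        _ = 0 := by rw [h3, h4]; ring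
    exact_mod_cast h5
  have hcard : (Finset.univ : Finset (Fin k)).card ≤ t + 1 := by
    rw [Finset.card_univ, Fintype.card_fin]
    omega
  have hext := extremeP (J := J) t ht a ha n u hn Finset.univ hcard hrel (u iT)
    (fun i _ => hle i) ⟨iT, Finset.mem_univ _, rfl⟩ ⟨i₀, Finset.mem_univ _, hi₀⟩ L T ρ hL hT hJ
    hρ hρ4
  rw [hface] at hext
  have hsp : fp a n Finset.univ = sp a n := rfl
  rw [hsp] at hext
  refine le_trans ?_ hext
  rw [G5_lm_eq]
  apply Real.circleAverage_mono (G2_int _) (G2_int_max (G2_int _) (G2_int _))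
  intro z _
  exact le_max_left _ _


theorem log5000_le : Real.log 5000 ≤ 8.52 := by
  rw [Real.log_le_iff_le_exp (by norm_num)]
  have h1 : Real.exp 8.52 = Real.exp 1 ^ 8 * Real.exp 0.13 ^ 4 := by
    rw [← Real.exp_nat_mul, ← Real.exp_nat_mul, ← Real.exp_add]
    norm_num
  have h2 : (1 : ℝ) + 0.13 + 0.13 ^ 2 / 2 ≤ Real.exp 0.13 :=
    Real.quadratic_le_exp_of_nonneg (by norm_num)
  have h4 := Real.exp_one_gt_d9
  have h5 : (2.7182818283 : ℝ) ^ 8 ≤ Real.exp 1 ^ 8 := by gcongr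
  have h6 : ((1 : ℝ) + 0.13 + 0.13 ^ 2 / 2) ^ 4 ≤ Real.exp 0.13 ^ 4 := by gcongr
  rw [h1]
  calc (5000 : ℝ) ≤ 2.7182818283 ^ 8 * (1 + 0.13 + 0.13 ^ 2 / 2) ^ 4 := by norm_num
    _ ≤ Real.exp 1 ^ 8 * Real.exp 0.13 ^ 4 := mul_le_mul h5 h6 (by norm_num) (by positivity)

theorem facesP_aux (k : ℕ) (hk : 2 ≤ k) (a : Fin k → ℤ) (ha : ∀ i, a i ≠ 0)
    (n : Fin k → ℕ) (hn : Function.Injective n) (J : ℕ) (hJ : 5 * 10 ^ 6 * k ^ 5 ≤ J)
    (V : Submodule ℚ (Fin k → ℚ)) (hV : Kills J n V)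
    (hM : lm (sp a n) < Real.log (13245 / 10000)) (w : Fin k → ℚ) (hw : w ∈ V) :
    lm (fp a n (face w)) ≤ lm (sp a n) + 1 / 10000 ∧
      lm (sp a n) + 1 / 10000 < Real.log (13247 / 10000) := by
  obtain ⟨t, rfl⟩ : ∃ t, k = t + 1 := ⟨k - 1, by omega⟩
  have ht : 0 < t := by omega
  have ht0 : (1 : ℝ) ≤ t := by exact_mod_cast ht
  have hcast : ((t + 1 : ℕ) : ℝ) = (t : ℝ) + 1 := by push_cast; ring
  obtain ⟨ρ, T, hρ, hρ4, hT, hErr, hTle⟩ := param t ht (1 / 5000) (by norm_num) (by norm_num)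
  have hM2 : lm (sp a n) ≤ Real.log 2 :=
    hM.le.trans (Real.log_le_log (by norm_num) (by norm_num))
  obtain ⟨κ, hκ⟩ : ∃ κ : ℝ, κ = (t : ℝ) + 1 := ⟨_, rfl⟩
  rw [← hκ] at hTle hErr
  have hκ2 : 2 ≤ κ := by linarith
  have hJT : ((t + 1 : ℕ) : ℝ) ^ 2 * T ≤ J := by
    rw [hcast, ← hκ]
    have hJ' : 5 * 10 ^ 6 * κ ^ 5 ≤ (J : ℝ) := by
      rw [hκ, ← hcast]
      exact_mod_cast hJ
    refine le_trans ?_ hJ'
    have hlk : Real.log κ ≤ κ / 2 - 0.3 := by
      have h1 : Real.log κ = Real.log 2 + Real.log (κ / 2) := by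
        rw [← Real.log_mul (by norm_num) (by positivity)]
        congr 1
        ring
      have h2 := Real.log_le_sub_one_of_pos (show 0 < κ / 2 by positivity)
      have h3 := Real.log_two_lt_d9
      rw [h1]
      linarith
    have hlu : Real.log (κ / (1 / 5000)) ≤ 8.22 + κ / 2 := by
      have h1 : κ / (1 / 5000) = 5000 * κ := by ring
      rw [h1, Real.log_mul (by norm_num) (by positivity)]
      have := log5000_le
      linarith
    have h1 : 3.2 + Real.log (κ / (1 / 5000)) + 2 * κ * (10.4 + 4 * Real.log (κ / (1 / 5000))) ≤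
        60 * κ ^ 2 := by
      have h2 : 2 * κ * (10.4 + 4 * Real.log (κ / (1 / 5000))) ≤
          2 * κ * (10.4 + 4 * (8.22 + κ / 2)) :=
        mul_le_mul_of_nonneg_left (by linarith) (by positivity)
      nlinarith
    have h3 : T ≤ 80000 * κ * (60 * κ ^ 2) := by
      refine hTle.trans ?_
      have h4 : 16 * κ / (1 / 5000) = 80000 * κ := by ring
      rw [h4]
      exact mul_le_mul_of_nonneg_left h1 (by positivity)
    calc κ ^ 2 * T ≤ κ ^ 2 * (80000 * κ * (60 * κ ^ 2)) :=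
          mul_le_mul_of_nonneg_left h3 (by positivity)
      _ = 4800000 * κ ^ 5 := by ring
      _ ≤ 5 * 10 ^ 6 * κ ^ 5 := by
          apply mul_le_mul_of_nonneg_right (by norm_num) (by positivity)
  have hface := face_lmP (J := J) t ht rfl a ha n hn V hV (LL t) T ρ (sum_le_LL ht a n hn hM2)
    hT hJT hρ hρ4 w hw
  rw [hcast, ← hκ] at hface
  refine ⟨by linarith, ?_⟩
  have h2 : Real.log (13247 / 10000) = Real.log (13245 / 10000) + Real.log (13247 / 13245) := by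
    rw [← Real.log_mul (by norm_num) (by norm_num)]
    norm_num
  have h4 : 1 - (13247 / 13245 : ℝ)⁻¹ ≤ Real.log (13247 / 13245) :=
    Real.one_sub_inv_le_log_of_pos (by norm_num)
  norm_num at h4
  rw [h2]
  linarith

/-- **Faces**, `M(f) < 1.3245`, relations of size `10^7 k^5`. -/
theorem facesP (f : ℤ[X]) (hk : 2 ≤ f.support.card) (hM : lm f < Real.log (13245 / 10000))
    (J : ℕ) (hJ : 10 ^ 7 * f.support.card ^ 5 ≤ J) (w : ℕ → ℤ) (hw : IsDir f J w) :
    lm (facePoly f w) ≤ lm f + 1 / 10000 ∧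
    ∃ (s : ℕ) (e : ℤ), (e = 1 ∨ e = -1) ∧ ∀ i ∈ (facePoly f w).support,
      i ≤ s ∧ (facePoly f w).coeff (s - i) = e * (facePoly f w).coeff i := by
  have h2J : 2 * (5 * 10 ^ 6 * f.support.card ^ 5) ≤ J := by
    refine le_trans (le_of_eq ?_) hJ
    ring
  have hsp : sp (cf f) (fun i => expo f i) = f := sp_expo f
  have h1 := facesP_aux f.support.card hk (cf f) (cf_ne f) (fun i => expo f i) (expo f).injective
    (5 * 10 ^ 6 * f.support.card ^ 5) le_rfl
    (VV f (5 * 10 ^ 6 * f.support.card ^ 5)) (VV_kills f _) (by rw [hsp]; exact hM)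
    (Pool.Agent.H95.LK.vec f w) (Pool.Agent.H95.LK.vec_mem f h2J w hw)
  rw [hsp, Pool.Agent.H95.LK.fp_face_vec] at h1
  exact ⟨h1.1, Pool.Agent.H95.LK.face_of_bound f (by omega) (1 / 10000) w h1.1 h1.2⟩

/-- **Number of terms and of relations**, `M(f) < 1.3245`, relations of size `10^7 k^5`. -/
theorem rankP (f : ℤ[X]) (hk : 2 ≤ f.support.card) (hM : lm f < Real.log (13245 / 10000))
    (J : ℕ) (hJ : 10 ^ 7 * f.support.card ^ 5 ≤ J) :
    2 ^ (f.support.card - 1 - Module.finrank ℚ (relSpan f J)) ≤ f.support.card := by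
  have h2J : 2 * (5 * 10 ^ 6 * f.support.card ^ 5) ≤ J := by
    refine le_trans (le_of_eq ?_) hJ
    ring
  have hsp : sp (cf f) (fun i => expo f i) = f := sp_expo f
  have hJ2 : 2 ≤ 5 * 10 ^ 6 * f.support.card ^ 5 := by
    have h1 : 1 ≤ f.support.card ^ 5 := Nat.one_le_pow _ _ (by omega)
    omega
  have h1 : ∀ V : Submodule ℚ (Fin f.support.card → ℚ),
      Kills (5 * 10 ^ 6 * f.support.card ^ 5) (fun i => expo f i) V → ∀ w ∈ V,
      lm (fp (cf f) (fun i => expo f i) (face w)) ≤ lm f + 1 / 10000 ∧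
        lm f + 1 / 10000 < Real.log (13247 / 10000) := by
    intro V hV w hw
    have h2 := facesP_aux f.support.card hk (cf f) (cf_ne f) (fun i => expo f i)
      (expo f).injective (5 * 10 ^ 6 * f.support.card ^ 5) le_rfl V hV (by rw [hsp]; exact hM) w hw
    rw [hsp] at h2
    exact h2
  refine Pool.Agent.H95.LK.rank_of_bound f (by omega) J (5 * 10 ^ 6 * f.support.card ^ 5) hJ2
    h2J (1 / 10000) (fun V hV w hw => (h1 V hV w hw).1) ?_
  exact (h1 ⊥ (fun c _ _ _ x hx => by rw [(Submodule.mem_bot ℚ).1 hx]; simp) 0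
    (Submodule.zero_mem _)).2

end H25.LKP
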