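import Pool.Agent.H25.LKP.N7
import Pool.Agent.H25.LKP.N9
import Pool.Agent.H91.LK.G6

/-!
# N13: parameters, and the effective closure theorem

`param`: `L = 2 k exp (2t (1 + log (1 + 26 t)))`, `6 ρ L = (ε/(16 k t (1 + 26 t)))^(2t)`, `T = 16 k log (2/ρ)/ε`, `u = k/ε`:
`log (2/ρ) ≤ 30 k + 9 k log u ≤ 39 k u`, `T ≤ 624 u^3`, `J = ⌈k² T⌉ ≤ 625 u^5 ≤ u^15`.
-/

set_option autoImplicit false

namespace H25.LKP

open Polynomial H91.LK

/-- the bound for the sum of the coefficients -/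
noncomputable def LL (t : ℕ) : ℝ :=
  2 * ((t : ℝ) + 1) * Real.exp (2 * t * (1 + Real.log (1 + 26 * t)))

theorem LL_ge (t : ℕ) : 1 ≤ LL t := by
  unfold LL
  have h0 : (0 : ℝ) ≤ t := Nat.cast_nonneg t
  have h1 : (1 : ℝ) ≤ Real.exp (2 * t * (1 + Real.log (1 + 26 * t))) := by
    apply Real.one_le_exp
    have : 0 ≤ Real.log (1 + 26 * (t : ℝ)) := Real.log_nonneg (by linarith)
    positivity
  nlinarith

theorem sum_le_LL {t : ℕ} (ht : 0 < t) (a : Fin (t + 1) → ℤ) (n : Fin (t + 1) → ℕ)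
    (hn : Function.Injective n) (h : lm (sp a n) ≤ Real.log 2) : ∑ i, |(a i : ℝ)| ≤ LL t := by
  have hi : ∀ i, |(a i : ℝ)| ≤ 2 * Real.exp (2 * t * (1 + Real.log (1 + 26 * t))) := by
    intro i
    have h1 := coeff_bound t ht (sp a n) (G6_card a n) (n i)
    rw [G6_coeff a n hn i] at h1
    have e2 : 2 * Real.exp (2 * t * (1 + Real.log (1 + 26 * t))) =
        Real.exp (Real.log 2 + 2 * t * (1 + Real.log (1 + 26 * t))) := by
      rw [Real.exp_add, Real.exp_log (by norm_num)]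
    rw [e2]
    refine h1.trans (Real.exp_le_exp.2 ?_)
    linarith
  refine (Finset.sum_le_sum fun i _ => hi i).trans ?_
  rw [Finset.sum_const, Finset.card_univ, Fintype.card_fin, nsmul_eq_mul]
  unfold LL
  push_cast
  linarith

theorem log27_le : Real.log 27 ≤ 3.3 := by
  have h : Real.log 27 = 3 * Real.log 3 := by
    rw [show (27 : ℝ) = 3 ^ 3 by norm_num, Real.log_pow]
    norm_num
  rw [h]
  have h3 : Real.log 3 ≤ 1.1 := by
    rw [Real.log_le_iff_le_exp (by norm_num)]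
    have h1 : Real.exp 1.1 = Real.exp 1 * Real.exp 0.1 := by
      rw [← Real.exp_add]
      norm_num
    have h2 : (1 : ℝ) + 0.1 + 0.1 ^ 2 / 2 ≤ Real.exp 0.1 :=
      Real.quadratic_le_exp_of_nonneg (by norm_num)
    have h4 := Real.exp_one_gt_d9
    rw [h1]
    nlinarith
  linarith

theorem log24_le : Real.log 24 ≤ 3.2 := by
  rw [Real.log_le_iff_le_exp (by norm_num)]
  have h1 : Real.exp 3.2 = Real.exp 1 ^ 3 * Real.exp 0.2 := by
    rw [← Real.exp_nat_mul, ← Real.exp_add]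
    norm_num
  have h2 : (1 : ℝ) + 0.2 + 0.2 ^ 2 / 2 ≤ Real.exp 0.2 :=
    Real.quadratic_le_exp_of_nonneg (by norm_num)
  have h4 := Real.exp_one_gt_d9
  have h5 : (2.7182818283 : ℝ) ^ 3 ≤ Real.exp 1 ^ 3 := by gcongr
  rw [h1]
  calc (24 : ℝ) ≤ 2.7182818283 ^ 3 * (1 + 0.2 + 0.2 ^ 2 / 2) := by norm_num
    _ ≤ Real.exp 1 ^ 3 * Real.exp 0.2 := mul_le_mul h5 h2 (by norm_num) (by positivity)

theorem log416_le : Real.log 416 ≤ 6.04 := by
  rw [Real.log_le_iff_le_exp (by norm_num)]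
  have h1 : Real.exp 6.04 = Real.exp 1 ^ 6 * Real.exp 0.04 := by
    rw [← Real.exp_nat_mul, ← Real.exp_add]
    norm_num
  have h2 : (1 : ℝ) + 0.04 + 0.04 ^ 2 / 2 ≤ Real.exp 0.04 :=
    Real.quadratic_le_exp_of_nonneg (by norm_num)
  have h4 := Real.exp_one_gt_d9
  have h5 : (2.7182818283 : ℝ) ^ 6 ≤ Real.exp 1 ^ 6 := by gcongr
  rw [h1]
  calc (416 : ℝ) ≤ 2.7182818283 ^ 6 * (1 + 0.04 + 0.04 ^ 2 / 2) := by norm_num
    _ ≤ Real.exp 1 ^ 6 * Real.exp 0.04 := mul_le_mul h5 h2 (by norm_num) (by positivity)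

/-- the parameters, with the size of `log (2/ρ)` -/
theorem param (t : ℕ) (ht : 0 < t) (ε : ℝ) (hε : 0 < ε) (hε1 : ε ≤ 1) :
    ∃ ρ T : ℝ, 0 < ρ ∧ ρ ≤ 1 / 4 ∧ 1 ≤ T ∧ 4 * ((t : ℝ) + 1) * Err t (LL t) ρ T ≤ ε ∧
      T ≤ 16 * ((t : ℝ) + 1) / ε * (3.2 + Real.log ((t + 1) / ε) +
        2 * ((t : ℝ) + 1) * (10.4 + 4 * Real.log ((t + 1) / ε))) := by
  have ht0 : (1 : ℝ) ≤ t := by exact_mod_cast ht
  have hLL := LL_ge t
  obtain ⟨k, hk⟩ : ∃ k : ℝ, k = (t : ℝ) + 1 := ⟨_, rfl⟩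
  rw [← hk]
  have hk2 : 2 ≤ k := by linarith
  obtain ⟨x, hx⟩ : ∃ x : ℝ, x = ε / (16 * k * t * (1 + 26 * t)) := ⟨_, rfl⟩
  have hden : 1 ≤ 16 * k * t * (1 + 26 * t) := by
    have h1 : 1 ≤ k * t := by nlinarith
    have h2 : (1 : ℝ) ≤ 1 + 26 * t := by linarith
    nlinarith
  have hx0 : 0 < x := by rw [hx]; positivity
  have hx1 : x ≤ 1 := by
    rw [hx, div_le_one (by positivity)]
    linarith
  have hxp : x ^ (2 * t) ≤ 1 := pow_le_one₀ hx0.le hx1
  obtain ⟨ρ, hρ⟩ : ∃ ρ : ℝ, ρ = x ^ (2 * t) / (6 * LL t) := ⟨_, rfl⟩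
  have hρ0 : 0 < ρ := by rw [hρ]; positivity
  have hρ4 : ρ ≤ 1 / 4 := by
    rw [hρ, div_le_iff₀ (by positivity)]
    linarith
  have hlog : 0 < Real.log (2 / ρ) := by
    apply Real.log_pos
    rw [lt_div_iff₀ hρ0]
    linarith
  have hu1 : 1 ≤ k / ε := by
    rw [le_div_iff₀ hε]
    linarith
  have hlu : 0 ≤ Real.log (k / ε) := Real.log_nonneg hu1
  -- size of `log (2/ρ)`
  have hsize : Real.log (2 / ρ) ≤ 3.2 + Real.log (k / ε) + 2 * k * (10.4 + 4 * Real.log (k / ε)) := by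
    have h1 : 2 / ρ = 12 * LL t / x ^ (2 * t) := by
      rw [hρ]
      field_simp
      ring
    have h2 : Real.log (2 / ρ) = Real.log 24 + Real.log k + 2 * t * (1 + Real.log (1 + 26 * t)) +
        2 * t * Real.log (1 / x) := by
      rw [h1]
      unfold LL
      rw [← hk]
      have h3 : 12 * (2 * k * Real.exp (2 * t * (1 + Real.log (1 + 26 * t)))) / x ^ (2 * t) =
          24 * k * Real.exp (2 * t * (1 + Real.log (1 + 26 * t))) * (1 / x) ^ (2 * t) := by
        rw [one_div, inv_pow]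
        field_simp
        ring
      rw [h3, Real.log_mul (by positivity) (by positivity), Real.log_mul (by positivity)
        (by positivity), Real.log_mul (by positivity) (by positivity), Real.log_exp, Real.log_pow]
      push_cast
      ring
    have hlk : Real.log k ≤ Real.log (k / ε) := by
      apply Real.log_le_log (by positivity)
      rw [le_div_iff₀ hε]
      nlinarith
    have hlk0 : 0 ≤ Real.log k := Real.log_nonneg (by linarith)
    have h4 : Real.log (1 + 26 * t) ≤ 3.3 + Real.log (k / ε) := by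
      have h5 : Real.log (1 + 26 * t) ≤ Real.log (27 * k) :=
        Real.log_le_log (by positivity) (by linarith)
      rw [Real.log_mul (by norm_num) (by positivity)] at h5
      have := log27_le
      linarith
    have h6 : Real.log (1 / x) ≤ 6.04 + 3 * Real.log (k / ε) := by
      have h7 : 1 / x ≤ 416 * k ^ 2 * (k / ε) := by
        rw [hx, one_div, inv_div, div_le_iff₀ hε]
        have h8 : 416 * k ^ 2 * (k / ε) * ε = 416 * k ^ 3 := by
          field_simp
        rw [h8]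
        have h9 : (t : ℝ) * (1 + 26 * t) ≤ 26 * k ^ 2 := by
          rw [hk]
          nlinarith
        calc 16 * k * t * (1 + 26 * t) = 16 * k * (t * (1 + 26 * t)) := by ring
          _ ≤ 16 * k * (26 * k ^ 2) := mul_le_mul_of_nonneg_left h9 (by positivity)
          _ = 416 * k ^ 3 := by ring
      have h10 := Real.log_le_log (by positivity) h7
      rw [Real.log_mul (by positivity) (by positivity), Real.log_mul (by norm_num)
        (by positivity), Real.log_pow] at h10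
      have := log416_le
      push_cast at h10
      linarith
    rw [h2]
    have h24 := log24_le
    have htk : 2 * (t : ℝ) ≤ 2 * k := by linarith
    have h11 : 2 * (t : ℝ) * (1 + Real.log (1 + 26 * t)) ≤ 2 * k * (4.3 + Real.log (k / ε)) := by
      have h12 : 0 ≤ 1 + Real.log (1 + 26 * (t : ℝ)) := by
        have : 0 ≤ Real.log (1 + 26 * (t : ℝ)) := Real.log_nonneg (by linarith)
        linarith
      exact mul_le_mul htk (by linarith) h12 (by positivity)
    have h13 : 2 * (t : ℝ) * Real.log (1 / x) ≤ 2 * k * (6.04 + 3 * Real.log (k / ε)) := by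
      have h14 : 0 ≤ Real.log (1 / x) := by
        apply Real.log_nonneg
        rw [le_div_iff₀ hx0]
        linarith
      exact mul_le_mul htk h6 h14 (by positivity)
    nlinarith
  obtain ⟨T, hT⟩ : ∃ T : ℝ, T = 16 * k / ε * (3.2 + Real.log (k / ε) +
      2 * k * (10.4 + 4 * Real.log (k / ε))) := ⟨_, rfl⟩
  have hT1 : 1 ≤ T := by
    have h1 : 1 ≤ 3.2 + Real.log (k / ε) + 2 * k * (10.4 + 4 * Real.log (k / ε)) := by
      have : 0 ≤ 2 * k * (10.4 + 4 * Real.log (k / ε)) := by positivity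
      linarith
    have h2 : 1 ≤ 16 * k / ε := by
      rw [le_div_iff₀ hε]
      linarith
    rw [hT]
    nlinarith
  refine ⟨ρ, T, hρ0, hρ4, hT1, ?_, hT.le⟩
  -- the error
  have hGG : Pool.Agent.H61.Sparse.GG t (6 * ρ * LL t) = ε / (8 * k) := by
    have h1 : 6 * ρ * LL t = x ^ (2 * t) := by
      rw [hρ]
      field_simp
    rw [h1]
    unfold Pool.Agent.H61.Sparse.GG
    have h2 : (x ^ (2 * t)) ^ (1 / (2 * (t : ℝ))) = x := by
      have h3 : (1 : ℝ) / (2 * (t : ℝ)) = (((2 * t : ℕ)) : ℝ)⁻¹ := by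
        push_cast
        rw [one_div]
      rw [h3, Real.pow_rpow_inv_natCast hx0.le (by omega)]
    rw [h2, hx]
    field_simp
    ring
  have hlog2 : Real.log ((1 + ρ) / ρ) ≤ Real.log (2 / ρ) := by
    apply Real.log_le_log (by positivity)
    gcongr
    linarith
  have hb : 2 / T * Real.log ((1 + ρ) / ρ) ≤ ε / (8 * k) := by
    have h1 : Real.log ((1 + ρ) / ρ) ≤ 3.2 + Real.log (k / ε) +
        2 * k * (10.4 + 4 * Real.log (k / ε)) := hlog2.trans hsize
    have h2 : 0 < 3.2 + Real.log (k / ε) + 2 * k * (10.4 + 4 * Real.log (k / ε)) := by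
      positivity
    calc 2 / T * Real.log ((1 + ρ) / ρ) ≤ 2 / T * (3.2 + Real.log (k / ε) +
          2 * k * (10.4 + 4 * Real.log (k / ε))) :=
          mul_le_mul_of_nonneg_left h1 (by positivity)
      _ = ε / (8 * k) := by
          rw [hT]
          field_simp
          ring
  unfold Err
  rw [hGG]
  calc 4 * k * (ε / (8 * k) + 2 / T * Real.log ((1 + ρ) / ρ)) ≤ 4 * k * (ε / (8 * k) + ε / (8 * k)) := by
        gcongr
    _ = ε := by
        field_simp
        ring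

/-- **Effective closure.** A `k`-term polynomial of measure at most `2` is approximated within `ε`
by one with the same coefficients and degree at most `(k/ε)^(37 k)`. -/
theorem closureP {k : ℕ} (hk : 2 ≤ k) (a : Fin k → ℤ) (ha : ∀ i, a i ≠ 0) (n : Fin k → ℕ)
    (hn : Function.Injective n) (hM : lm (sp a n) ≤ Real.log 2) (ε : ℝ) (hε : 0 < ε)
    (hε1 : ε ≤ 1) : ∃ m : Fin k → ℕ, Function.Injective m ∧
      (∀ i, (m i : ℝ) ≤ ((k : ℝ) / ε) ^ (37 * k)) ∧ |lm (sp a m) - lm (sp a n)| ≤ ε := by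
  obtain ⟨t, rfl⟩ : ∃ t, k = t + 1 := ⟨k - 1, by omega⟩
  have ht : 0 < t := by omega
  have ht0 : (1 : ℝ) ≤ t := by exact_mod_cast ht
  obtain ⟨ρ, T, hρ, hρ4, hT, hErr, hTle⟩ := param t ht ε hε hε1
  have hcast : ((t + 1 : ℕ) : ℝ) = (t : ℝ) + 1 := by push_cast; ring
  obtain ⟨u, hu⟩ : ∃ u : ℝ, u = ((t : ℝ) + 1) / ε := ⟨_, rfl⟩
  rw [hcast, ← hu]
  rw [← hu] at hTle
  have hku : (t : ℝ) + 1 ≤ u := by
    rw [hu, le_div_iff₀ hε]
    nlinarith
  have hu2 : 2 ≤ u := by linarith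
  have hlu : Real.log u ≤ u - 1 := Real.log_le_sub_one_of_pos (by linarith)
  have hlu0 : 0 ≤ Real.log u := Real.log_nonneg (by linarith)
  have hT2 : T ≤ 624 * u ^ 3 := by
    refine hTle.trans ?_
    have h1 : 16 * ((t : ℝ) + 1) / ε = 16 * u := by rw [hu]; ring
    rw [h1]
    have h2 : 3.2 + Real.log u + 2 * ((t : ℝ) + 1) * (10.4 + 4 * Real.log u) ≤ 39 * u ^ 2 := by
      have h3 : 2 * ((t : ℝ) + 1) * (10.4 + 4 * Real.log u) ≤ 2 * u * (10.4 + 4 * u) := by
        apply mul_le_mul (by linarith) (by linarith) (by positivity) (by positivity)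
      nlinarith
    calc 16 * u * (3.2 + Real.log u + 2 * ((t : ℝ) + 1) * (10.4 + 4 * Real.log u))
        ≤ 16 * u * (39 * u ^ 2) := mul_le_mul_of_nonneg_left h2 (by positivity)
      _ = 624 * u ^ 3 := by ring
  obtain ⟨J, hJ⟩ : ∃ J : ℕ, J = ⌈((t : ℝ) + 1) ^ 2 * T⌉₊ := ⟨_, rfl⟩
  have hJ1 : ((t : ℝ) + 1) ^ 2 * T ≤ J := by
    rw [hJ]
    exact Nat.le_ceil _
  have hJ2 : (J : ℝ) ≤ 625 * u ^ 5 := by
    have h1 : (J : ℝ) ≤ ((t : ℝ) + 1) ^ 2 * T + 1 := by
      rw [hJ]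
      exact (Nat.ceil_lt_add_one (by positivity)).le
    have h2 : ((t : ℝ) + 1) ^ 2 * T ≤ u ^ 2 * (624 * u ^ 3) :=
      mul_le_mul (pow_le_pow_left₀ (by positivity) hku 2) hT2 (by positivity) (by positivity)
    have h3 : (1 : ℝ) ≤ u ^ 5 := one_le_pow₀ (by linarith)
    nlinarith
  have hJ0 : 1 ≤ J := by
    have h1 : (1 : ℝ) ≤ J := by
      refine le_trans ?_ hJ1
      nlinarith
    exact_mod_cast h1
  obtain ⟨m, hmi, hrel, hmb⟩ := small_model hk n hn J hJ0
  refine ⟨m, hmi, ?_, ?_⟩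
  · intro i
    have h1 : (m i : ℝ) ≤ 2 * (4 * J + 1) ^ (2 * (t + 1)) := by exact_mod_cast hmb i
    have h2 : 4 * (J : ℝ) + 1 ≤ u ^ 18 := by
      have h3 : (2 : ℝ) ^ 13 ≤ u ^ 13 := pow_le_pow_left₀ (by norm_num) hu2 13
      have h4 : (1 : ℝ) ≤ u ^ 5 := one_le_pow₀ (by linarith)
      calc 4 * (J : ℝ) + 1 ≤ 2 ^ 13 * u ^ 5 := by norm_num; linarith
        _ ≤ u ^ 13 * u ^ 5 := mul_le_mul_of_nonneg_right h3 (by positivity)
        _ = u ^ 18 := by ring
    calc (m i : ℝ) ≤ 2 * (4 * J + 1) ^ (2 * (t + 1)) := h1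
      _ ≤ u ^ 1 * (u ^ 18) ^ (2 * (t + 1)) := by
          rw [pow_one]
          exact mul_le_mul hu2 (pow_le_pow_left₀ (by positivity) h2 _) (by positivity)
            (by positivity)
      _ = u ^ (1 + 18 * (2 * (t + 1))) := by rw [← pow_mul, ← pow_add]
      _ ≤ u ^ (37 * (t + 1)) := pow_le_pow_right₀ (by linarith) (by omega)
  · have h1 := compareP t ht le_rfl (Nat.succ_pos t) a ha n m hn hmi J hrel (LL t) T ρ
      (sum_le_LL ht a n hn hM) hT (by rw [hcast]; exact hJ1) hρ hρ4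
    rw [hcast] at h1
    exact h1.trans hErr

end H25.LKP
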