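import Pool.Agent.H25.LKP.Defs

/-!
# N2: Haar measures of subtori

Uniqueness: the linear span of the `mFourier c` is dense in the continuous functions (`UnitAddTorus.span_mFourier_closure_eq_top`), and finite
measures with the same integrals of continuous functions are equal. Twist: `mFourier c (y + t v) = mFourier c y * fourier (c·v) t`.
-/

set_option autoImplicit false

namespace H25.LKP

open MeasureTheory Polynomial

theorem integral_mf {ι : Type} [Fintype ι] {ν ν' : Measure (ι → UnitAddCircle)}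
    [IsProbabilityMeasure ν] [IsProbabilityMeasure ν']
    (h : ∀ c : ι → ℤ, ∫ y, UnitAddTorus.mFourier c y ∂ν = ∫ y, UnitAddTorus.mFourier c y ∂ν')
    (f : C(UnitAddTorus ι, ℂ)) : ∫ y, f y ∂ν = ∫ y, f y ∂ν' := by
  have hint : ∀ (μ : Measure (ι → UnitAddCircle)) [IsProbabilityMeasure μ]
      (g : C(UnitAddTorus ι, ℂ)), Integrable (fun y => g y) μ := by
    intro μ _ g
    exact (BoundedContinuousFunction.mkOfCompact g).integrable μ
  let Φ : C(UnitAddTorus ι, ℂ) →ₗ[ℂ] ℂ :=
    { toFun := fun g => ∫ y, g y ∂ν - ∫ y, g y ∂ν'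
      map_add' := by
        intro g g'
        simp only [ContinuousMap.add_apply]
        rw [integral_add (hint ν g) (hint ν g'), integral_add (hint ν' g) (hint ν' g')]
        ring
      map_smul' := by
        intro c g
        simp only [ContinuousMap.smul_apply, smul_eq_mul, RingHom.id_apply]
        rw [integral_const_mul, integral_const_mul]
        ring }
  have hb : ∀ g, ‖Φ g‖ ≤ 2 * ‖g‖ := by
    intro g
    have h1 : ∀ (μ : Measure (ι → UnitAddCircle)) [IsProbabilityMeasure μ],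
        ‖∫ y, g y ∂μ‖ ≤ ‖g‖ := by
      intro μ _
      have := norm_integral_le_of_norm_le_const (μ := μ) (C := ‖g‖)
        (Filter.Eventually.of_forall fun y => g.norm_coe_le_norm y)
      simpa using this
    have h2 := norm_sub_le (∫ y, g y ∂ν) (∫ y, g y ∂ν')
    have h3 := h1 ν
    have h4 := h1 ν'
    show ‖∫ y, g y ∂ν - ∫ y, g y ∂ν'‖ ≤ 2 * ‖g‖
    linarith
  let Ψ : C(UnitAddTorus ι, ℂ) →L[ℂ] ℂ := Φ.mkContinuous 2 hb
  have hle : Submodule.span ℂ (Set.range (UnitAddTorus.mFourier (d := ι))) ≤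
      LinearMap.ker (Ψ : C(UnitAddTorus ι, ℂ) →ₗ[ℂ] ℂ) := by
    rw [Submodule.span_le]
    rintro _ ⟨c, rfl⟩
    show Φ (UnitAddTorus.mFourier c) = 0
    show ∫ y, UnitAddTorus.mFourier c y ∂ν - ∫ y, UnitAddTorus.mFourier c y ∂ν' = 0
    rw [h c, sub_self]
  have hcl : IsClosed (LinearMap.ker (Ψ : C(UnitAddTorus ι, ℂ) →ₗ[ℂ] ℂ) :
      Set C(UnitAddTorus ι, ℂ)) := by
    have : (LinearMap.ker (Ψ : C(UnitAddTorus ι, ℂ) →ₗ[ℂ] ℂ) : Set C(UnitAddTorus ι, ℂ)) =
        Ψ ⁻¹' {0} := by
      ext g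
      simp
    rw [this]
    exact isClosed_singleton.preimage Ψ.continuous
  have h5 := Submodule.topologicalClosure_minimal _ hle hcl
  rw [UnitAddTorus.span_mFourier_closure_eq_top] at h5
  have h6 : f ∈ LinearMap.ker (Ψ : C(UnitAddTorus ι, ℂ) →ₗ[ℂ] ℂ) := h5 trivial
  have h7 : ∫ y, f y ∂ν - ∫ y, f y ∂ν' = 0 := h6
  exact sub_eq_zero.1 h7

theorem measure_eq {ι : Type} [Fintype ι] {ν ν' : Measure (ι → UnitAddCircle)}
    [IsProbabilityMeasure ν] [IsProbabilityMeasure ν']
    (h : ∀ c : ι → ℤ, ∫ y, UnitAddTorus.mFourier c y ∂ν = ∫ y, UnitAddTorus.mFourier c y ∂ν') :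
    ν = ν' := by
  apply ext_of_forall_integral_eq_of_IsFiniteMeasure
  intro f
  have h1 := integral_mf h
    ⟨fun y => ((f y : ℝ) : ℂ), Complex.continuous_ofReal.comp f.continuous⟩
  simp only [ContinuousMap.coe_mk] at h1
  have h2 : ((∫ y, f y ∂ν : ℝ) : ℂ) = ((∫ y, f y ∂ν' : ℝ) : ℂ) := by
    rw [← integral_complex_ofReal, ← integral_complex_ofReal]
    exact h1
  exact_mod_cast h2

theorem haar_unique {ι : Type} [Fintype ι] {V : Submodule ℚ (ι → ℚ)}
    {ν ν' : Measure (ι → UnitAddCircle)} (h : IsHaar V ν) (h' : IsHaar V ν') : ν = ν' := by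
  have := h.1
  have := h'.1
  apply measure_eq
  intro c
  rw [h.2 c, h'.2 c]

theorem haar_bot {ι : Type} [Fintype ι] :
    IsHaar (⊥ : Submodule ℚ (ι → ℚ)) (Measure.dirac 0) := by
  refine ⟨inferInstance, ?_⟩
  intro c
  rw [integral_dirac, if_pos]
  · simp [UnitAddTorus.mFourier]
  · intro x hx
    rw [Submodule.mem_bot] at hx
    subst hx
    simp

theorem integral_fourier (m : ℤ) :
    ∫ t : UnitAddCircle, fourier m t ∂AddCircle.haarAddCircle = if m = 0 then 1 else 0 := by
  split_ifs with h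
  · subst h
    simp
  · exact integral_eq_zero_of_add_right_eq_neg (μ := AddCircle.haarAddCircle)
      (fourier_add_half_inv_index h Fact.out)

theorem mf_apply {ι : Type} [Fintype ι] (c : ι → ℤ) (y : ι → UnitAddCircle) :
    UnitAddTorus.mFourier c y = (AddCircle.toCircle (∑ i, c i • y i) : ℂ) := by
  have h1 : ∀ s : Finset ι, (AddCircle.toCircle (∑ i ∈ s, c i • y i) : ℂ) =
      ∏ i ∈ s, fourier (c i) (y i) := by
    intro s
    classical
    induction s using Finset.induction_on with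
    | empty => simp
    | insert i s hi ih =>
      rw [Finset.sum_insert hi, Finset.prod_insert hi, ← ih, fourier_apply,
        AddCircle.toCircle_add, Circle.coe_mul]
  rw [h1]
  rfl

theorem mf_add {ι : Type} [Fintype ι] (c : ι → ℤ) (y z : ι → UnitAddCircle) :
    UnitAddTorus.mFourier c (fun i => y i + z i) =
      UnitAddTorus.mFourier c y * UnitAddTorus.mFourier c z := by
  rw [mf_apply, mf_apply, mf_apply, ← Circle.coe_mul, ← AddCircle.toCircle_add,
    ← Finset.sum_add_distrib]
  simp only [smul_add]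

theorem mf_line {ι : Type} [Fintype ι] (c v : ι → ℤ) (t : UnitAddCircle) :
    UnitAddTorus.mFourier c (fun i => v i • t) = fourier (∑ i, c i * v i) t := by
  rw [mf_apply, fourier_apply]
  congr 2
  rw [Finset.sum_smul]
  exact Finset.sum_congr rfl fun i _ => by rw [mul_smul]

theorem twist_cont {ι : Type} [Fintype ι] (v : ι → ℤ) :
    Continuous fun p : (ι → UnitAddCircle) × UnitAddCircle => fun i => p.1 i + v i • p.2 := by
  apply continuous_pi
  intro i
  exact ((continuous_apply i).comp continuous_fst).add (continuous_snd.zsmul (v i))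

theorem orth_sup {ι : Type} [Fintype ι] (V : Submodule ℚ (ι → ℚ)) (v : ι → ℤ) (c : ι → ℤ) :
    Orth (V ⊔ line v) c ↔ Orth V c ∧ ∑ i, c i * v i = 0 := by
  constructor
  · intro h
    refine ⟨fun x hx => h x (Submodule.mem_sup_left hx), ?_⟩
    have h1 := h (fun i => (v i : ℚ))
      (Submodule.mem_sup_right (Submodule.mem_span_singleton_self _))
    exact_mod_cast h1
  · rintro ⟨h1, h2⟩ x hx
    obtain ⟨y, hy, z, hz, rfl⟩ := Submodule.mem_sup.1 hx
    obtain ⟨r, rfl⟩ := Submodule.mem_span_singleton.1 hz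
    have h3 : (∑ i, (c i : ℚ) * (v i : ℚ)) = 0 := by exact_mod_cast h2
    simp only [Pi.add_apply, Pi.smul_apply, smul_eq_mul, mul_add, Finset.sum_add_distrib]
    rw [h1 y hy, zero_add]
    calc ∑ i, (c i : ℚ) * (r * (v i : ℚ)) = r * ∑ i, (c i : ℚ) * (v i : ℚ) := by
          rw [Finset.mul_sum]
          exact Finset.sum_congr rfl fun i _ => by ring
      _ = 0 := by rw [h3, mul_zero]

theorem haar_twist {ι : Type} [Fintype ι] {V : Submodule ℚ (ι → ℚ)}
    {ν : Measure (ι → UnitAddCircle)} (h : IsHaar V ν) (v : ι → ℤ) :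
    IsHaar (V ⊔ line v) (twist v ν) := by
  have := h.1
  have hm := (twist_cont v).measurable
  refine ⟨Measure.isProbabilityMeasure_map hm.aemeasurable, ?_⟩
  intro c
  unfold twist
  rw [integral_map hm.aemeasurable
    (UnitAddTorus.mFourier c).continuous.aestronglyMeasurable]
  have h1 : ∀ p : (ι → UnitAddCircle) × UnitAddCircle,
      UnitAddTorus.mFourier c (fun i => p.1 i + v i • p.2) =
        UnitAddTorus.mFourier c p.1 * fourier (∑ i, c i * v i) p.2 := by
    intro p
    rw [mf_add, mf_line]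
  simp_rw [h1]
  rw [integral_prod_mul (fun y => UnitAddTorus.mFourier c y) (fun t => fourier (∑ i, c i * v i) t),
    h.2 c, integral_fourier]
  by_cases h2 : Orth V c
  · by_cases h3 : ∑ i, c i * v i = 0
    · rw [if_pos h2, if_pos h3, if_pos ((orth_sup V v c).2 ⟨h2, h3⟩), mul_one]
    · rw [if_pos h2, if_neg h3, if_neg fun h4 => h3 ((orth_sup V v c).1 h4).2, mul_zero]
  · rw [if_neg h2, if_neg fun h4 => h2 ((orth_sup V v c).1 h4).1, zero_mul]

theorem line_clear {ι : Type} [Fintype ι] (x : ι → ℚ) :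
    ∃ v : ι → ℤ, Submodule.span ℚ {x} = line v := by
  classical
  obtain ⟨N, hN, v, hv⟩ : ∃ N : ℕ, 0 < N ∧ ∃ v : ι → ℤ, ∀ i, (N : ℚ) * x i = v i := by
    refine ⟨∏ i, (x i).den, Finset.prod_pos fun i _ => (x i).den_pos,
      fun i => ((∏ j ∈ Finset.univ.erase i, (x j).den : ℕ) : ℤ) * (x i).num, ?_⟩
    intro i
    have h1 : (∏ j, (x j).den) = (x i).den * ∏ j ∈ Finset.univ.erase i, (x j).den :=
      (Finset.mul_prod_erase _ _ (Finset.mem_univ i)).symm
    rw [h1]
    push_cast
    have h2 : ((x i).den : ℚ) * x i = (x i).num := Rat.den_mul_eq_num (x i)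
    calc ((x i).den : ℚ) * (∏ j ∈ Finset.univ.erase i, ((x j).den : ℚ)) * x i =
        (∏ j ∈ Finset.univ.erase i, ((x j).den : ℚ)) * (((x i).den : ℚ) * x i) := by ring
      _ = _ := by rw [h2]
  have hN0 : (N : ℚ) ≠ 0 := by
    have : (N : ℚ) ≠ 0 ↔ N ≠ 0 := Nat.cast_ne_zero
    exact this.2 hN.ne'
  refine ⟨v, ?_⟩
  have h1 : (fun i => (v i : ℚ)) = (N : ℚ) • x := by
    funext i
    rw [Pi.smul_apply, smul_eq_mul, hv]
  unfold line
  rw [h1]
  exact (Submodule.span_singleton_smul_eq (IsUnit.mk0 _ hN0) x).symm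

theorem haar_exists {ι : Type} [Fintype ι] (V : Submodule ℚ (ι → ℚ)) :
    ∃ ν : Measure (ι → UnitAddCircle), IsHaar V ν := by
  classical
  have hfg : V.FG := IsNoetherian.noetherian V
  obtain ⟨S, hS⟩ := hfg
  have key : ∀ S : Finset (ι → ℚ), ∃ ν : Measure (ι → UnitAddCircle),
      IsHaar (Submodule.span ℚ (S : Set (ι → ℚ))) ν := by
    intro S
    induction S using Finset.induction_on with
    | empty =>
      refine ⟨Measure.dirac 0, ?_⟩
      rw [Finset.coe_empty, Submodule.span_empty]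
      exact haar_bot
    | insert x S hx ih =>
      obtain ⟨ν, hν⟩ := ih
      obtain ⟨v, hv⟩ := line_clear x
      refine ⟨twist v ν, ?_⟩
      have h1 := haar_twist hν v
      rw [Finset.coe_insert, Submodule.span_insert, hv, sup_comm]
      exact h1
  rw [← hS]
  exact key S

/-- translation by a rational point of the torus -/
theorem haar_translate {ι : Type} [Fintype ι] {V : Submodule ℚ (ι → ℚ)}
    {ν : Measure (ι → UnitAddCircle)} (h : IsHaar V ν) (w : ι → ℚ) (hw : w ∈ V) :
    ν.map (fun y i => y i + (((w i : ℚ) : ℝ) : UnitAddCircle)) = ν := by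
  have := h.1
  have hm : Measurable (fun (y : ι → UnitAddCircle) i =>
      y i + (((w i : ℚ) : ℝ) : UnitAddCircle)) := by
    apply Continuous.measurable
    apply continuous_pi
    intro i
    exact (continuous_apply i).add continuous_const
  have : IsProbabilityMeasure
      (ν.map (fun (y : ι → UnitAddCircle) i => y i + (((w i : ℚ) : ℝ) : UnitAddCircle))) :=
    Measure.isProbabilityMeasure_map hm.aemeasurable
  apply measure_eq
  intro c
  rw [integral_map hm.aemeasurable
    (UnitAddTorus.mFourier c).continuous.aestronglyMeasurable]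
  simp_rw [mf_add]
  rw [integral_mul_const]
  by_cases h2 : Orth V c
  · have h3 : UnitAddTorus.mFourier c (fun i => (((w i : ℚ) : ℝ) : UnitAddCircle)) = 1 := by
      rw [mf_apply]
      have h4 : ∑ i, c i • ((((w i : ℚ) : ℝ) : UnitAddCircle)) =
          (((∑ i, (c i : ℚ) * w i : ℚ) : ℝ) : UnitAddCircle) := by
        push_cast
        have h5 : ((∑ i, (c i : ℝ) * (w i : ℝ) : ℝ) : UnitAddCircle) =
            ∑ i, (((c i : ℝ) * (w i : ℝ) : ℝ) : UnitAddCircle) :=
          map_sum (QuotientAddGroup.mk' (AddSubgroup.zmultiples (1 : ℝ))) _ _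
        rw [h5]
        refine Finset.sum_congr rfl fun i _ => ?_
        rw [← zsmul_eq_mul]
        rfl
      rw [h4, h2 w hw]
      simp
    rw [h3, mul_one]
  · rw [h.2 c, if_neg h2, zero_mul]

end H25.LKP
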