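import Pool.Agent.H25.LKP.N2
import Pool.Agent.H61.Sparse.LogInt
import Pool.Agent.H61.Sparse.Compare

/-!
# N3: small values of a sum of few monomials on a subtorus

`V ∋ n`, `n` with different entries. `ν = twist n ν` (uniqueness), so `∫ G dν = ∫_y ∫_t G(y + t n)`, and for fixed `y` the function
`t ↦ FF a (y + t n)` is the polynomial `PP a y n` (coefficients of absolute value `≥ 1`) at `toCircle t`: `log_int` and finitely many zeros.
-/

set_option autoImplicit false

namespace H25.LKP

open MeasureTheory Polynomial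

theorem N3_cont {ι : Type} [Fintype ι] (a : ι → ℤ) : Continuous (FF a) := by
  unfold FF
  have h : ∀ i : ι, Continuous fun y : ι → UnitAddCircle => (AddCircle.toCircle (y i) : ℂ) :=
    fun i => continuous_subtype_val.comp (AddCircle.continuous_toCircle.comp (continuous_apply i))
  exact continuous_finsetSum _ fun i _ => continuous_const.mul (h i)

theorem N3_bound {ι : Type} [Fintype ι] (a : ι → ℤ) (y : ι → UnitAddCircle) :
    ‖FF a y‖ ≤ ∑ i, |(a i : ℝ)| := by
  unfold FF
  refine (norm_sum_le _ _).trans (Finset.sum_le_sum fun i _ => ?_)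
  rw [norm_mul, Circle.norm_coe, mul_one, Complex.norm_intCast]

theorem FF_twist {ι : Type} [Fintype ι] (a : ι → ℤ) (y : ι → UnitAddCircle) (e : ι → ℕ)
    (t : UnitAddCircle) :
    FF a (fun i => y i + (e i : ℤ) • t) = (PP a y e).eval (AddCircle.toCircle t : ℂ) := by
  unfold FF PP
  rw [eval_finsetSum]
  refine Finset.sum_congr rfl fun i _ => ?_
  rw [eval_monomial, AddCircle.toCircle_add, natCast_zsmul, AddCircle.toCircle_nsmul]
  push_cast
  ring

theorem N3_haar : (AddCircle.haarAddCircle : Measure UnitAddCircle) = volume := by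
  rw [AddCircle.volume_eq_smul_haarAddCircle]
  simp

theorem N3_single (x : UnitAddCircle) : (volume : Measure UnitAddCircle) {x} = 0 := by
  obtain ⟨r, rfl⟩ := QuotientAddGroup.mk_surjective x
  rw [AddCircle.add_projection_respects_measure 1 0 (measurableSet_singleton _)]
  apply Set.Countable.measure_zero
  refine (Set.countable_range fun m : ℤ => r + (m : ℝ)).mono ?_
  rintro s ⟨hs, _⟩
  have h1 : (QuotientAddGroup.mk s : UnitAddCircle) = QuotientAddGroup.mk r := hs
  rw [QuotientAddGroup.eq_iff_sub_mem, AddSubgroup.mem_zmultiples_iff] at h1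
  obtain ⟨m, hm⟩ := h1
  refine ⟨m, ?_⟩
  simp only [zsmul_eq_mul, mul_one] at hm
  simp only [hm]
  ring

theorem N3_finite {s : Set UnitAddCircle} (hs : s.Finite) :
    (volume : Measure UnitAddCircle) s = 0 := by
  rw [← Set.biUnion_of_singleton s]
  exact (measure_biUnion_null_iff hs.countable).2 fun x _ => N3_single x

theorem N3_mk (x : ℝ) : (AddCircle.toCircle ((x : ℝ) : UnitAddCircle) : ℂ) =
    circleMap 0 1 (2 * Real.pi * x) := by
  rw [AddCircle.toCircle_apply_mk, circleMap, Circle.coe_exp]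
  simp

/-- integral over the circle group and circle average -/
theorem integral_circle (f : ℂ → ℝ) :
    ∫ t : UnitAddCircle, f (AddCircle.toCircle t : ℂ) ∂AddCircle.haarAddCircle =
      Real.circleAverage f 0 1 := by
  rw [N3_haar, ← UnitAddCircle.intervalIntegral_preimage 0]
  simp only [N3_mk, zero_add]
  have h := intervalIntegral.integral_comp_mul_left (a := 0) (b := 1)
    (fun θ => f (circleMap 0 1 θ)) (c := 2 * Real.pi) (by positivity)
  simp only [mul_zero, mul_one] at h
  rw [h, Real.circleAverage_def]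

theorem N3_integrable {f : ℂ → ℝ} (hf : Measurable f) (h : CircleIntegrable f 0 1) :
    Integrable (fun t : UnitAddCircle => f (AddCircle.toCircle t : ℂ))
      AddCircle.haarAddCircle := by
  rw [N3_haar]
  have hc : Measurable fun t : UnitAddCircle => (AddCircle.toCircle t : ℂ) :=
    (continuous_subtype_val.comp AddCircle.continuous_toCircle).measurable
  have hg : Measurable fun t : UnitAddCircle => f (AddCircle.toCircle t : ℂ) := hf.comp hc
  have h1 := (UnitAddCircle.measurePreserving_mk 0).integrable_comp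
    (g := fun t : UnitAddCircle => f (AddCircle.toCircle t : ℂ)) hg.aestronglyMeasurable
  rw [← h1]
  have h2 : IntervalIntegrable (fun θ : ℝ => f (circleMap 0 1 θ)) volume 0 (2 * Real.pi) := h
  have h3 := h2.comp_mul_left (c := 2 * Real.pi)
  rw [zero_div, div_self (by positivity : (2 * Real.pi : ℝ) ≠ 0),
    intervalIntegrable_iff_integrableOn_Ioc_of_le zero_le_one] at h3
  rw [zero_add]
  refine h3.congr (Filter.Eventually.of_forall fun x => ?_)
  simp only [Function.comp_apply, N3_mk]

theorem N3_phi {ι : Type} [Fintype ι] (v : ι → ℤ) :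
    Continuous fun (p : (ι → UnitAddCircle) × UnitAddCircle) (i : ι) => p.1 i + v i • p.2 := by
  refine continuous_pi fun i => ?_
  exact ((continuous_apply i).comp continuous_fst).add (continuous_snd.zsmul (v i))

theorem N3_twist_eq {ι : Type} [Fintype ι] {V : Submodule ℚ (ι → ℚ)}
    {ν : Measure (ι → UnitAddCircle)} (h : IsHaar V ν) (n : ι → ℕ)
    (hnV : (fun i => (n i : ℚ)) ∈ V) : twist (fun i => (n i : ℤ)) ν = ν := by
  have h1 := haar_twist h (fun i => (n i : ℤ))
  have h2 : V ⊔ line (fun i => (n i : ℤ)) = V := by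
    rw [sup_eq_left]
    unfold line
    rw [Submodule.span_le, Set.singleton_subset_iff]
    simpa using hnV
  rw [h2] at h1
  exact haar_unique h1 h

theorem N3_coeff {ι : Type} [Fintype ι] (a : ι → ℤ) (y : ι → UnitAddCircle) (n : ι → ℕ)
    (hn : Function.Injective n) (i : ι) :
    (PP a y n).coeff (n i) = (a i : ℂ) * (AddCircle.toCircle (y i) : ℂ) := by
  unfold PP
  rw [finsetSum_coeff, Finset.sum_eq_single i]
  · rw [coeff_monomial, if_pos rfl]
  · intro j _ hj
    rw [coeff_monomial, if_neg fun h => hj (hn h)]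
  · intro h
    exact absurd (Finset.mem_univ i) h

theorem N3_coeff_norm {ι : Type} [Fintype ι] (a : ι → ℤ) (ha : ∀ i, a i ≠ 0)
    (y : ι → UnitAddCircle) (n : ι → ℕ) (hn : Function.Injective n) (i : ι) :
    1 ≤ ‖(PP a y n).coeff (n i)‖ := by
  rw [N3_coeff a y n hn, norm_mul, Circle.norm_coe, mul_one, Complex.norm_intCast]
  exact_mod_cast Int.one_le_abs (ha i)

theorem N3_card {ι : Type} [Fintype ι] (a : ι → ℤ) (y : ι → UnitAddCircle) (n : ι → ℕ) :
    (PP a y n).support.card ≤ Fintype.card ι := by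
  classical
  have h : (PP a y n).support ⊆ Finset.univ.image n := by
    intro m hm
    by_contra h2
    apply mem_support_iff.1 hm
    unfold PP
    rw [finsetSum_coeff]
    refine Finset.sum_eq_zero fun i _ => ?_
    rw [coeff_monomial, if_neg]
    intro h3
    exact h2 (Finset.mem_image.2 ⟨i, Finset.mem_univ i, h3⟩)
  exact (Finset.card_le_card h).trans Finset.card_image_le

theorem N3_prod {Ω : Type} [MeasurableSpace Ω] (ν : Measure Ω) [IsProbabilityMeasure ν]
    (g : Ω × UnitAddCircle → ℝ) (hg : Measurable g) (hg0 : ∀ p, 0 ≤ g p) (C : ℝ)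
    (h : ∀ y, Integrable (fun s => g (y, s)) AddCircle.haarAddCircle ∧
      ∫ s, g (y, s) ∂AddCircle.haarAddCircle ≤ C) :
    Integrable g (ν.prod AddCircle.haarAddCircle) ∧
      ∫ p, g p ∂(ν.prod AddCircle.haarAddCircle) ≤ C := by
  have hm : AEStronglyMeasurable g (ν.prod AddCircle.haarAddCircle) := hg.aestronglyMeasurable
  have hnorm : ∀ y, ∫ s, ‖g (y, s)‖ ∂AddCircle.haarAddCircle =
      ∫ s, g (y, s) ∂AddCircle.haarAddCircle := by
    intro y
    refine integral_congr_ae (Filter.Eventually.of_forall fun s => ?_)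
    simp only [Real.norm_eq_abs, abs_of_nonneg (hg0 _)]
  have hm2 : AEStronglyMeasurable (fun y => ∫ s, ‖g (y, s)‖ ∂AddCircle.haarAddCircle) ν :=
    hm.norm.integral_prod_right'
  have hi : Integrable g (ν.prod AddCircle.haarAddCircle) := by
    rw [integrable_prod_iff hm]
    refine ⟨Filter.Eventually.of_forall fun y => (h y).1, ?_⟩
    refine Integrable.of_bound hm2 C (Filter.Eventually.of_forall fun y => ?_)
    rw [hnorm y, Real.norm_eq_abs, abs_of_nonneg (integral_nonneg fun s => hg0 _)]
    exact (h y).2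
  refine ⟨hi, ?_⟩
  rw [integral_prod _ hi]
  calc ∫ y, ∫ s, g (y, s) ∂AddCircle.haarAddCircle ∂ν
      ≤ ∫ _y, C ∂ν := integral_mono hi.integral_prod_left (integrable_const _) fun y => (h y).2
    _ = C := by simp

/-- the main integral -/
theorem N3_core {ι : Type} [Fintype ι] [Nonempty ι] (a : ι → ℤ) (ha : ∀ i, a i ≠ 0)
    {V : Submodule ℚ (ι → ℚ)} {ν : Measure (ι → UnitAddCircle)} (h : IsHaar V ν) (n : ι → ℕ)
    (hn : Function.Injective n) (hnV : (fun i => (n i : ℚ)) ∈ V) (t : ℕ) (ht : 0 < t)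
    (hι : Fintype.card ι ≤ t + 1) (R : ℝ) (hR : 0 ≤ R) :
    Integrable (fun y => Real.log (1 + R / ‖FF a y‖)) ν ∧
    ∫ y, Real.log (1 + R / ‖FF a y‖) ∂ν ≤ Pool.Agent.H61.Sparse.GG t R := by
  have := h.1
  set G : (ι → UnitAddCircle) → ℝ := fun y => Real.log (1 + R / ‖FF a y‖) with hG
  have hGm : Measurable G :=
    Real.measurable_log.comp (measurable_const.add (measurable_const.div
      (N3_cont a).norm.measurable))
  have hG0 : ∀ y, 0 ≤ G y := fun y =>
    Real.log_nonneg (by have := div_nonneg hR (norm_nonneg (FF a y)); linarith)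
  set φ : (ι → UnitAddCircle) × UnitAddCircle → (ι → UnitAddCircle) :=
    fun p i => p.1 i + (n i : ℤ) • p.2 with hφ
  have hφc : Continuous φ := N3_phi fun i => (n i : ℤ)
  have hmap : (ν.prod AddCircle.haarAddCircle).map φ = ν := N3_twist_eq h n hnV
  have hsec : ∀ y, (fun s : UnitAddCircle => G (φ (y, s))) =
      fun s => Real.log (1 + R / ‖(PP a y n).eval (AddCircle.toCircle s : ℂ)‖) := by
    intro y
    funext s
    simp only [hG, hφ]
    rw [FF_twist]
  have hli : ∀ y, Integrable (fun s : UnitAddCircle => G (φ (y, s))) AddCircle.haarAddCircle ∧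
      ∫ s, G (φ (y, s)) ∂AddCircle.haarAddCircle ≤ Pool.Agent.H61.Sparse.GG t R := by
    intro y
    obtain ⟨i₀⟩ := (inferInstance : Nonempty ι)
    obtain ⟨h1, h2⟩ := Pool.Agent.H61.Sparse.log_int t ht (PP a y n)
      ((N3_card a y n).trans hι) (n i₀) (N3_coeff_norm a ha y n hn i₀) hR
    have hm : Measurable fun z : ℂ => Real.log (1 + R / ‖(PP a y n).eval z‖) :=
      Real.measurable_log.comp (measurable_const.add (measurable_const.div
        (PP a y n).continuous.norm.measurable))
    have h3 := N3_integrable (f := fun z : ℂ => Real.log (1 + R / ‖(PP a y n).eval z‖)) hm h1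
    have h4 := integral_circle fun z : ℂ => Real.log (1 + R / ‖(PP a y n).eval z‖)
    rw [hsec y]
    exact ⟨h3, h4.trans_le h2⟩
  have hGφ : Measurable fun p => G (φ p) := hGm.comp hφc.measurable
  obtain ⟨hprod, hle⟩ := N3_prod ν (fun p => G (φ p)) hGφ (fun p => hG0 (φ p)) _ hli
  constructor
  · have h1 := (integrable_map_measure (f := φ) (g := G) (μ := ν.prod AddCircle.haarAddCircle)
      hGm.aestronglyMeasurable hφc.aemeasurable).2 hprod
    rwa [hmap] at h1
  · have h1 : ∫ y, G y ∂ν = ∫ p, G (φ p) ∂(ν.prod AddCircle.haarAddCircle) := by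
      conv_lhs => rw [← hmap]
      exact integral_map hφc.aemeasurable hGm.aestronglyMeasurable
    rw [h1]
    exact hle

theorem ae_ne {ι : Type} [Fintype ι] [Nonempty ι] (a : ι → ℤ) (ha : ∀ i, a i ≠ 0)
    {V : Submodule ℚ (ι → ℚ)} {ν : Measure (ι → UnitAddCircle)} (h : IsHaar V ν) (n : ι → ℕ)
    (hn : Function.Injective n) (hnV : (fun i => (n i : ℚ)) ∈ V) : ∀ᵐ y ∂ν, FF a y ≠ 0 := by
  have := h.1
  set φ : (ι → UnitAddCircle) × UnitAddCircle → (ι → UnitAddCircle) :=
    fun p i => p.1 i + (n i : ℤ) • p.2 with hφ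
  have hφc : Continuous φ := N3_phi fun i => (n i : ℤ)
  have hmap : (ν.prod AddCircle.haarAddCircle).map φ = ν := N3_twist_eq h n hnV
  have hms : MeasurableSet {y : ι → UnitAddCircle | FF a y ≠ 0} :=
    (isOpen_ne.preimage (N3_cont a)).measurableSet
  rw [← hmap, ae_map_iff hφc.aemeasurable hms]
  have hms2 : MeasurableSet {p : (ι → UnitAddCircle) × UnitAddCircle | ¬ FF a (φ p) ≠ 0} := by
    have h1 : IsOpen {p : (ι → UnitAddCircle) × UnitAddCircle | FF a (φ p) ≠ 0} :=
      isOpen_ne.preimage ((N3_cont a).comp hφc)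
    exact h1.measurableSet.compl
  rw [ae_iff, Measure.measure_prod_null hms2]
  refine Filter.Eventually.of_forall fun y => ?_
  obtain ⟨i₀⟩ := (inferInstance : Nonempty ι)
  have hP : PP a y n ≠ 0 := by
    intro h0
    have h1 := N3_coeff_norm a ha y n hn i₀
    rw [h0, coeff_zero, norm_zero] at h1
    linarith
  have hfin : (Prod.mk y ⁻¹' {p : (ι → UnitAddCircle) × UnitAddCircle |
      ¬ FF a (φ p) ≠ 0}).Finite := by
    have hinj : Function.Injective fun s : UnitAddCircle => (AddCircle.toCircle s : ℂ) :=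
      Subtype.val_injective.comp (AddCircle.injective_toCircle one_ne_zero)
    refine ((PP a y n).roots.toFinset.finite_toSet.preimage hinj.injOn).subset ?_
    intro s hs
    have h1 : ¬ FF a (φ (y, s)) ≠ 0 := hs
    rw [not_not] at h1
    have h2 : FF a (φ (y, s)) = (PP a y n).eval (AddCircle.toCircle s : ℂ) := FF_twist a y n s
    rw [h2] at h1
    simp only [Set.mem_preimage, Finset.mem_coe, Multiset.mem_toFinset]
    exact (mem_roots hP).2 h1
  rw [N3_haar]
  exact N3_finite hfin

theorem integrable_log {ι : Type} [Fintype ι] [Nonempty ι] (a : ι → ℤ) (ha : ∀ i, a i ≠ 0)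
    {V : Submodule ℚ (ι → ℚ)} {ν : Measure (ι → UnitAddCircle)} (h : IsHaar V ν) (n : ι → ℕ)
    (hn : Function.Injective n) (hnV : (fun i => (n i : ℚ)) ∈ V) (t : ℕ) (ht : 0 < t)
    (hι : Fintype.card ι ≤ t + 1) :
    Integrable (fun y => Real.log ‖FF a y‖) ν := by
  have := h.1
  have h1 := (N3_core a ha h n hn hnV t ht hι 1 zero_le_one).1
  have h2 : Integrable (fun y => Real.log (1 + 1 / ‖FF a y‖) + ∑ i, |(a i : ℝ)|) ν :=
    h1.add (integrable_const _)
  refine h2.mono' ?_ (Filter.Eventually.of_forall fun y => ?_)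
  · exact (Real.measurable_log.comp (N3_cont a).norm.measurable).aestronglyMeasurable
  · rw [Real.norm_eq_abs]
    have hb := N3_bound a y
    have hL : 0 ≤ ∑ i, |(a i : ℝ)| := (norm_nonneg _).trans hb
    rcases (norm_nonneg (FF a y)).eq_or_lt with h0 | h0
    · rw [← h0]
      simpa using hL
    · have h3 : 0 ≤ Real.log (1 + 1 / ‖FF a y‖) := by
        apply Real.log_nonneg
        have : 0 ≤ 1 / ‖FF a y‖ := by positivity
        linarith
      rw [abs_le]
      constructor
      · have h4 : -Real.log ‖FF a y‖ ≤ Real.log (1 + 1 / ‖FF a y‖) := by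
          rw [← Real.log_inv]
          apply Real.log_le_log (by positivity)
          rw [one_div]
          linarith
        linarith
      · have h4 : Real.log ‖FF a y‖ ≤ ‖FF a y‖ :=
          (Real.log_le_sub_one_of_pos h0).trans (by linarith)
        linarith

theorem small_values {ι : Type} [Fintype ι] [Nonempty ι] (a : ι → ℤ) (ha : ∀ i, a i ≠ 0)
    {V : Submodule ℚ (ι → ℚ)} {ν : Measure (ι → UnitAddCircle)} (h : IsHaar V ν) (n : ι → ℕ)
    (hn : Function.Injective n) (hnV : (fun i => (n i : ℚ)) ∈ V) (t : ℕ) (ht : 0 < t)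
    (hι : Fintype.card ι ≤ t + 1) (τ : ℝ) (hτ : 0 < τ) :
    Integrable (fun y => Real.log (‖FF a y‖ + τ)) ν ∧
    ∫ y, Real.log (‖FF a y‖ + τ) ∂ν ≤ Lm a ν + Pool.Agent.H61.Sparse.GG t τ := by
  have h1 := N3_core a ha h n hn hnV t ht hι τ hτ.le
  have h2 := integrable_log a ha h n hn hnV t ht hι
  have hae : (fun y => Real.log (‖FF a y‖ + τ)) =ᵐ[ν]
      fun y => Real.log ‖FF a y‖ + Real.log (1 + τ / ‖FF a y‖) := by
    filter_upwards [ae_ne a ha h n hn hnV] with y hy
    have h3 : 0 < ‖FF a y‖ := norm_pos_iff.2 hy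
    rw [← Real.log_mul h3.ne' (by positivity)]
    congr 1
    field_simp
  constructor
  · exact (h2.add h1.1).congr hae.symm
  · rw [integral_congr_ae hae, integral_add h2 h1.1]
    unfold Lm
    linarith [h1.2]

/-- the mean over the larger torus as an iterated mean -/
theorem Lm_twist {ι : Type} [Fintype ι] [Nonempty ι] (a : ι → ℤ) (ha : ∀ i, a i ≠ 0)
    {V : Submodule ℚ (ι → ℚ)} {ν : Measure (ι → UnitAddCircle)} (h : IsHaar V ν) (n : ι → ℕ)
    (hn : Function.Injective n) (hnV : (fun i => (n i : ℚ)) ∈ V) (t : ℕ) (ht : 0 < t)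
    (hι : Fintype.card ι ≤ t + 1) (e : ι → ℕ) :
    Integrable (fun y => (PP a y e).logMahlerMeasure) ν ∧
    Lm a (twist (fun i => (e i : ℤ)) ν) = ∫ y, (PP a y e).logMahlerMeasure ∂ν := by
  have := h.1
  have h1 := haar_twist h (fun i => (e i : ℤ))
  have h2 : (fun i => (n i : ℚ)) ∈ V ⊔ line (fun i => (e i : ℤ)) :=
    (le_sup_left : V ≤ V ⊔ line (fun i => (e i : ℤ))) hnV
  have h3 := integrable_log a ha h1 n hn h2 t ht hι
  set φ : (ι → UnitAddCircle) × UnitAddCircle → (ι → UnitAddCircle) :=
    fun p i => p.1 i + (e i : ℤ) • p.2 with hφ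
  have hφc : Continuous φ := N3_phi fun i => (e i : ℤ)
  have hmeas : Measurable fun y => Real.log ‖FF a y‖ :=
    Real.measurable_log.comp (N3_cont a).norm.measurable
  have h4 : Integrable (fun p => Real.log ‖FF a (φ p)‖) (ν.prod AddCircle.haarAddCircle) :=
    (integrable_map_measure (f := φ) (g := fun y => Real.log ‖FF a y‖)
      (μ := ν.prod AddCircle.haarAddCircle) hmeas.aestronglyMeasurable hφc.aemeasurable).1 h3
  have h5 : ∀ y, ∫ s, Real.log ‖FF a (φ (y, s))‖ ∂AddCircle.haarAddCircle =
      (PP a y e).logMahlerMeasure := by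
    intro y
    have h6 : (fun s : UnitAddCircle => Real.log ‖FF a (φ (y, s))‖) =
        fun s => Real.log ‖(PP a y e).eval (AddCircle.toCircle s : ℂ)‖ := by
      funext s
      simp only [hφ]
      rw [FF_twist]
    rw [h6, integral_circle fun z => Real.log ‖(PP a y e).eval z‖, logMahlerMeasure_def]
  constructor
  · have h6 := h4.integral_prod_left
    simp only [h5] at h6
    exact h6
  · unfold Lm twist
    rw [integral_map hφc.aemeasurable hmeas.aestronglyMeasurable, integral_prod _ h4]
    exact integral_congr_ae (Filter.Eventually.of_forall h5)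

end H25.LKP
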