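import Pool.Agent.H25.LKP.N1
import Pool.Agent.H25.LKP.N3

/-!
# N4: the step

`V ∋ n`, `v ∈ ℤ^ι`, `w ∈ V`, `|v - w| ≤ 1/T`. Let `q ≥ 1` be a common denominator of `w`, `u = q (v - w) ∈ ℤ^ι`, `U = ⌊q/T⌋`, `e = u + U ∈ [0, 2U]`.
`twist u ν` is the Haar measure of `V ⊔ line u = V ⊔ line v` (`q v = u + q w`), and the shift by `U` does not change `|FF|`. For fixed `y` the
polynomial `P = PP a y e` has degree `≤ 2U ≤ 2q/T`; `‖P(ζ^j)‖ = ‖FF a (y + (j/q) u)‖`, `ζ = exp (2πi/q)`, and `(j/q) u = j v - j w` is translation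
by `- j w`, which preserves `ν`. `pl1`, `pl2`, `pl3` and `small_values`, `Lm_twist`.
-/

set_option autoImplicit false

namespace H25.LKP

open MeasureTheory Polynomial

theorem FF_cont {ι : Type} [Fintype ι] (a : ι → ℤ) :
    Continuous fun y : ι → UnitAddCircle => FF a y := by
  unfold FF
  apply continuous_finsetSum
  intro i _
  apply continuous_const.mul
  exact continuous_subtype_val.comp (AddCircle.continuous_toCircle.comp (continuous_apply i))

theorem log_FF_meas {ι : Type} [Fintype ι] (a : ι → ℤ) :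
    Measurable fun y : ι → UnitAddCircle => Real.log ‖FF a y‖ :=
  Real.measurable_log.comp (FF_cont a).norm.measurable

theorem Lm_twist_eq {ι : Type} [Fintype ι] (a : ι → ℤ) (v : ι → ℤ)
    (ν : Measure (ι → UnitAddCircle)) :
    Lm a (twist v ν) = ∫ p, Real.log ‖FF a (fun i => p.1 i + v i • p.2)‖
      ∂(ν.prod AddCircle.haarAddCircle) := by
  unfold Lm twist
  rw [integral_map (twist_cont _).measurable.aemeasurable (log_FF_meas a).aestronglyMeasurable]

theorem norm_FF_shift {ι : Type} [Fintype ι] (a : ι → ℤ) (y : ι → UnitAddCircle)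
    (s : UnitAddCircle) : ‖FF a (fun i => y i + s)‖ = ‖FF a y‖ := by
  have h2 : FF a (fun i => y i + s) = (AddCircle.toCircle s : ℂ) * FF a y := by
    unfold FF
    rw [Finset.mul_sum]
    refine Finset.sum_congr rfl fun i _ => ?_
    rw [AddCircle.toCircle_add, Circle.coe_mul]
    ring
  rw [h2, norm_mul, Circle.norm_coe, one_mul]

/-- a common denominator -/
theorem common_den {ι : Type} [Fintype ι] (w : ι → ℚ) :
    ∃ q : ℕ, 0 < q ∧ ∃ W : ι → ℤ, ∀ i, (q : ℚ) * w i = W i := by
  classical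
  refine ⟨∏ i, (w i).den, Finset.prod_pos fun i _ => (w i).den_pos,
    fun i => ((∏ j ∈ Finset.univ.erase i, (w j).den : ℕ) : ℤ) * (w i).num, ?_⟩
  intro i
  have h1 : (∏ j, (w j).den) = (w i).den * ∏ j ∈ Finset.univ.erase i, (w j).den :=
    (Finset.mul_prod_erase _ _ (Finset.mem_univ i)).symm
  rw [h1]
  push_cast
  have h2 : ((w i).den : ℚ) * w i = (w i).num := Rat.den_mul_eq_num (w i)
  calc ((w i).den : ℚ) * (∏ j ∈ Finset.univ.erase i, ((w j).den : ℚ)) * w i =
      (∏ j ∈ Finset.univ.erase i, ((w j).den : ℚ)) * (((w i).den : ℚ) * w i) := by ring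
    _ = _ := by rw [h2]

/-- the polynomial at the roots of unity, and the perturbation -/
theorem PP_perturb {ι : Type} [Fintype ι] (a : ι → ℤ) (y : ι → UnitAddCircle) (e : ι → ℕ)
    (q : ℕ) (he : ∀ i, e i ≤ 2 * q) (L ρ : ℝ) (hL : ∑ i, |(a i : ℝ)| ≤ L) (hρ : 0 ≤ ρ)
    (z s : ℂ) (hz : ‖z‖ = 1) (hs : ∀ m : ℕ, m ≤ 2 * q → ‖s ^ m - 1‖ ≤ 6 * ρ) :
    ‖(PP a y e).eval (z * s)‖ ≤ ‖(PP a y e).eval z‖ + 6 * ρ * L := by
  have hev : ∀ x : ℂ, (PP a y e).eval x =
      ∑ i, (a i : ℂ) * (AddCircle.toCircle (y i) : ℂ) * x ^ e i := by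
    intro x
    unfold PP
    rw [eval_finsetSum]
    refine Finset.sum_congr rfl fun i _ => ?_
    rw [eval_monomial]
  have h1 : (PP a y e).eval (z * s) - (PP a y e).eval z =
      ∑ i, (a i : ℂ) * (AddCircle.toCircle (y i) : ℂ) * z ^ e i * (s ^ e i - 1) := by
    rw [hev, hev, ← Finset.sum_sub_distrib]
    refine Finset.sum_congr rfl fun i _ => ?_
    rw [mul_pow]
    ring
  have h2 : ‖(PP a y e).eval (z * s) - (PP a y e).eval z‖ ≤ 6 * ρ * L := by
    rw [h1]
    refine (norm_sum_le _ _).trans ?_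
    calc ∑ i, ‖(a i : ℂ) * (AddCircle.toCircle (y i) : ℂ) * z ^ e i * (s ^ e i - 1)‖
        ≤ ∑ i, |(a i : ℝ)| * (6 * ρ) := by
          refine Finset.sum_le_sum fun i _ => ?_
          rw [norm_mul, norm_mul, norm_mul, norm_pow, hz, one_pow, mul_one, Circle.norm_coe,
            mul_one]
          have h3 : ‖((a i : ℤ) : ℂ)‖ = |(a i : ℝ)| := by
            simp
          rw [h3]
          exact mul_le_mul_of_nonneg_left (hs _ (he i)) (abs_nonneg _)
      _ = (∑ i, |(a i : ℝ)|) * (6 * ρ) := by rw [Finset.sum_mul]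
      _ ≤ L * (6 * ρ) := mul_le_mul_of_nonneg_right hL (by positivity)
      _ = 6 * ρ * L := by ring
  have h3 : (PP a y e).eval (z * s) =
      (PP a y e).eval z + ((PP a y e).eval (z * s) - (PP a y e).eval z) := by ring
  rw [h3]
  exact (norm_add_le _ _).trans (by linarith)

theorem step {ι : Type} [Fintype ι] [Nonempty ι] (a : ι → ℤ) (ha : ∀ i, a i ≠ 0)
    {V : Submodule ℚ (ι → ℚ)} {ν ν' : Measure (ι → UnitAddCircle)} (h : IsHaar V ν) (n : ι → ℕ)
    (hn : Function.Injective n) (hnV : (fun i => (n i : ℚ)) ∈ V) (t : ℕ) (ht : 0 < t)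
    (hι : Fintype.card ι ≤ t + 1) (L : ℝ) (hL : ∑ i, |(a i : ℝ)| ≤ L)
    (v : ι → ℤ) (w : ι → ℚ) (hw : w ∈ V) (T : ℝ) (hT : 1 ≤ T)
    (hvw : ∀ i, |(v i : ℝ) - (w i : ℝ)| ≤ 1 / T) (h' : IsHaar (V ⊔ line v) ν')
    (ρ : ℝ) (hρ : 0 < ρ) (hρ4 : ρ ≤ 1 / 4) :
    |Lm a ν' - Lm a ν| ≤ Err t L ρ T := by
  have hprob := h.1
  obtain ⟨q, hq, W, hW⟩ := common_den w
  have hq0 : (0 : ℝ) < q := by exact_mod_cast hq
  have hqq : (q : ℚ) ≠ 0 := by
    have : (0 : ℚ) < q := by exact_mod_cast hq
    exact this.ne'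
  have hT0 : 0 < T := by linarith
  -- the vector `u`
  obtain ⟨u, hu⟩ : ∃ u : ι → ℤ, ∀ i, u i = q * v i - W i := ⟨_, fun _ => rfl⟩
  have huQ : ∀ i, (u i : ℚ) = q * (v i - w i) := by
    intro i
    rw [hu i]
    push_cast
    rw [← hW i]
    ring
  have huR : ∀ i, (u i : ℝ) = q * (v i - w i) := by
    intro i
    have := huQ i
    exact_mod_cast congrArg (fun x : ℚ => (x : ℝ)) this
  have hub : ∀ i, |(u i : ℝ)| ≤ q / T := by
    intro i
    rw [huR i, abs_mul, abs_of_pos hq0]
    calc (q : ℝ) * |(v i : ℝ) - (w i : ℝ)| ≤ q * (1 / T) :=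
          mul_le_mul_of_nonneg_left (hvw i) hq0.le
      _ = q / T := by ring
  obtain ⟨U, hUdef⟩ : ∃ U : ℕ, U = ⌊(q : ℝ) / T⌋₊ := ⟨_, rfl⟩
  have hU1 : (U : ℝ) ≤ q / T := by
    rw [hUdef]
    exact Nat.floor_le (by positivity)
  have hU2 : ∀ i, |u i| ≤ (U : ℤ) := by
    intro i
    have h1 : ((u i).natAbs : ℝ) ≤ q / T := by
      have h2 := hub i
      have h3 : ((u i).natAbs : ℝ) = |(u i : ℝ)| := by
        rw [Nat.cast_natAbs]
        push_cast
        rfl
      rw [h3]
      exact h2
    have h4 : (u i).natAbs ≤ U := by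
      rw [hUdef]
      exact Nat.le_floor h1
    rw [Int.abs_eq_natAbs]
    exact_mod_cast h4
  obtain ⟨e, he⟩ : ∃ e : ι → ℕ, ∀ i, (e i : ℤ) = u i + U := by
    refine ⟨fun i => (u i + U).toNat, fun i => ?_⟩
    have h1 := abs_le.1 (hU2 i)
    exact Int.toNat_of_nonneg (by omega)
  have heU : ∀ i, e i ≤ 2 * U := by
    intro i
    have h1 := abs_le.1 (hU2 i)
    have h2 := he i
    omega
  have hUq : U ≤ q := by
    have h1 : (U : ℝ) ≤ q := by
      refine hU1.trans ?_
      rw [div_le_iff₀ hT0]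
      nlinarith
    exact_mod_cast h1
  have heq : ∀ i, e i ≤ 2 * q := fun i => (heU i).trans (by omega)
  -- the subspace
  have hsup : V ⊔ line u = V ⊔ line v := by
    apply le_antisymm
    · refine sup_le le_sup_left ?_
      unfold line
      rw [Submodule.span_singleton_le_iff_mem]
      have h1 : (fun i => (u i : ℚ)) = (q : ℚ) • (fun i => (v i : ℚ)) + (-(q : ℚ)) • w := by
        funext i
        simp only [Pi.add_apply, Pi.smul_apply, smul_eq_mul]
        rw [huQ i]
        ring
      rw [h1]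
      apply Submodule.add_mem
      · exact Submodule.smul_mem _ _
          (Submodule.mem_sup_right (Submodule.mem_span_singleton_self _))
      · exact Submodule.smul_mem _ _ (Submodule.mem_sup_left hw)
    · refine sup_le le_sup_left ?_
      unfold line
      rw [Submodule.span_singleton_le_iff_mem]
      have h1 : (fun i => (v i : ℚ)) = (q : ℚ)⁻¹ • (fun i => (u i : ℚ)) + w := by
        funext i
        simp only [Pi.add_apply, Pi.smul_apply, smul_eq_mul]
        rw [huQ i]
        field_simp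
        ring
      rw [h1]
      apply Submodule.add_mem
      · exact Submodule.smul_mem _ _
          (Submodule.mem_sup_right (Submodule.mem_span_singleton_self _))
      · exact Submodule.mem_sup_left hw
  have hν' : ν' = twist u ν := by
    have h1 := haar_twist h u
    rw [hsup] at h1
    exact haar_unique h' h1
  have hLm' : Lm a ν' = Lm a (twist (fun i => (e i : ℤ)) ν) := by
    rw [hν', Lm_twist_eq, Lm_twist_eq]
    congr 1
    funext p
    congr 1
    have h1 : (fun i => p.1 i + (e i : ℤ) • p.2) =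
        fun i => (fun i => p.1 i + u i • p.2) i + (U : ℤ) • p.2 := by
      funext i
      rw [he i, add_smul]
      exact (add_assoc _ _ _).symm
    rw [h1, norm_FF_shift]
  obtain ⟨hMint, hM⟩ := Lm_twist a ha h n hn hnV t ht hι e
  rw [← hLm'] at hM
  -- the root of unity
  obtain ⟨ζ, hζdef⟩ : ∃ ζ : ℂ, ζ = (AddCircle.toCircle (((1 / q : ℝ)) : UnitAddCircle) : ℂ) :=
    ⟨_, rfl⟩
  have hζ : IsPrimitiveRoot ζ q := by
    have h1 : ζ = Complex.exp (2 * Real.pi * Complex.I / q) := by
      rw [hζdef, AddCircle.toCircle_apply_mk, Circle.coe_exp]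
      congr 1
      push_cast
      ring
    rw [h1]
    exact Complex.isPrimitiveRoot_exp q hq.ne'
  have hζ1 : ∀ j : ℕ, ‖ζ ^ j‖ = 1 := by
    intro j
    rw [norm_pow, hζdef, Circle.norm_coe, one_pow]
  have hPζ : ∀ (y : ι → UnitAddCircle) (j : ℕ), ‖(PP a y e).eval (ζ ^ j)‖ =
      ‖FF a (fun i => y i + (((-(j : ℚ) * w i : ℚ) : ℝ) : UnitAddCircle))‖ := by
    intro y j
    have h1 : ζ ^ j = (AddCircle.toCircle (j • (((1 / q : ℝ)) : UnitAddCircle)) : ℂ) := by
      rw [AddCircle.toCircle_nsmul, hζdef, Circle.coe_pow]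
    rw [h1, ← FF_twist]
    have h2 : (fun i => y i + (e i : ℤ) • (j • (((1 / q : ℝ)) : UnitAddCircle))) =
        fun i => (fun i => y i + (((-(j : ℚ) * w i : ℚ) : ℝ) : UnitAddCircle)) i +
          ((((U : ℝ) * j / q : ℝ)) : UnitAddCircle) := by
      funext i
      show y i + (e i : ℤ) • (j • (((1 / q : ℝ)) : UnitAddCircle)) =
        y i + (((-(j : ℚ) * w i : ℚ) : ℝ) : UnitAddCircle) + ((((U : ℝ) * j / q : ℝ)) : UnitAddCircle)
      rw [add_assoc]
      congr 1
      have h3 : (e i : ℤ) • (j • (((1 / q : ℝ)) : UnitAddCircle)) =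
          (((e i : ℝ) * (j * (1 / q)) : ℝ) : UnitAddCircle) := by
        have h4 : (j • (((1 / q : ℝ)) : UnitAddCircle)) =
            ((((j : ℝ) * (1 / q) : ℝ)) : UnitAddCircle) := by
          rw [← nsmul_eq_mul]
          rfl
        rw [h4]
        have h5 : ((e i : ℝ) * (j * (1 / q)) : ℝ) = (e i : ℤ) • ((j : ℝ) * (1 / q)) := by
          rw [zsmul_eq_mul]
          push_cast
          ring
        rw [h5]
        rfl
      rw [h3, ← AddCircle.coe_add]
      have h6 : (e i : ℝ) * (j * (1 / q)) =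
          ((-(j : ℚ) * w i : ℚ) : ℝ) + (U : ℝ) * j / q + ((j * v i : ℤ) : ℝ) := by
        have h7 : (e i : ℝ) = u i + U := by exact_mod_cast he i
        rw [h7, huR i]
        push_cast
        field_simp
        ring
      rw [h6, AddCircle.coe_add]
      have h8 : ((((j * v i : ℤ) : ℝ)) : UnitAddCircle) = 0 := by
        rw [AddCircle.coe_eq_zero_iff]
        exact ⟨j * v i, by simp⟩
      rw [h8, add_zero]
    rw [h2, norm_FF_shift]
  -- invariance
  have hinv : ∀ (j : ℕ) (G : ℝ → ℝ), Measurable G →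
      ∫ y, G ‖(PP a y e).eval (ζ ^ j)‖ ∂ν = ∫ y, G ‖FF a y‖ ∂ν := by
    intro j G hG
    have hmem : (fun i => -(j : ℚ) * w i) ∈ V := V.smul_mem (-(j : ℚ)) hw
    have h1 := haar_translate h _ hmem
    have hm : Measurable (fun (y : ι → UnitAddCircle) i =>
        y i + (((-(j : ℚ) * w i : ℚ) : ℝ) : UnitAddCircle)) := by
      apply Continuous.measurable
      apply continuous_pi
      intro i
      exact (continuous_apply i).add continuous_const
    have hGm : Measurable fun y : ι → UnitAddCircle => G ‖FF a y‖ :=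
      hG.comp (FF_cont a).norm.measurable
    simp_rw [hPζ]
    conv_rhs => rw [← h1]
    rw [integral_map hm.aemeasurable hGm.aestronglyMeasurable]
  have hintinv : ∀ (j : ℕ) (G : ℝ → ℝ), Measurable G → Integrable (fun y => G ‖FF a y‖) ν →
      Integrable (fun y => G ‖(PP a y e).eval (ζ ^ j)‖) ν := by
    intro j G hG hGi
    have hmem : (fun i => -(j : ℚ) * w i) ∈ V := V.smul_mem (-(j : ℚ)) hw
    have h1 := haar_translate h _ hmem
    have hm : Measurable (fun (y : ι → UnitAddCircle) i =>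
        y i + (((-(j : ℚ) * w i : ℚ) : ℝ) : UnitAddCircle)) := by
      apply Continuous.measurable
      apply continuous_pi
      intro i
      exact (continuous_apply i).add continuous_const
    have hGm : Measurable fun y : ι → UnitAddCircle => G ‖FF a y‖ :=
      hG.comp (FF_cont a).norm.measurable
    simp_rw [hPζ]
    rw [← h1, integrable_map_measure hGm.aestronglyMeasurable hm.aemeasurable] at hGi
    exact hGi
  have haeinv : ∀ j : ℕ, ∀ᵐ y ∂ν, (PP a y e).eval (ζ ^ j) ≠ 0 := by
    intro j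
    have h0 := ae_ne a ha h n hn hnV
    have hmem : (fun i => -(j : ℚ) * w i) ∈ V := V.smul_mem (-(j : ℚ)) hw
    have h1 := haar_translate h _ hmem
    have hm : Measurable (fun (y : ι → UnitAddCircle) i =>
        y i + (((-(j : ℚ) * w i : ℚ) : ℝ) : UnitAddCircle)) := by
      apply Continuous.measurable
      apply continuous_pi
      intro i
      exact (continuous_apply i).add continuous_const
    rw [← h1] at h0
    have h2 := ae_of_ae_map hm.aemeasurable h0
    filter_upwards [h2] with y hy h3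
    apply hy
    rw [← norm_eq_zero, ← hPζ, h3, norm_zero]
  have hae : ∀ᵐ y ∂ν, ∀ j ∈ Finset.range q, (PP a y e).eval (ζ ^ j) ≠ 0 := by
    rw [Filter.eventually_all_finset]
    exact fun j _ => haeinv j
  have hlogi := integrable_log a ha h n hn hnV t ht hι
  have hdeg : ∀ y, (PP a y e).natDegree ≤ 2 * U := by
    intro y
    unfold PP
    refine natDegree_sum_le_of_forall_le _ _ ?_
    intro i _
    exact (natDegree_monomial_le _).trans (heU i)
  have hdq : ((2 * U : ℕ) : ℝ) ≤ q * (2 / T) := by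
    push_cast
    calc 2 * (U : ℝ) ≤ 2 * (q / T) := by linarith
      _ = q * (2 / T) := by ring
  have hlog1 : Real.log 2 ≤ Real.log ((1 + ρ) / ρ) := by
    apply Real.log_le_log (by norm_num)
    rw [le_div_iff₀ hρ]
    linarith
  have hlog0 : 0 ≤ Real.log 2 := Real.log_nonneg (by norm_num)
  have hlogr : 0 ≤ Real.log ((1 + ρ) / ρ) := hlog0.trans hlog1
  have hL0 : 0 < L := by
    obtain ⟨i⟩ := ‹Nonempty ι›
    have h1 : (1 : ℝ) ≤ |(a i : ℝ)| := by exact_mod_cast Int.one_le_abs (ha i)
    have h2 : |(a i : ℝ)| ≤ ∑ j, |(a j : ℝ)| :=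
      Finset.single_le_sum (f := fun j => |(a j : ℝ)|) (fun j _ => abs_nonneg _)
        (Finset.mem_univ i)
    linarith
  have hτ : 0 < 6 * ρ * L := by positivity
  have hGG : 0 ≤ Pool.Agent.H61.Sparse.GG t (6 * ρ * L) := by
    unfold Pool.Agent.H61.Sparse.GG
    positivity
  rw [abs_le]
  constructor
  · -- lower bound for `Lm a ν'`
    have h1 : ∫ y, ∑ j ∈ Finset.range q, Real.log ‖(PP a y e).eval (ζ ^ j)‖ ∂ν ≤
        ∫ y, (((2 * U : ℕ) : ℝ) * Real.log 2 + q * (PP a y e).logMahlerMeasure) ∂ν := by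
      apply integral_mono_ae
      · exact integrable_finsetSum _ fun j _ => hintinv j Real.log Real.measurable_log hlogi
      · exact (integrable_const _).add (hMint.const_mul _)
      · filter_upwards [hae] with y hy
        have h2 := pl1 (PP a y e) hq (hdeg y) ζ hζ
        have h3 : 0 < ∏ j ∈ Finset.range q, ‖(PP a y e).eval (ζ ^ j)‖ :=
          Finset.prod_pos fun j hj => norm_pos_iff.2 (hy j hj)
        have h4 := Real.log_le_log h3 h2
        have hMpos : 0 < (PP a y e).mahlerMeasure := by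
          have h5 : 0 < 2 ^ (2 * U) * (PP a y e).mahlerMeasure ^ q := lt_of_lt_of_le h3 h2
          have h6 : 0 < (PP a y e).mahlerMeasure ^ q := by
            by_contra hcon
            have h7 : (PP a y e).mahlerMeasure ^ q ≤ 0 := not_lt.1 hcon
            have h8 : 2 ^ (2 * U) * (PP a y e).mahlerMeasure ^ q ≤ 0 :=
              mul_nonpos_of_nonneg_of_nonpos (by positivity) h7
            linarith
          have h9 := mahlerMeasure_nonneg (PP a y e)
          rcases h9.eq_or_lt with h10 | h10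
          · rw [← h10, zero_pow hq.ne'] at h6
            exact absurd h6 (lt_irrefl _)
          · exact h10
        rw [Real.log_prod (fun j hj => norm_ne_zero_iff.2 (hy j hj)),
          Real.log_mul (by positivity) (by positivity), Real.log_pow, Real.log_pow,
          ← logMahlerMeasure_eq_log_MahlerMeasure] at h4
        exact h4
    rw [integral_finsetSum _ fun j _ => hintinv j Real.log Real.measurable_log hlogi,
      integral_add (integrable_const _) (hMint.const_mul _), integral_const,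
      integral_const_mul _ (fun y => (PP a y e).logMahlerMeasure), ← hM] at h1
    simp only [hinv _ Real.log Real.measurable_log] at h1
    rw [Finset.sum_const, Finset.card_range, nsmul_eq_mul] at h1
    simp only [probReal_univ, one_smul] at h1
    have h2 : q * Lm a ν ≤ ((2 * U : ℕ) : ℝ) * Real.log 2 + q * Lm a ν' := h1
    have h3 : ((2 * U : ℕ) : ℝ) * Real.log 2 ≤ q * (2 / T) * Real.log ((1 + ρ) / ρ) :=
      mul_le_mul hdq hlog1 hlog0 (by positivity)
    have h4 : q * (Lm a ν - Lm a ν') ≤ q * (2 / T * Real.log ((1 + ρ) / ρ)) := by linarith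
    have h5 := le_of_mul_le_mul_left h4 hq0
    unfold Err
    linarith
  · -- upper bound
    obtain ⟨hsi, hs⟩ := small_values a ha h n hn hnV t ht hι (6 * ρ * L) hτ
    have hmeas : Measurable fun x : ℝ => Real.log (x + 6 * ρ * L) :=
      Real.measurable_log.comp (measurable_id.add_const _)
    have h1 : ∫ y, (q : ℝ) * (PP a y e).logMahlerMeasure ∂ν ≤
        ∫ y, (((2 * U : ℕ) : ℝ) * Real.log ((1 + ρ) / ρ) +
          ∑ j ∈ Finset.range q, Real.log (‖(PP a y e).eval (ζ ^ j)‖ + 6 * ρ * L)) ∂ν := by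
      apply integral_mono_ae
      · exact hMint.const_mul _
      · exact (integrable_const _).add (integrable_finsetSum _ fun j _ => hintinv j _ hmeas hsi)
      · filter_upwards [hae] with y hy
        have hP0 : PP a y e ≠ 0 := by
          intro h0
          apply hy 0 (Finset.mem_range.2 hq)
          rw [h0, eval_zero]
        have hMpos := mahlerMeasure_pos_of_ne_zero hP0
        have h2 := pl2 (PP a y e) hq (hdeg y) ζ hζ ρ (6 * ρ * L) hρ ?_
        · have h3 := Real.log_le_log (by positivity) h2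
          rw [Real.log_pow, Real.log_mul (by positivity)
            (Finset.prod_pos fun j _ => by positivity).ne', Real.log_pow,
            Real.log_prod (fun j _ => by positivity),
            ← logMahlerMeasure_eq_log_MahlerMeasure] at h3
          exact h3
        · intro x hx
          obtain ⟨s, hs1, hs2⟩ := pl3 hq ρ hρ4 x hx
          exact ⟨s, hs1, fun j => PP_perturb a y e q heq L ρ hL hρ.le (ζ ^ j) s (hζ1 j) hs2⟩
    rw [integral_const_mul, ← hM, integral_add (integrable_const _)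
      (integrable_finsetSum _ fun j _ => hintinv j _ hmeas hsi),
      integral_finsetSum _ fun j _ => hintinv j _ hmeas hsi] at h1
    have h2 : ∀ j ∈ Finset.range q, ∫ y, Real.log (‖(PP a y e).eval (ζ ^ j)‖ + 6 * ρ * L) ∂ν =
        ∫ y, Real.log (‖FF a y‖ + 6 * ρ * L) ∂ν := fun j _ =>
      hinv j (fun x => Real.log (x + 6 * ρ * L)) hmeas
    rw [Finset.sum_congr rfl h2, Finset.sum_const, Finset.card_range, nsmul_eq_mul,
      integral_const] at h1
    simp only [probReal_univ, one_smul] at h1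
    have h3 : ((2 * U : ℕ) : ℝ) * Real.log ((1 + ρ) / ρ) ≤
        q * (2 / T) * Real.log ((1 + ρ) / ρ) := mul_le_mul_of_nonneg_right hdq hlogr
    have h4 : q * (Lm a ν' - Lm a ν) ≤
        q * (Pool.Agent.H61.Sparse.GG t (6 * ρ * L) + 2 / T * Real.log ((1 + ρ) / ρ)) := by
      nlinarith
    exact le_of_mul_le_mul_left h4 hq0

end H25.LKP
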