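import Pool.Agent.H25.LKP.Defs

/-!
# N5: if no integer vector outside `V` is near `V` then `V^⊥` is spanned by short integer vectors

PROOF (no lattices). Let `x` be killed by all short `c ⟂ V`, `k` the number of coordinates, `M + 2 > 2 k T`, `α = π / (M + 2)`, `δ = 9 / (20 T)`.

* Kernel: `C(u) = ∏ win (u_i)`, `win j = sin (π (j + 1) / (M + 2))` for `0 ≤ j ≤ M`, so that `win (j + 1) + win (j - 1) ≥ 2 cos α win j` on `ℤ`. Let
  `G(y) = |∑_u C(u) e(u·y)|² = ∑_{u,u'} C(u) C(u') cos (2 π (u - u')·y)`. The Fourier coefficients of `(∑_i 2 cos (2 π y_i) - 2 k cos α) G(y)` are `≥ 0`.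
* For a rational `s` average `(∑_i cos (2 π y_i) - (k - 1) - cos (2 π δ)) G(y)` over `y_t = s x + (t / N) w`, `t < N`, `w ∈ V` integral and generic: only the
  frequencies `c ⟂ V` remain, there `c · x = 0`, so the mean is at least `(1 - cos (2 π δ) - k (1 - cos α)) · (mean of G) > 0`. Hence some `y_t` has all its
  coordinates within `δ` of integers: for every `s` there are `w ∈ V`, `v ∈ ℤ^k` with `|s x + w - v| ≤ δ`.
* If `x ∉ V`, take the first `s = j h`, `h |x_i| ≤ 1 / (10 T)`, for which `s x` is not within `δ` of `V`. Then `v ∉ V` and `v` is within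
  `2 δ + 1 / (10 T) = 1 / T` of `V`: contradiction.
-/

set_option autoImplicit false

namespace H25.LKP

open Finset

/-! ### integral vectors -/

theorem exists_int_mul {ι : Type} [Fintype ι] (x : ι → ℚ) :
    ∃ (D : ℕ) (z : ι → ℤ), 0 < D ∧ ∀ i, (z i : ℚ) = D * x i := by
  have hex : ∀ i, ∃ z : ℤ, (z : ℚ) = ((∏ j, (x j).den : ℕ) : ℚ) * x i := by
    intro i
    obtain ⟨q, hq⟩ : (x i).den ∣ ∏ j, (x j).den := Finset.dvd_prod_of_mem _ (Finset.mem_univ i)
    refine ⟨q * (x i).num, ?_⟩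
    have h3 : ((x i).den : ℚ) * x i = (x i).num := Rat.den_mul_eq_num (x i)
    rw [hq]
    push_cast
    rw [← h3]
    ring
  choose z hz using hex
  exact ⟨∏ j, (x j).den, z, Finset.prod_pos fun j _ => (x j).den_pos, hz⟩

theorem exists_int_vec {ι : Type} [Fintype ι] (V : Submodule ℚ (ι → ℚ)) (c : ι → ℤ)
    (h : ¬ Orth V c) : ∃ z : ι → ℤ, (fun i => (z i : ℚ)) ∈ V ∧ ∑ i, c i * z i ≠ 0 := by
  unfold Orth at h
  push Not at h
  obtain ⟨x, hx, hc⟩ := h
  obtain ⟨D, z, hD, hz⟩ := exists_int_mul x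
  refine ⟨z, ?_, ?_⟩
  · have : (fun i => (z i : ℚ)) = (D : ℚ) • x := by
      funext i
      rw [hz i]
      rfl
    rw [this]
    exact V.smul_mem _ hx
  · intro h0
    apply hc
    have h1 : (∑ i, (c i : ℚ) * (z i : ℚ)) = 0 := by exact_mod_cast h0
    have h2 : (D : ℚ) * ∑ i, (c i : ℚ) * x i = 0 := by
      rw [← h1, Finset.mul_sum]
      exact Finset.sum_congr rfl fun i _ => by rw [hz i]; ring
    rcases mul_eq_zero.1 h2 with h3 | h3
    · exact absurd (by exact_mod_cast h3) hD.ne'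
    · exact h3

/-- a generic vector of `V` -/
theorem exists_generic {ι : Type} [Fintype ι] (V : Submodule ℚ (ι → ℚ)) (S : Finset (ι → ℤ)) :
    ∃ w : ι → ℤ, (fun i => (w i : ℚ)) ∈ V ∧ ∀ c ∈ S, ∑ i, c i * w i = 0 → Orth V c := by
  classical
  induction S using Finset.induction_on with
  | empty =>
    refine ⟨0, ?_, by simp⟩
    have : (fun i => (((0 : ι → ℤ) i : ℤ) : ℚ)) = (0 : ι → ℚ) := by
      funext i
      simp
    rw [this]
    exact V.zero_mem
  | insert c₀ S _ ih =>
    obtain ⟨w, hw, hS⟩ := ih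
    by_cases h0 : ∑ i, c₀ i * w i = 0 ∧ ¬ Orth V c₀
    · obtain ⟨h0, h1⟩ := h0
      obtain ⟨z, hz, hcz⟩ := exists_int_vec V c₀ h1
      set K : ℤ := 1 + ∑ c ∈ S, |∑ i, c i * z i| with hK
      have hlin : ∀ c : ι → ℤ, ∑ i, c i * (K * w i + z i) =
          K * ∑ i, c i * w i + ∑ i, c i * z i := by
        intro c
        rw [Finset.mul_sum, ← Finset.sum_add_distrib]
        exact Finset.sum_congr rfl fun i _ => by ring
      refine ⟨fun i => K * w i + z i, ?_, ?_⟩
      · have : (fun i => ((K * w i + z i : ℤ) : ℚ)) =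
            (K : ℚ) • (fun i => (w i : ℚ)) + fun i => (z i : ℚ) := by
          funext i
          push_cast
          rfl
        rw [this]
        exact V.add_mem (V.smul_mem _ hw) hz
      · intro c hc h2
        rw [hlin c] at h2
        rcases Finset.mem_insert.1 hc with rfl | hc
        · rw [h0, mul_zero, zero_add] at h2
          exact absurd h2 hcz
        · by_cases h3 : ∑ i, c i * w i = 0
          · exact hS c hc h3
          · exfalso
            have h4 : |∑ i, c i * z i| < K := by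
              have h40 : |∑ i, c i * z i| ≤ ∑ c ∈ S, |∑ i, c i * z i| :=
                Finset.single_le_sum (f := fun c : ι → ℤ => |∑ i, c i * z i|)
                  (fun _ _ => abs_nonneg _) hc
              omega
            have h5 : K * ∑ i, c i * w i = -∑ i, c i * z i := by omega
            have h6 : K * |∑ i, c i * w i| = |∑ i, c i * z i| := by
              have hK0 : 0 ≤ K := (abs_nonneg _).trans h4.le
              calc K * |∑ i, c i * w i| = |K| * |∑ i, c i * w i| := by rw [abs_of_nonneg hK0]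
                _ = |K * ∑ i, c i * w i| := (abs_mul _ _).symm
                _ = |∑ i, c i * z i| := by rw [h5, abs_neg]
            have h7 : 1 ≤ |∑ i, c i * w i| := Int.one_le_abs h3
            have hK0 : 0 ≤ K := (abs_nonneg _).trans h4.le
            nlinarith
    · refine ⟨w, hw, ?_⟩
      intro c hc h2
      rcases Finset.mem_insert.1 hc with rfl | hc
      · by_contra h3
        exact h0 ⟨h2, h3⟩
      · exact hS c hc h2

/-! ### means of cosines -/

theorem sum_cos_eq_zero (N : ℕ) (hN : 0 < N) (m : ℤ) (hm : |m| < N) (hm0 : m ≠ 0) (β : ℝ) :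
    ∑ t ∈ Finset.range N, Real.cos (2 * Real.pi * (β + t * m / N)) = 0 := by
  have hNC : (N : ℂ) ≠ 0 := by exact_mod_cast hN.ne'
  set ζ : ℂ := Complex.exp (2 * Real.pi * (m / N) * Complex.I) with hζ
  have h1 : ζ ^ N = 1 := by
    rw [hζ, ← Complex.exp_nat_mul, Complex.exp_eq_one_iff]
    refine ⟨m, ?_⟩
    field_simp
  have h2 : ζ ≠ 1 := by
    rw [hζ, Ne, Complex.exp_eq_one_iff]
    rintro ⟨n, hn⟩
    have h3 : (m : ℂ) / N = n := by
      have h4 : (2 * Real.pi * Complex.I : ℂ) ≠ 0 := Complex.two_pi_I_ne_zero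
      apply mul_right_cancel₀ h4
      rw [← hn]
      ring
    have h5 : (m : ℂ) = n * N := by
      rw [← h3]
      field_simp
    have h6 : m = n * N := by exact_mod_cast h5
    have hn0 : n ≠ 0 := by
      rintro rfl
      simp at h6
      exact hm0 h6
    have h7 : 1 ≤ |n| := Int.one_le_abs hn0
    rw [h6, abs_mul] at hm
    have h8 : |(N : ℤ)| = N := abs_of_nonneg (by positivity)
    rw [h8] at hm
    have hN' : (0 : ℤ) < N := by exact_mod_cast hN
    nlinarith
  have h3 : ∑ t ∈ Finset.range N, ζ ^ t = 0 := by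
    have h4 := geom_sum_mul ζ N
    rw [h1, sub_self] at h4
    rcases mul_eq_zero.1 h4 with h5 | h5
    · exact h5
    · exact absurd (sub_eq_zero.1 h5) h2
  have h4 : ∀ t : ℕ, Real.cos (2 * Real.pi * (β + t * m / N)) =
      (Complex.exp (2 * Real.pi * β * Complex.I) * ζ ^ t).re := by
    intro t
    rw [hζ, ← Complex.exp_nat_mul, ← Complex.exp_add]
    have h5 : (2 * Real.pi * β * Complex.I + t * (2 * Real.pi * (m / N) * Complex.I) : ℂ) =
        ((2 * Real.pi * (β + t * m / N) : ℝ) : ℂ) * Complex.I := by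
      push_cast
      ring
    rw [h5, Complex.exp_ofReal_mul_I_re]
  simp_rw [h4]
  rw [← Complex.re_sum, ← Finset.mul_sum, h3, mul_zero, Complex.zero_re]

/-! ### the window -/

/-- the window -/
noncomputable def win (M : ℕ) (j : ℤ) : ℝ :=
  if 0 ≤ j ∧ j ≤ M then Real.sin (Real.pi * (j + 1) / (M + 2)) else 0

theorem win_eq (M : ℕ) (j : ℤ) (h1 : -1 ≤ j) (h2 : j ≤ M + 1) :
    win M j = Real.sin (Real.pi * (j + 1) / (M + 2)) := by
  unfold win
  have hM : ((M : ℝ) + 2) ≠ 0 := by positivity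
  by_cases h : 0 ≤ j ∧ j ≤ M
  · rw [if_pos h]
  · rw [if_neg h]
    have : j = -1 ∨ j = M + 1 := by omega
    rcases this with rfl | rfl
    · simp
    · push_cast
      have : Real.pi * ((M : ℝ) + 1 + 1) / (M + 2) = Real.pi := by
        field_simp
        ring
      rw [this, Real.sin_pi]

theorem win_nonneg (M : ℕ) (j : ℤ) : 0 ≤ win M j := by
  unfold win
  split_ifs with h
  · have h0 : (0 : ℝ) ≤ j := by exact_mod_cast h.1
    have h1 : (j : ℝ) ≤ M := by exact_mod_cast h.2
    apply Real.sin_nonneg_of_nonneg_of_le_pi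
    · positivity
    · rw [div_le_iff₀ (by positivity)]
      apply mul_le_mul_of_nonneg_left _ Real.pi_pos.le
      linarith
  · exact le_rfl

theorem win_zero_pos (M : ℕ) : 0 < win M 0 := by
  rw [win_eq M 0 (by norm_num) (by positivity)]
  apply Real.sin_pos_of_pos_of_lt_pi
  · push_cast
    positivity
  · push_cast
    rw [div_lt_iff₀ (by positivity)]
    apply mul_lt_mul_of_pos_left _ Real.pi_pos
    have : (0 : ℝ) ≤ M := Nat.cast_nonneg M
    linarith

theorem win_super (M : ℕ) (j : ℤ) :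
    2 * Real.cos (Real.pi / (M + 2)) * win M j ≤ win M (j + 1) + win M (j - 1) := by
  by_cases h : 0 ≤ j ∧ j ≤ M
  · rw [win_eq M j (by omega) (by omega), win_eq M (j + 1) (by omega) (by omega),
      win_eq M (j - 1) (by omega) (by omega)]
    have h1 : Real.pi * (((j + 1 : ℤ) : ℝ) + 1) / (M + 2) =
        Real.pi * ((j : ℝ) + 1) / (M + 2) + Real.pi / (M + 2) := by
      push_cast
      ring
    have h2 : Real.pi * (((j - 1 : ℤ) : ℝ) + 1) / (M + 2) =
        Real.pi * ((j : ℝ) + 1) / (M + 2) - Real.pi / (M + 2) := by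
      push_cast
      ring
    rw [h1, h2, Real.sin_add, Real.sin_sub]
    apply le_of_eq
    ring
  · have : win M j = 0 := by
      unfold win
      rw [if_neg h]
    rw [this, mul_zero]
    exact add_nonneg (win_nonneg _ _) (win_nonneg _ _)

/-- the kernel -/
noncomputable def CC {ι : Type} [Fintype ι] (M : ℕ) (u : ι → ℤ) : ℝ := ∏ i, win M (u i)

theorem CC_nonneg {ι : Type} [Fintype ι] (M : ℕ) (u : ι → ℤ) : 0 ≤ CC M u :=
  Finset.prod_nonneg fun i _ => win_nonneg M (u i)

theorem CC_shift {ι : Type} [Fintype ι] [DecidableEq ι] (M : ℕ) (u : ι → ℤ) (i : ι) (d : ℤ) :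
    CC M (u + Pi.single i d) = win M (u i + d) * ∏ j ∈ Finset.univ.erase i, win M (u j) := by
  unfold CC
  rw [← Finset.mul_prod_erase Finset.univ _ (Finset.mem_univ i)]
  congr 1
  · simp
  · refine Finset.prod_congr rfl fun j hj => ?_
    have : j ≠ i := Finset.ne_of_mem_erase hj
    simp [this]

theorem CC_super {ι : Type} [Fintype ι] [DecidableEq ι] (M : ℕ) (u : ι → ℤ) (i : ι) :
    2 * Real.cos (Real.pi / (M + 2)) * CC M u ≤
      CC M (u + Pi.single i 1) + CC M (u + Pi.single i (-1)) := by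
  have h0 : CC M u = win M (u i) * ∏ j ∈ Finset.univ.erase i, win M (u j) := by
    have := CC_shift M u i 0
    simpa using this
  rw [CC_shift, CC_shift, h0, ← add_mul, ← mul_assoc]
  apply mul_le_mul_of_nonneg_right _ (Finset.prod_nonneg fun j _ => win_nonneg M (u j))
  have := win_super M (u i)
  rwa [sub_eq_add_neg] at this

/-! ### the quadratic form -/

theorem CC_zero {ι : Type} [Fintype ι] [DecidableEq ι] (M : ℕ) (u : ι → ℤ)
    (hu : u ∉ Fintype.piFinset fun _ : ι => Finset.Icc (0 : ℤ) M) : CC M u = 0 := by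
  rw [Fintype.mem_piFinset] at hu
  push Not at hu
  obtain ⟨i, hi⟩ := hu
  unfold CC
  apply Finset.prod_eq_zero (Finset.mem_univ i)
  unfold win
  rw [if_neg]
  intro h
  exact hi (Finset.mem_Icc.2 h)

theorem sum_shift {ι : Type} [Fintype ι] [DecidableEq ι] (M : ℕ) (I : (ι → ℤ) → ℝ)
    (u' e : ι → ℤ) :
    ∑ u ∈ Fintype.piFinset (fun _ : ι => Finset.Icc (0 : ℤ) M), CC M u * I (u - u' - e) =
      ∑' u, CC M (u + e) * I (u - u') := by
  have h0 : ∑' u, CC M u * I (u - u' - e) =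
      ∑ u ∈ Fintype.piFinset (fun _ : ι => Finset.Icc (0 : ℤ) M), CC M u * I (u - u' - e) :=
    tsum_eq_sum fun u hu => by rw [CC_zero M u hu, zero_mul]
  rw [← h0]
  rw [← (Equiv.addRight e).tsum_eq fun u => CC M u * I (u - u' - e)]
  refine tsum_congr fun u => ?_
  simp only [Equiv.coe_addRight]
  congr 2
  abel

theorem summable_shift {ι : Type} [Fintype ι] [DecidableEq ι] (M : ℕ) (I : (ι → ℤ) → ℝ)
    (u' e : ι → ℤ) : Summable fun u => CC M (u + e) * I (u - u') := by
  have h : Summable fun u => CC M u * I (u - u' - e) :=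
    summable_of_ne_finset_zero (s := Fintype.piFinset fun _ : ι => Finset.Icc (0 : ℤ) M)
      fun u hu => by rw [CC_zero M u hu, zero_mul]
  have h2 := (Equiv.addRight e).summable_iff.2 h
  refine h2.congr fun u => ?_
  simp only [Function.comp, Equiv.coe_addRight]
  congr 2
  abel

theorem quad {ι : Type} [Fintype ι] [DecidableEq ι] (M : ℕ) (I : (ι → ℤ) → ℝ)
    (hI : ∀ c, 0 ≤ I c) (i : ι) (u' : ι → ℤ) :
    2 * Real.cos (Real.pi / (M + 2)) *
        ∑ u ∈ Fintype.piFinset (fun _ : ι => Finset.Icc (0 : ℤ) M), CC M u * I (u - u') ≤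
      ∑ u ∈ Fintype.piFinset (fun _ : ι => Finset.Icc (0 : ℤ) M),
        CC M u * (I (u - u' + Pi.single i 1) + I (u - u' - Pi.single i 1)) := by
  have h0 := sum_shift M I u' 0
  have h1 := sum_shift M I u' (Pi.single i 1)
  have h2 := sum_shift M I u' (Pi.single i (-1))
  have h3 : (Pi.single i (-1) : ι → ℤ) = -Pi.single i 1 := by
    rw [← Pi.single_neg]
  simp only [sub_zero, add_zero] at h0
  have h4 : ∑ u ∈ Fintype.piFinset (fun _ : ι => Finset.Icc (0 : ℤ) M),
      CC M u * (I (u - u' + Pi.single i 1) + I (u - u' - Pi.single i 1)) =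
      ∑' u, (CC M (u + Pi.single i 1) * I (u - u') + CC M (u + Pi.single i (-1)) * I (u - u')) := by
    rw [(summable_shift M I u' _).tsum_add (summable_shift M I u' _), ← h1, ← h2, h3,
      ← Finset.sum_add_distrib]
    refine Finset.sum_congr rfl fun u _ => ?_
    rw [sub_neg_eq_add]
    ring
  rw [h4, h0, ← tsum_mul_left]
  refine Summable.tsum_le_tsum (fun u => ?_) ?_ ?_
  · rw [← add_mul, ← mul_assoc]
    exact mul_le_mul_of_nonneg_right (CC_super M u i) (hI _)
  · have := summable_shift M I u' 0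
    simp only [add_zero] at this
    exact this.mul_left _
  · exact (summable_shift M I u' _).add (summable_shift M I u' _)

/-! ### the kernel lemma -/

/-- the inner product -/
noncomputable def ip {ι : Type} [Fintype ι] (c : ι → ℤ) (y : ι → ℝ) : ℝ := ∑ i, (c i : ℝ) * y i

/-- the square of the kernel -/
noncomputable def GK {ι : Type} [Fintype ι] [DecidableEq ι] (M : ℕ) (y : ι → ℝ) : ℝ :=
  ∑ u' ∈ Fintype.piFinset (fun _ : ι => Finset.Icc (0 : ℤ) M),
    ∑ u ∈ Fintype.piFinset (fun _ : ι => Finset.Icc (0 : ℤ) M),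
      CC M u' * (CC M u * Real.cos (2 * Real.pi * ip (u - u') y))

theorem ip_sub {ι : Type} [Fintype ι] (c d : ι → ℤ) (y : ι → ℝ) :
    ip (c - d) y = ip c y - ip d y := by
  unfold ip
  rw [← Finset.sum_sub_distrib]
  refine Finset.sum_congr rfl fun i _ => ?_
  simp only [Pi.sub_apply]
  push_cast
  ring

theorem ip_add {ι : Type} [Fintype ι] (c d : ι → ℤ) (y : ι → ℝ) :
    ip (c + d) y = ip c y + ip d y := by
  unfold ip
  rw [← Finset.sum_add_distrib]
  refine Finset.sum_congr rfl fun i _ => ?_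
  simp only [Pi.add_apply]
  push_cast
  ring

theorem ip_single {ι : Type} [Fintype ι] [DecidableEq ι] (i : ι) (y : ι → ℝ) :
    ip (Pi.single i 1) y = y i := by
  unfold ip
  rw [Finset.sum_eq_single i]
  · simp
  · intro j _ hj
    simp [hj]
  · simp

theorem GK_nonneg {ι : Type} [Fintype ι] [DecidableEq ι] (M : ℕ) (y : ι → ℝ) : 0 ≤ GK M y := by
  set B := Fintype.piFinset (fun _ : ι => Finset.Icc (0 : ℤ) M) with hB
  have h : GK M y = (∑ u ∈ B, CC M u * Real.cos (2 * Real.pi * ip u y)) ^ 2 +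
      (∑ u ∈ B, CC M u * Real.sin (2 * Real.pi * ip u y)) ^ 2 := by
    rw [sq, sq, Finset.sum_mul_sum, Finset.sum_mul_sum, ← Finset.sum_add_distrib]
    unfold GK
    refine Finset.sum_congr rfl fun u' _ => ?_
    rw [← Finset.sum_add_distrib]
    refine Finset.sum_congr rfl fun u _ => ?_
    rw [ip_sub, mul_sub, Real.cos_sub]
    ring
  rw [h]
  positivity

theorem GK_mul {ι : Type} [Fintype ι] [DecidableEq ι] (M : ℕ) (y : ι → ℝ) (i : ι) :
    2 * Real.cos (2 * Real.pi * y i) * GK M y =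
      ∑ u' ∈ Fintype.piFinset (fun _ : ι => Finset.Icc (0 : ℤ) M),
        ∑ u ∈ Fintype.piFinset (fun _ : ι => Finset.Icc (0 : ℤ) M),
          CC M u' * (CC M u * (Real.cos (2 * Real.pi * ip (u - u' + Pi.single i 1) y) +
            Real.cos (2 * Real.pi * ip (u - u' - Pi.single i 1) y))) := by
  unfold GK
  rw [Finset.mul_sum]
  refine Finset.sum_congr rfl fun u' _ => ?_
  rw [Finset.mul_sum]
  refine Finset.sum_congr rfl fun u _ => ?_
  have h1 : Real.cos (2 * Real.pi * ip (u - u' + Pi.single i 1) y) =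
      Real.cos (2 * Real.pi * ip (u - u') y + 2 * Real.pi * y i) := by
    rw [ip_add, ip_single]
    congr 1
    ring
  have h2 : Real.cos (2 * Real.pi * ip (u - u' - Pi.single i 1) y) =
      Real.cos (2 * Real.pi * ip (u - u') y - 2 * Real.pi * y i) := by
    rw [ip_sub (u - u') (Pi.single i 1), ip_single]
    congr 1
    ring
  rw [h1, h2, Real.cos_add, Real.cos_sub]
  ring

/-- the coordinates are near integers or a cosine is small -/
theorem near_or {ι : Type} [Fintype ι] (y : ι → ℝ) (δ : ℝ) (hδ : 0 ≤ δ)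
    (h : ¬ ∃ v : ι → ℤ, ∀ i, |y i - v i| ≤ δ) :
    ∑ i, Real.cos (2 * Real.pi * y i) ≤
      (Fintype.card ι : ℝ) - 1 + Real.cos (2 * Real.pi * δ) := by
  classical
  push Not at h
  obtain ⟨i, hi⟩ := h fun i => round (y i)
  have h1 : Real.cos (2 * Real.pi * y i) ≤ Real.cos (2 * Real.pi * δ) := by
    have h2 : Real.cos (2 * Real.pi * y i) = Real.cos (2 * Real.pi * |y i - round (y i)|) := by
      have h3 : 2 * Real.pi * |y i - round (y i)| =
          |2 * Real.pi * y i - (round (y i) : ℤ) * (2 * Real.pi)| := by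
        have h4 : 2 * Real.pi * y i - (round (y i) : ℤ) * (2 * Real.pi) =
            2 * Real.pi * (y i - round (y i)) := by ring
        rw [h4, abs_mul, abs_of_nonneg (by positivity : (0 : ℝ) ≤ 2 * Real.pi)]
      rw [h3, Real.cos_abs, Real.cos_sub_int_mul_two_pi]
    rw [h2]
    apply Real.cos_le_cos_of_nonneg_of_le_pi
    · positivity
    · have := abs_sub_round (y i)
      nlinarith [Real.pi_pos]
    · apply mul_le_mul_of_nonneg_left hi.le (by positivity)
  have h3 : ∑ j ∈ Finset.univ.erase i, Real.cos (2 * Real.pi * y j) ≤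
      (Fintype.card ι : ℝ) - 1 := by
    calc ∑ j ∈ Finset.univ.erase i, Real.cos (2 * Real.pi * y j) ≤
          ∑ _j ∈ Finset.univ.erase i, (1 : ℝ) := Finset.sum_le_sum fun j _ => Real.cos_le_one _
      _ = (Fintype.card ι : ℝ) - 1 := by
        rw [Finset.sum_const, Finset.card_erase_of_mem (Finset.mem_univ i), Finset.card_univ,
          nsmul_eq_mul, mul_one, Nat.cast_sub (Fintype.card_pos_iff.2 ⟨i⟩), Nat.cast_one]
  rw [← Finset.add_sum_erase _ _ (Finset.mem_univ i)]
  linarith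

theorem numer (k M : ℕ) (hk : 1 ≤ k) (T : ℝ) (hT : 1 ≤ T) (hM : 2 * (k : ℝ) * T ≤ M + 2) :
    (k : ℝ) * (1 - Real.cos (Real.pi / (M + 2))) < 1 - Real.cos (2 * Real.pi * (9 / (20 * T))) := by
  have hk1 : (1 : ℝ) ≤ k := by exact_mod_cast hk
  have hT0 : 0 < T := by linarith
  have hpi := Real.pi_pos
  have hpi2 : Real.pi ^ 2 < 10 := by
    have := Real.pi_lt_d2
    nlinarith
  have hM0 : (0 : ℝ) < M + 2 := by positivity
  have h1 : 1 - Real.cos (Real.pi / (M + 2)) ≤ (Real.pi / (M + 2)) ^ 2 / 2 := by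
    have := Real.one_sub_sq_div_two_le_cos (x := Real.pi / (M + 2))
    linarith
  have h2 : (Real.pi / (M + 2)) ^ 2 / 2 ≤ Real.pi ^ 2 / (8 * k ^ 2 * T ^ 2) := by
    rw [div_pow, div_div, div_le_div_iff_of_pos_left (by positivity) (by positivity)
      (by positivity)]
    have : (2 * (k : ℝ) * T) ^ 2 ≤ (M + 2) ^ 2 := pow_le_pow_left₀ (by positivity) hM 2
    nlinarith
  have h3 : (k : ℝ) * (Real.pi ^ 2 / (8 * k ^ 2 * T ^ 2)) ≤ Real.pi ^ 2 / (8 * T ^ 2) := by
    rw [mul_div_assoc', div_le_div_iff₀ (by positivity) (by positivity)]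
    have : (k : ℝ) ≤ k ^ 2 := by nlinarith
    have hT2 : 0 < T ^ 2 := by positivity
    have hp2 : 0 < Real.pi ^ 2 := by positivity
    have h4 : 0 ≤ (k ^ 2 - (k : ℝ)) * (Real.pi ^ 2 * (8 * T ^ 2)) := by
      apply mul_nonneg (by linarith) (by positivity)
    nlinarith
  have h4 : |2 * Real.pi * (9 / (20 * T))| ≤ Real.pi := by
    rw [abs_of_nonneg (by positivity)]
    have : 9 / (20 * T) ≤ 1 / 2 := by
      rw [div_le_div_iff₀ (by positivity) (by norm_num)]
      linarith
    nlinarith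
  have h5 := Real.cos_le_one_sub_mul_cos_sq h4
  have h6 : 2 / Real.pi ^ 2 * (2 * Real.pi * (9 / (20 * T))) ^ 2 = 162 / 100 / T ^ 2 := by
    field_simp
    ring
  rw [h6] at h5
  have h7 : Real.pi ^ 2 / (8 * T ^ 2) < 162 / 100 / T ^ 2 := by
    rw [div_lt_div_iff₀ (by positivity) (by positivity)]
    have hT2 : 0 < T ^ 2 := by positivity
    nlinarith
  calc (k : ℝ) * (1 - Real.cos (Real.pi / (M + 2)))
      ≤ k * (Real.pi ^ 2 / (8 * k ^ 2 * T ^ 2)) :=
        mul_le_mul_of_nonneg_left (h1.trans h2) (by linarith)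
    _ ≤ Real.pi ^ 2 / (8 * T ^ 2) := h3
    _ < 162 / 100 / T ^ 2 := h7
    _ ≤ _ := by linarith

theorem ip_mono {ι : Type} [Fintype ι] (c : ι → ℤ) (y w : ι → ℝ) (t : ℝ) :
    ip c (fun i => y i + t * w i) = ip c y + t * ip c w := by
  unfold ip
  rw [Finset.mul_sum, ← Finset.sum_add_distrib]
  refine Finset.sum_congr rfl fun i _ => ?_
  ring

/-- the kernel lemma: `y` is near an integer vector modulo `V` -/
theorem near {ι : Type} [Fintype ι] (V : Submodule ℚ (ι → ℚ)) (T : ℝ) (hT : 1 ≤ T)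
    (y : ι → ℚ) (hy : ∀ c : ι → ℤ, Orth V c →
      ∑ i, |(c i : ℝ)| ≤ 2 * (Fintype.card ι : ℝ) ^ 2 * T → ∑ i, (c i : ℚ) * y i = 0) :
    ∃ w ∈ V, ∃ v : ι → ℤ, ∀ i, |(y i : ℝ) + (w i : ℝ) - v i| ≤ 9 / (20 * T) := by
  classical
  have hT0 : 0 < T := by linarith
  rcases isEmpty_or_nonempty ι with hι | hι
  · exact ⟨0, V.zero_mem, 0, fun i => (hι.false i).elim⟩
  by_contra hcon
  set k : ℕ := Fintype.card ι with hk
  have hk1 : 1 ≤ k := Fintype.card_pos
  have hk1' : (1 : ℝ) ≤ k := by exact_mod_cast hk1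
  -- the size of the window
  obtain ⟨M, hM⟩ : ∃ M : ℕ, M + 1 = ⌊2 * (k : ℝ) * T⌋₊ := by
    have h1 : 2 ≤ ⌊2 * (k : ℝ) * T⌋₊ := by
      apply Nat.le_floor
      push_cast
      nlinarith
    exact ⟨⌊2 * (k : ℝ) * T⌋₊ - 1, by omega⟩
  have hM1 : 2 * (k : ℝ) * T ≤ M + 2 := by
    have h1 := Nat.lt_floor_add_one (2 * (k : ℝ) * T)
    rw [← hM] at h1
    push_cast at h1
    linarith
  have hM2 : (M : ℝ) + 1 ≤ 2 * k * T := by
    have h1 := Nat.floor_le (a := 2 * (k : ℝ) * T) (by positivity)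
    rw [← hM] at h1
    push_cast at h1
    linarith
  have hM3 : (k : ℝ) * M + 1 ≤ 2 * k ^ 2 * T := by
    nlinarith
  have hnum := numer k M hk1 T hT hM1
  set δ : ℝ := 9 / (20 * T) with hδ
  have hδ0 : 0 ≤ δ := by positivity
  -- the box and the frequencies
  set B := Fintype.piFinset (fun _ : ι => Finset.Icc (0 : ℤ) M) with hB
  obtain ⟨w, hw, hS⟩ := exists_generic V
    (Fintype.piFinset (fun _ : ι => Finset.Icc (-((M : ℤ) + 1)) (M + 1)))
  set S := Fintype.piFinset (fun _ : ι => Finset.Icc (-((M : ℤ) + 1)) (M + 1)) with hSdef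
  set N : ℕ := 1 + ∑ c ∈ S, (∑ i, c i * w i).natAbs with hN
  have hN0 : 0 < N := by omega
  have hNR : (0 : ℝ) < N := by exact_mod_cast hN0
  set Y : ℕ → ι → ℝ := fun t i => (y i : ℝ) + (t / N : ℝ) * (w i : ℝ) with hY
  have hfar : ∀ t, ¬ ∃ v : ι → ℤ, ∀ i, |Y t i - v i| ≤ δ := by
    rintro t ⟨v, hv⟩
    apply hcon
    refine ⟨((t : ℚ) / N) • fun i => (w i : ℚ), V.smul_mem _ hw, v, fun i => ?_⟩
    have := hv i
    simp only [hY] at this
    simp only [Pi.smul_apply, smul_eq_mul]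
    push_cast
    exact this
  set I : (ι → ℤ) → ℝ := fun c => if ∑ i, c i * w i = 0 then 1 else 0 with hI
  have hI0 : ∀ c, 0 ≤ I c := by
    intro c
    simp only [hI]
    split_ifs <;> norm_num
  -- the means of the characters
  have hmean : ∀ c ∈ S, ∑ i, |(c i : ℝ)| ≤ 2 * (k : ℝ) ^ 2 * T →
      ∑ t ∈ Finset.range N, Real.cos (2 * Real.pi * ip c (Y t)) = N * I c := by
    intro c hc hcT
    have h1 : ∀ t : ℕ, ip c (Y t) = ip c (fun i => (y i : ℝ)) +
        t * ((∑ i, c i * w i : ℤ) : ℝ) / N := by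
      intro t
      simp only [hY]
      rw [ip_mono]
      have : ip c (fun i => (w i : ℝ)) = ((∑ i, c i * w i : ℤ) : ℝ) := by
        unfold ip
        push_cast
        rfl
      rw [this]
      ring
    simp_rw [h1]
    by_cases h2 : ∑ i, c i * w i = 0
    · have h3 := hy c (hS c hc h2) hcT
      have h4 : ip c (fun i => (y i : ℝ)) = 0 := by
        unfold ip
        have h5 : ∑ i, (c i : ℝ) * (y i : ℝ) = 0 := by exact_mod_cast h3
        exact h5
      simp only [hI]
      rw [if_pos h2, h4, h2]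
      simp
    · simp only [hI]
      rw [if_neg h2, mul_zero]
      apply sum_cos_eq_zero N hN0 _ _ h2
      have h5 : (∑ i, c i * w i).natAbs ≤ ∑ c ∈ S, (∑ i, c i * w i).natAbs :=
        Finset.single_le_sum (f := fun c : ι → ℤ => (∑ i, c i * w i).natAbs)
          (fun _ _ => Nat.zero_le _) hc
      have h6 : |∑ i, c i * w i| = ((∑ i, c i * w i).natAbs : ℤ) := Int.abs_eq_natAbs _
      rw [h6]
      omega
  -- membership of the frequencies
  have hmem : ∀ u ∈ B, ∀ u' ∈ B, ∀ i, ∀ d : ℤ, |d| ≤ 1 →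
      (u - u' + Pi.single i d) ∈ S ∧
        ∑ j, |((u - u' + Pi.single i d : ι → ℤ) j : ℝ)| ≤ 2 * (k : ℝ) ^ 2 * T := by
    intro u hu u' hu' i d hd
    rw [hB, Fintype.mem_piFinset] at hu hu'
    have h1 : ∀ j, |u j - u' j| ≤ M := by
      intro j
      have h2 := Finset.mem_Icc.1 (hu j)
      have h3 := Finset.mem_Icc.1 (hu' j)
      rw [abs_le]
      constructor <;> linarith [h2.1, h2.2, h3.1, h3.2]
    have h2 : ∀ j, |(Pi.single i d : ι → ℤ) j| ≤ if j = i then 1 else 0 := by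
      intro j
      by_cases hj : j = i
      · subst hj
        simp only [Pi.single_eq_same, if_true]
        exact hd
      · simp [hj]
    constructor
    · rw [hSdef, Fintype.mem_piFinset]
      intro j
      rw [Finset.mem_Icc]
      have h3 := abs_le.1 (h1 j)
      have h4 : |(Pi.single i d : ι → ℤ) j| ≤ 1 := (h2 j).trans (by split_ifs <;> norm_num)
      have h5 := abs_le.1 h4
      simp only [Pi.add_apply, Pi.sub_apply]
      constructor <;> linarith [h3.1, h3.2, h5.1, h5.2]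
    · have h3 : ∀ j, |((u - u' + Pi.single i d : ι → ℤ) j : ℝ)| ≤
          (M : ℝ) + if j = i then 1 else 0 := by
        intro j
        have h4 : |(u - u' + Pi.single i d : ι → ℤ) j| ≤ (M : ℤ) + if j = i then 1 else 0 := by
          simp only [Pi.add_apply, Pi.sub_apply]
          exact (abs_add_le _ _).trans (add_le_add (h1 j) (h2 j))
        exact_mod_cast h4
      refine (Finset.sum_le_sum fun j _ => h3 j).trans ?_
      rw [Finset.sum_add_distrib, Finset.sum_const, Finset.card_univ, nsmul_eq_mul,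
        Finset.sum_ite_eq' Finset.univ i, if_pos (Finset.mem_univ i)]
      exact hM3
  -- the mean of the square of the kernel
  set Q : ℝ := ∑ u' ∈ B, CC M u' * ∑ u ∈ B, CC M u * I (u - u') with hQ
  have hQpos : 0 < Q := by
    have h0B : (0 : ι → ℤ) ∈ B := by
      rw [hB, Fintype.mem_piFinset]
      intro i
      rw [Finset.mem_Icc]
      constructor
      · exact le_rfl
      · simp
    have hin : ∀ u' ∈ B, 0 ≤ ∑ u ∈ B, CC M u * I (u - u') := fun u' _ =>
      Finset.sum_nonneg fun u _ => mul_nonneg (CC_nonneg M u) (hI0 _)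
    have h1 : CC M (0 : ι → ℤ) * ∑ u ∈ B, CC M u * I (u - 0) ≤ Q := by
      rw [hQ]
      exact Finset.single_le_sum (f := fun u' : ι → ℤ => CC M u' * ∑ u ∈ B, CC M u * I (u - u'))
        (fun u' hu' => mul_nonneg (CC_nonneg M u') (hin u' hu')) h0B
    have h2 : CC M (0 : ι → ℤ) * I (0 - 0) ≤ ∑ u ∈ B, CC M u * I (u - 0) :=
      Finset.single_le_sum (f := fun u : ι → ℤ => CC M u * I (u - 0))
        (fun u _ => mul_nonneg (CC_nonneg M u) (hI0 _)) h0B
    have h3 : I ((0 : ι → ℤ) - 0) = 1 := by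
      simp [hI]
    have h4 : 0 < CC M (0 : ι → ℤ) := Finset.prod_pos fun i _ => win_zero_pos M
    rw [h3, mul_one] at h2
    have h5 : 0 < ∑ u ∈ B, CC M u * I (u - 0) := lt_of_lt_of_le h4 h2
    exact lt_of_lt_of_le (mul_pos h4 h5) h1
  have hG : ∑ t ∈ Finset.range N, GK M (Y t) = N * Q := by
    unfold GK
    rw [Finset.sum_comm, hQ, Finset.mul_sum]
    refine Finset.sum_congr rfl fun u' hu' => ?_
    rw [Finset.sum_comm, Finset.mul_sum, Finset.mul_sum]
    refine Finset.sum_congr rfl fun u hu => ?_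
    obtain ⟨i₀⟩ := hι
    have h1 := hmem u hu u' hu' i₀ 0 (by norm_num)
    rw [Pi.single_zero, add_zero] at h1
    rw [← Finset.mul_sum, ← Finset.mul_sum, hmean _ h1.1 h1.2]
    ring
  have hGi : ∀ i, N * (2 * Real.cos (Real.pi / (M + 2)) * Q) ≤
      ∑ t ∈ Finset.range N, 2 * Real.cos (2 * Real.pi * Y t i) * GK M (Y t) := by
    intro i
    have h1 : ∑ t ∈ Finset.range N, 2 * Real.cos (2 * Real.pi * Y t i) * GK M (Y t) =
        N * ∑ u' ∈ B, CC M u' * ∑ u ∈ B,
          CC M u * (I (u - u' + Pi.single i 1) + I (u - u' - Pi.single i 1)) := by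
      simp_rw [GK_mul]
      rw [Finset.sum_comm, Finset.mul_sum]
      refine Finset.sum_congr rfl fun u' hu' => ?_
      rw [Finset.sum_comm, Finset.mul_sum, Finset.mul_sum]
      refine Finset.sum_congr rfl fun u hu => ?_
      have h2 := hmem u hu u' hu' i 1 (by norm_num)
      have h3 := hmem u hu u' hu' i (-1) (by norm_num)
      have h4 : (Pi.single i (-1) : ι → ℤ) = -Pi.single i 1 := by
        rw [← Pi.single_neg]
      rw [h4, ← sub_eq_add_neg] at h3
      rw [← Finset.mul_sum, ← Finset.mul_sum, Finset.sum_add_distrib, hmean _ h2.1 h2.2,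
        hmean _ h3.1 h3.2]
      ring
    rw [h1]
    apply mul_le_mul_of_nonneg_left _ hNR.le
    rw [hQ, Finset.mul_sum]
    refine Finset.sum_le_sum fun u' _ => ?_
    have h2 := mul_le_mul_of_nonneg_left (quad M I hI0 i u') (CC_nonneg M u')
    calc _ = CC M u' * (2 * Real.cos (Real.pi / (M + 2)) * ∑ u ∈ B, CC M u * I (u - u')) := by
          ring
      _ ≤ _ := h2
  have h1 : (k : ℝ) * (N * (2 * Real.cos (Real.pi / (M + 2)) * Q)) ≤
      ∑ t ∈ Finset.range N, 2 * (∑ i, Real.cos (2 * Real.pi * Y t i)) * GK M (Y t) := by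
    calc (k : ℝ) * (N * (2 * Real.cos (Real.pi / (M + 2)) * Q))
        = ∑ _i : ι, N * (2 * Real.cos (Real.pi / (M + 2)) * Q) := by
          rw [Finset.sum_const, Finset.card_univ, nsmul_eq_mul]
      _ ≤ ∑ i, ∑ t ∈ Finset.range N, 2 * Real.cos (2 * Real.pi * Y t i) * GK M (Y t) :=
          Finset.sum_le_sum fun i _ => hGi i
      _ = _ := by
          rw [Finset.sum_comm]
          refine Finset.sum_congr rfl fun t _ => ?_
          rw [Finset.mul_sum, Finset.sum_mul]
  have h2 : ∑ t ∈ Finset.range N, 2 * (∑ i, Real.cos (2 * Real.pi * Y t i)) * GK M (Y t) ≤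
      2 * ((k : ℝ) - 1 + Real.cos (2 * Real.pi * δ)) * (N * Q) := by
    rw [← hG, Finset.mul_sum]
    refine Finset.sum_le_sum fun t _ => ?_
    apply mul_le_mul_of_nonneg_right _ (GK_nonneg M (Y t))
    have := near_or (Y t) δ hδ0 (hfar t)
    linarith
  have h3 := h1.trans h2
  have h4 : (k : ℝ) * Real.cos (Real.pi / (M + 2)) ≤ (k : ℝ) - 1 + Real.cos (2 * Real.pi * δ) := by
    have h5 : 0 < 2 * (N * Q) := by positivity
    by_contra h6
    push Not at h6
    have h7 := mul_lt_mul_of_pos_left h6 h5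
    nlinarith
  linarith

theorem exists_orth {ι : Type} [Fintype ι] (V : Submodule ℚ (ι → ℚ)) (x : ι → ℚ) (hx : x ∉ V) :
    ∃ c : ι → ℤ, Orth V c ∧ ∑ i, (c i : ℚ) * x i ≠ 0 := by
  classical
  obtain ⟨f, hfx, hf⟩ := Submodule.exists_le_ker_of_notMem hx
  obtain ⟨D, c, hD, hc⟩ := exists_int_mul fun i => f (Pi.single i 1)
  have h1 : ∀ y : ι → ℚ, ∑ i, (c i : ℚ) * y i = D * f y := by
    intro y
    have h2 : y = ∑ i, y i • (Pi.single i 1 : ι → ℚ) := by
      funext j
      rw [Finset.sum_apply, Finset.sum_eq_single j]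
      · simp
      · intro i _ hij
        simp [hij.symm]
      · simp
    conv_rhs => rw [h2]
    rw [map_sum, Finset.mul_sum]
    refine Finset.sum_congr rfl fun i _ => ?_
    rw [map_smul, smul_eq_mul, hc i]
    ring
  refine ⟨c, fun y hy => ?_, ?_⟩
  · rw [h1 y]
    have : f y = 0 := hf hy
    rw [this, mul_zero]
  · rw [h1 x]
    exact mul_ne_zero (by exact_mod_cast hD.ne') hfx

theorem transfer {ι : Type} [Fintype ι] (V : Submodule ℚ (ι → ℚ)) (T : ℝ) (hT : 1 ≤ T)
    (hsat : ∀ v : ι → ℤ, ∀ w ∈ V, (∀ i, |(v i : ℝ) - (w i : ℝ)| ≤ 1 / T) →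
      (fun i => (v i : ℚ)) ∈ V)
    (x : ι → ℚ) (hx : ∀ c : ι → ℤ, Orth V c →
      ∑ i, |(c i : ℝ)| ≤ 2 * (Fintype.card ι : ℝ) ^ 2 * T → ∑ i, (c i : ℚ) * x i = 0) :
    x ∈ V := by
  classical
  have hT0 : 0 < T := by linarith
  by_contra hxV
  obtain ⟨c, hcV, hcx⟩ := exists_orth V x hxV
  -- the step
  obtain ⟨n, hn⟩ := exists_nat_gt (10 * T * ∑ i, |(x i : ℝ)|)
  have hsum0 : 0 ≤ ∑ i, |(x i : ℝ)| := Finset.sum_nonneg fun i _ => abs_nonneg _
  have hn0 : (0 : ℝ) < n := lt_of_le_of_lt (by positivity) hn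
  have hstep : ∀ i, |(x i : ℝ)| / n ≤ 1 / (10 * T) := by
    intro i
    have h1 : |(x i : ℝ)| ≤ ∑ i, |(x i : ℝ)| :=
      Finset.single_le_sum (f := fun i => |(x i : ℝ)|) (fun _ _ => abs_nonneg _)
        (Finset.mem_univ i)
    rw [div_le_div_iff₀ hn0 (by positivity)]
    nlinarith
  set δ : ℝ := 9 / (20 * T) with hδ
  set P : ℕ → Prop := fun j => ∃ w ∈ V, ∀ i, |(j / n : ℝ) * (x i : ℝ) - (w i : ℝ)| ≤ δ with hP
  have hP0 : P 0 := by
    refine ⟨0, V.zero_mem, fun i => ?_⟩
    simp only [Nat.cast_zero, zero_div, zero_mul, Pi.zero_apply, Rat.cast_zero, sub_zero, abs_zero]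
    positivity
  -- some multiple is far
  have hex : ∃ j, ¬ P j := by
    by_contra hall
    push Not at hall
    have hcx' : (∑ i, (c i : ℝ) * (x i : ℝ)) ≠ 0 := by
      intro h
      apply hcx
      exact_mod_cast h
    have hpos : 0 < |∑ i, (c i : ℝ) * (x i : ℝ)| := abs_pos.2 hcx'
    obtain ⟨j, hj⟩ := exists_nat_gt ((∑ i, |(c i : ℝ)|) * δ * n / |∑ i, (c i : ℝ) * (x i : ℝ)|)
    obtain ⟨w, hw, hjw⟩ := hall j
    have h1 : (∑ i, (c i : ℝ) * (w i : ℝ)) = 0 := by
      have := hcV w hw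
      exact_mod_cast this
    have h2 : (j / n : ℝ) * ∑ i, (c i : ℝ) * (x i : ℝ) =
        ∑ i, (c i : ℝ) * ((j / n : ℝ) * (x i : ℝ) - (w i : ℝ)) := by
      simp_rw [mul_sub]
      rw [Finset.sum_sub_distrib, h1, sub_zero, Finset.mul_sum]
      exact Finset.sum_congr rfl fun i _ => by ring
    have h3 : |(j / n : ℝ) * ∑ i, (c i : ℝ) * (x i : ℝ)| ≤ (∑ i, |(c i : ℝ)|) * δ := by
      rw [h2, Finset.sum_mul]
      refine (Finset.abs_sum_le_sum_abs _ _).trans (Finset.sum_le_sum fun i _ => ?_)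
      rw [abs_mul]
      exact mul_le_mul_of_nonneg_left (hjw i) (abs_nonneg _)
    rw [abs_mul, abs_of_nonneg (by positivity)] at h3
    rw [div_lt_iff₀ hpos] at hj
    have h4 : (j : ℝ) * |∑ i, (c i : ℝ) * (x i : ℝ)| ≤ (∑ i, |(c i : ℝ)|) * δ * n := by
      have h5 := mul_le_mul_of_nonneg_right h3 hn0.le
      calc (j : ℝ) * |∑ i, (c i : ℝ) * (x i : ℝ)| =
            (j / n : ℝ) * |∑ i, (c i : ℝ) * (x i : ℝ)| * n := by
              field_simp
        _ ≤ _ := h5
    linarith
  -- the first far multiple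
  obtain ⟨j, hj, hjP⟩ : ∃ j, P j ∧ ¬ P (j + 1) := by
    by_contra hno
    push Not at hno
    obtain ⟨j, hj⟩ := hex
    apply hj
    clear hj
    induction j with
    | zero => exact hP0
    | succ m ih => exact hno m ih
  obtain ⟨w', hw', hjw'⟩ := hj
  obtain ⟨w, hw, v, hv⟩ := near V T hT ((((j + 1 : ℕ) : ℚ) / n) • x) (by
    intro c hc hcT
    have := hx c hc hcT
    have h1 : ∑ i, (c i : ℚ) * ((((j + 1 : ℕ) : ℚ) / n) • x) i =
        (((j + 1 : ℕ) : ℚ) / n) * ∑ i, (c i : ℚ) * x i := by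
      rw [Finset.mul_sum]
      refine Finset.sum_congr rfl fun i _ => ?_
      simp only [Pi.smul_apply, smul_eq_mul]
      ring
    rw [h1, this, mul_zero])
  have hv' : ∀ i, |(((j + 1 : ℕ) : ℝ) / n) * (x i : ℝ) + (w i : ℝ) - v i| ≤ δ := by
    intro i
    have := hv i
    simp only [Pi.smul_apply, smul_eq_mul] at this
    push_cast at this ⊢
    exact this
  have hvV : (fun i => (v i : ℚ)) ∉ V := by
    intro h
    apply hjP
    refine ⟨(fun i => (v i : ℚ)) - w, V.sub_mem h hw, fun i => ?_⟩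
    have := hv' i
    simp only [Pi.sub_apply]
    push_cast at this ⊢
    have h1 : ((j : ℝ) + 1) / n * (x i : ℝ) - ((v i : ℝ) - (w i : ℝ)) =
        ((j : ℝ) + 1) / n * (x i : ℝ) + (w i : ℝ) - v i := by ring
    rw [h1]
    exact this
  apply hvV
  apply hsat v (w' + w) (V.add_mem hw' hw)
  intro i
  simp only [Pi.add_apply]
  push_cast
  have h1 := hv' i
  have h2 := hjw' i
  have h3 := hstep i
  push_cast at h1
  have h4 : (v i : ℝ) - ((w' i : ℝ) + (w i : ℝ)) =
      -(((j : ℝ) + 1) / n * (x i : ℝ) + (w i : ℝ) - v i) +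
        ((j : ℝ) / n * (x i : ℝ) - (w' i : ℝ)) + (x i : ℝ) / n := by
    ring
  have h5 : |(x i : ℝ) / n| ≤ 1 / (10 * T) := by
    rw [abs_div, abs_of_pos hn0]
    exact h3
  rw [h4]
  calc _ ≤ |-(((j : ℝ) + 1) / n * (x i : ℝ) + (w i : ℝ) - v i)| +
        |((j : ℝ) / n * (x i : ℝ) - (w' i : ℝ))| + |(x i : ℝ) / n| := by
        refine (abs_add_le _ _).trans ?_
        exact add_le_add (abs_add_le _ _) le_rfl
    _ ≤ δ + δ + 1 / (10 * T) := by
        rw [abs_neg]
        exact add_le_add (add_le_add h1 h2) h5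
    _ = 1 / T := by
        rw [hδ]
        field_simp
        ring

end H25.LKP
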