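import Pool.Agent.H25.LKP.N4
import Pool.Agent.H25.LKP.N5

/-!
# N6: the comparison theorem

`chain`: among all `V ⊇ V₀` with `|L(U + V) - L(U)| ≤ (dim V - dim V₀) Err` for all `U ⊇ V₀` choose one of the largest dimension. If an integer vector
`v ∉ V` is `1/T`-near to `w ∈ V` then `V + ℚ v` has the property too (`step` for `U + V`), contradiction.
`comp`: `V` from `chain` for `V₀ = span (n, 1)`; `W ≤ V` by `transfer`; `U = W` and `U = V₀`.
-/

set_option autoImplicit false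

namespace H25.LKP

open MeasureTheory Polynomial

theorem Err_nonneg (t : ℕ) (L ρ T : ℝ) (hL : 0 ≤ L) (hρ : 0 < ρ) (hT : 0 < T) :
    0 ≤ Err t L ρ T := by
  unfold Err Pool.Agent.H61.Sparse.GG
  have h1 : 0 ≤ Real.log ((1 + ρ) / ρ) := by
    apply Real.log_nonneg
    rw [le_div_iff₀ hρ]
    linarith
  positivity

/-- one step of the chain for two arbitrary Haar measures -/
theorem step' {ι : Type} [Fintype ι] [Nonempty ι] (a : ι → ℤ) (ha : ∀ i, a i ≠ 0) (n : ι → ℕ)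
    (hn : Function.Injective n) (t : ℕ) (ht : 0 < t)
    (hι : Fintype.card ι ≤ t + 1) (L : ℝ) (hL : ∑ i, |(a i : ℝ)| ≤ L) (T : ℝ) (hT : 1 ≤ T)
    (ρ : ℝ) (hρ : 0 < ρ) (hρ4 : ρ ≤ 1 / 4) {V₀ V U : Submodule ℚ (ι → ℚ)} {s : ℝ}
    (hV₀ : (fun i => (n i : ℚ)) ∈ V₀) (hU : V₀ ≤ U)
    (h : ∀ ν ν', IsHaar U ν → IsHaar (U ⊔ V) ν' → |Lm a ν' - Lm a ν| ≤ s)
    (v : ι → ℤ) (w : ι → ℚ) (hw : w ∈ V) (hvw : ∀ i, |(v i : ℝ) - (w i : ℝ)| ≤ 1 / T) :
    ∀ ν ν', IsHaar U ν → IsHaar (U ⊔ (V ⊔ line v)) ν' →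
      |Lm a ν' - Lm a ν| ≤ s + Err t L ρ T := by
  intro ν ν' hν hν'
  obtain ⟨μ, hμ⟩ := haar_exists (U ⊔ V)
  have h1 := h ν μ hν hμ
  have h2 : IsHaar ((U ⊔ V) ⊔ line v) ν' := by
    rw [sup_assoc]
    exact hν'
  have h3 := step a ha hμ n hn (Submodule.mem_sup_left (hU hV₀)) t ht hι L hL v w
    (Submodule.mem_sup_right hw) T hT hvw h2 ρ hρ hρ4
  have h4 : Lm a ν' - Lm a ν = (Lm a ν' - Lm a μ) + (Lm a μ - Lm a ν) := by ring
  rw [h4]
  exact (abs_add_le _ _).trans (by linarith)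

/-- the chain: a saturated subspace `V ⊇ V₀` such that adding `V` changes no mean much -/
theorem chain {ι : Type} [Fintype ι] [Nonempty ι] (a : ι → ℤ) (ha : ∀ i, a i ≠ 0) (n : ι → ℕ)
    (hn : Function.Injective n) (t : ℕ) (ht : 0 < t)
    (hι : Fintype.card ι ≤ t + 1) (L : ℝ) (hL : ∑ i, |(a i : ℝ)| ≤ L) (T : ℝ) (hT : 1 ≤ T)
    (ρ : ℝ) (hρ : 0 < ρ) (hρ4 : ρ ≤ 1 / 4) (V₀ : Submodule ℚ (ι → ℚ))
    (hV₀ : (fun i => (n i : ℚ)) ∈ V₀) :
    ∃ V : Submodule ℚ (ι → ℚ), V₀ ≤ V ∧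
      (∀ v : ι → ℤ, ∀ w ∈ V, (∀ i, |(v i : ℝ) - (w i : ℝ)| ≤ 1 / T) →
        (fun i => (v i : ℚ)) ∈ V) ∧
      ∀ U : Submodule ℚ (ι → ℚ), V₀ ≤ U → ∀ ν ν', IsHaar U ν → IsHaar (U ⊔ V) ν' →
        |Lm a ν' - Lm a ν| ≤ Fintype.card ι * Err t L ρ T := by
  classical
  have hL0 : 0 ≤ L := le_trans (Finset.sum_nonneg fun i _ => abs_nonneg _) hL
  have hE := Err_nonneg t L ρ T hL0 hρ (by linarith)
  let Good : ℕ → Prop := fun m => ∃ V : Submodule ℚ (ι → ℚ), V₀ ≤ V ∧ m ≤ Module.finrank ℚ V ∧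
    ∀ U : Submodule ℚ (ι → ℚ), V₀ ≤ U → ∀ ν ν', IsHaar U ν → IsHaar (U ⊔ V) ν' →
      |Lm a ν' - Lm a ν| ≤ (m : ℝ) * Err t L ρ T
  have hbound : ∀ m, Good m → m ≤ Fintype.card ι := by
    rintro m ⟨V, -, hm, -⟩
    refine hm.trans ?_
    have := Submodule.finrank_le V
    rwa [Module.finrank_fintype_fun_eq_card] at this
  have h0 : Good 0 := by
    refine ⟨V₀, le_rfl, Nat.zero_le _, ?_⟩
    intro U hU ν ν' hν hν'
    rw [sup_eq_left.2 hU] at hν'
    rw [haar_unique hν hν']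
    simp
  have hmax : Good (Nat.findGreatest Good (Fintype.card ι)) :=
    Nat.findGreatest_spec (P := Good) (Nat.zero_le _) h0
  set m := Nat.findGreatest Good (Fintype.card ι) with hmdef
  obtain ⟨V, hV, hm, hVU⟩ := hmax
  refine ⟨V, hV, ?_, ?_⟩
  · intro v w hw hvw
    by_contra hv
    have hgood : Good (m + 1) := by
      refine ⟨V ⊔ line v, hV.trans le_sup_left, ?_, ?_⟩
      · have hlt : V < V ⊔ line v := by
          apply lt_of_le_of_ne le_sup_left
          intro heq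
          apply hv
          rw [heq]
          exact Submodule.mem_sup_right (Submodule.mem_span_singleton_self _)
        have := Submodule.finrank_lt_finrank_of_lt hlt
        omega
      · intro U hU ν ν' hν hν'
        have h1 := step' a ha n hn t ht hι L hL T hT ρ hρ hρ4 (s := (m : ℝ) * Err t L ρ T)
          (V := V) hV₀ hU (hVU U hU) v w hw hvw ν ν' hν hν'
        push_cast
        linarith
    have h1 := hbound _ hgood
    have h2 : m + 1 ≤ Nat.findGreatest Good (Fintype.card ι) :=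
      Nat.le_findGreatest h1 hgood
    omega
  · intro U hU ν ν' hν hν'
    refine (hVU U hU ν ν' hν hν').trans ?_
    apply mul_le_mul_of_nonneg_right _ hE
    have h3 : m ≤ Fintype.card ι := Nat.findGreatest_le _
    exact_mod_cast h3

/-- adding the vector `(1, …, 1)` does not change the mean -/
theorem Lm_one {ι : Type} [Fintype ι] (a : ι → ℤ) (ν : Measure (ι → UnitAddCircle))
    [IsProbabilityMeasure ν] : Lm a (twist (fun _ => 1) ν) = Lm a ν := by
  rw [Lm_twist_eq]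
  have h1 : ∀ p : (ι → UnitAddCircle) × UnitAddCircle,
      Real.log ‖FF a (fun i => p.1 i + (1 : ℤ) • p.2)‖ = Real.log ‖FF a p.1‖ := by
    intro p
    congr 1
    have h2 : FF a (fun i => p.1 i + (1 : ℤ) • p.2) =
        (AddCircle.toCircle p.2 : ℂ) * FF a p.1 := by
      unfold FF
      rw [Finset.mul_sum]
      refine Finset.sum_congr rfl fun i _ => ?_
      rw [one_zsmul, AddCircle.toCircle_add, Circle.coe_mul]
      ring
    rw [h2, norm_mul, Circle.norm_coe, one_mul]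
  simp_rw [h1]
  rw [integral_fun_fst (fun y : ι → UnitAddCircle => Real.log ‖FF a y‖)]
  simp [Lm]

/-- the mean over the torus of the line through `n` -/
theorem Lm_base {ι : Type} [Fintype ι] (a : ι → ℤ) (n : ι → ℕ) :
    Lm a (twist (fun i => (n i : ℤ)) (Measure.dirac 0)) =
      H91.LK.lm (∑ i, monomial (n i) (a i)) := by
  rw [Lm_twist_eq, Measure.dirac_prod, integral_map (by fun_prop)]
  · have h1 : ∀ t : UnitAddCircle,
        Real.log ‖FF a (fun i => (0 : ι → UnitAddCircle) i + (n i : ℤ) • t)‖ =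
          Real.log ‖((∑ i, monomial (n i) (a i) : ℤ[X]).map (Int.castRingHom ℂ)).eval
            (AddCircle.toCircle t : ℂ)‖ := by
      intro t
      rw [FF_twist]
      congr 2
      unfold PP
      rw [Polynomial.map_sum]
      congr 1
      refine Finset.sum_congr rfl fun i _ => ?_
      rw [map_monomial]
      simp
    simp_rw [h1]
    rw [integral_circle (fun z => Real.log
      ‖((∑ i, monomial (n i) (a i) : ℤ[X]).map (Int.castRingHom ℂ)).eval z‖)]
    rfl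
  · exact ((log_FF_meas a).comp (twist_cont _).measurable).aestronglyMeasurable

theorem comp {ι : Type} [Fintype ι] [Nonempty ι] (a : ι → ℤ) (ha : ∀ i, a i ≠ 0) (n : ι → ℕ)
    (hn : Function.Injective n) (t : ℕ) (ht : 0 < t)
    (hι : Fintype.card ι ≤ t + 1) (L : ℝ) (hL : ∑ i, |(a i : ℝ)| ≤ L) (T : ℝ) (hT : 1 ≤ T)
    (ρ : ℝ) (hρ : 0 < ρ) (hρ4 : ρ ≤ 1 / 4) (J : ℕ) (hJ : (Fintype.card ι : ℝ) ^ 2 * T ≤ J)
    (W : Submodule ℚ (ι → ℚ)) (h1 : (fun _ => (1 : ℚ)) ∈ W)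
    (hnW : (fun i => (n i : ℚ)) ∈ W) (hW : KillsI J n W)
    (ν : Measure (ι → UnitAddCircle)) (hν : IsHaar W ν) :
    |Lm a ν - H91.LK.lm (∑ i, monomial (n i) (a i))| ≤ 2 * Fintype.card ι * Err t L ρ T := by
  -- the starting subspace
  have hν₁ := haar_twist (haar_bot (ι := ι)) (fun i => (n i : ℤ))
  have hν₀ := haar_twist hν₁ (fun _ => (1 : ℤ))
  have hp := hν₁.1
  have hL₀ : Lm a (twist (fun _ => (1 : ℤ)) (twist (fun i => (n i : ℤ)) (Measure.dirac 0))) =
      H91.LK.lm (∑ i, monomial (n i) (a i)) := by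
    rw [Lm_one, Lm_base]
  set ν₀ := twist (fun _ => (1 : ℤ)) (twist (fun i => (n i : ℤ)) (Measure.dirac 0)) with hν₀def
  set V₀ : Submodule ℚ (ι → ℚ) := (⊥ ⊔ line fun i => (n i : ℤ)) ⊔ line fun _ => (1 : ℤ) with hV₀
  have hnV₀ : (fun i => (n i : ℚ)) ∈ V₀ := by
    apply Submodule.mem_sup_left
    apply Submodule.mem_sup_right
    unfold line
    have : (fun i => (n i : ℚ)) = fun i => (((n i : ℤ)) : ℚ) := by
      funext i
      push_cast
      rfl
    rw [this]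
    exact Submodule.mem_span_singleton_self _
  have h1V₀ : (fun _ => (1 : ℚ)) ∈ V₀ := by
    apply Submodule.mem_sup_right
    unfold line
    have : (fun _ => (1 : ℚ)) = fun _ : ι => (((1 : ℤ)) : ℚ) := by
      funext i
      push_cast
      rfl
    rw [this]
    exact Submodule.mem_span_singleton_self _
  have hV₀W : V₀ ≤ W := by
    rw [hV₀]
    refine sup_le (sup_le bot_le ?_) ?_
    · unfold line
      rw [Submodule.span_singleton_le_iff_mem]
      simpa using hnW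
    · unfold line
      rw [Submodule.span_singleton_le_iff_mem]
      simpa using h1
  obtain ⟨V, hV₀V, hsat, hU⟩ := chain a ha n hn t ht hι L hL T hT ρ hρ hρ4 V₀ hnV₀
  -- `W ≤ V`
  have hWV : W ≤ V := by
    intro x hx
    apply transfer V T hT hsat x
    intro c hc hcs
    apply hW c
    · have h2 := hc _ (hV₀V h1V₀)
      simp only [mul_one] at h2
      exact_mod_cast h2
    · have h3 : ∑ i, |(c i : ℝ)| ≤ 2 * (J : ℝ) := by
        refine hcs.trans ?_
        linarith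
      have h4 : ((∑ i, |c i| : ℤ) : ℝ) ≤ ((2 * (J : ℤ) : ℤ) : ℝ) := by
        push_cast
        exact h3
      exact_mod_cast h4
    · have h2 := hc _ (hV₀V hnV₀)
      exact_mod_cast h2
    · exact hx
  obtain ⟨μ, hμ⟩ := haar_exists V
  have hA := hU W hV₀W ν μ hν (by rw [sup_eq_right.2 hWV]; exact hμ)
  have hB := hU V₀ le_rfl ν₀ μ hν₀ (by rw [sup_eq_right.2 hV₀V]; exact hμ)
  rw [← hL₀]
  have h5 : Lm a ν - Lm a ν₀ = (Lm a μ - Lm a ν₀) - (Lm a μ - Lm a ν) := by ring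
  rw [h5]
  refine (abs_sub _ _).trans ?_
  linarith

end H25.LKP
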