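import Pool.Agent.H25.LKP.N6
import Pool.Agent.H91.LK.G1

/-!
# N7: the two comparison theorems with relations of polynomial size

`compareP` replaces `H91.LK.compare`, `extremeP` replaces `H91.LK.extreme`.

PROOF. `compareP`: `comp` for `W = span (1, n, m)`, once for `n` and once for `m`. `extremeP`: on the index set `I`, `ν₁` = Haar measure of `ℚ n`,
`ν₂ = twist w ν₁`, `ν₃ = twist 1 ν₂`; `Lm ν₃ = Lm ν₂ = ∫ logM (PP y w) dν₁(y)` (`Lm_twist`), for `y = t n` the polynomial `PP y w` is `G1_F` at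
`x = toCircle t`, whose logarithmic Mahler measure is at least the maximum for almost every `t` (`G1_jensen`); `comp` for `W = ℚ n + ℚ w + ℚ 1`.
-/

set_option autoImplicit false

namespace H25.LKP

open MeasureTheory Polynomial H91.LK

theorem N7_orth {ι : Type} [Fintype ι] (c : ι → ℤ) (S : Set (ι → ℚ))
    (h : ∀ x ∈ S, ∑ i, (c i : ℚ) * x i = 0) :
    ∀ x ∈ Submodule.span ℚ S, ∑ i, (c i : ℚ) * x i = 0 := by
  intro x hx
  induction hx using Submodule.span_induction with
  | mem x hx => exact h x hx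
  | zero => simp
  | add x y _ _ hx hy =>
    simp only [Pi.add_apply, mul_add, Finset.sum_add_distrib, hx, hy, add_zero]
  | smul r x _ hx =>
    have h1 : ∑ i, (c i : ℚ) * (r • x) i = r * ∑ i, (c i : ℚ) * x i := by
      rw [Finset.mul_sum]
      refine Finset.sum_congr rfl fun i _ => ?_
      rw [Pi.smul_apply, smul_eq_mul]
      ring
    rw [h1, hx, mul_zero]

theorem compareP {k : ℕ} (t : ℕ) (ht : 0 < t) (hk : k ≤ t + 1) (hk0 : 0 < k)
    (a : Fin k → ℤ) (ha : ∀ i, a i ≠ 0) (n m : Fin k → ℕ) (hn : Function.Injective n)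
    (hm : Function.Injective m) (J : ℕ) (h : SameRel J n m) (L T ρ : ℝ)
    (hL : ∑ i, |(a i : ℝ)| ≤ L) (hT : 1 ≤ T) (hJ : (k : ℝ) ^ 2 * T ≤ J)
    (hρ : 0 < ρ) (hρ4 : ρ ≤ 1 / 4) :
    |lm (sp a m) - lm (sp a n)| ≤ 4 * k * Err t L ρ T := by
  have : Nonempty (Fin k) := ⟨⟨0, hk0⟩⟩
  let S : Set (Fin k → ℚ) := {(fun _ => (1 : ℚ)), (fun i => (n i : ℚ)), (fun i => (m i : ℚ))}
  let W : Submodule ℚ (Fin k → ℚ) := Submodule.span ℚ S
  have hS1 : (fun _ => (1 : ℚ)) ∈ W := Submodule.subset_span (by simp [S])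
  have hSn : (fun i => (n i : ℚ)) ∈ W := Submodule.subset_span (by simp [S])
  have hSm : (fun i => (m i : ℚ)) ∈ W := Submodule.subset_span (by simp [S])
  have hkey : ∀ c : Fin k → ℤ, ∑ i, c i = 0 → ∑ i, c i * (n i : ℤ) = 0 →
      ∑ i, c i * (m i : ℤ) = 0 → ∀ x ∈ W, ∑ i, (c i : ℚ) * x i = 0 := by
    intro c h0 h1 h2
    apply N7_orth c S
    intro x hx
    simp only [S, Set.mem_insert_iff, Set.mem_singleton_iff] at hx
    rcases hx with rfl | rfl | rfl
    · simp only [mul_one]
      exact_mod_cast h0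
    · show ∑ i, (c i : ℚ) * (n i : ℚ) = 0
      exact_mod_cast h1
    · show ∑ i, (c i : ℚ) * (m i : ℚ) = 0
      exact_mod_cast h2
  have hKn : KillsI J n W := fun c h0 h1 h2 => hkey c h0 h2 ((h c h0 h1).1 h2)
  have hKm : KillsI J m W := fun c h0 h1 h2 => hkey c h0 ((h c h0 h1).2 h2) h2
  obtain ⟨ν, hν⟩ := haar_exists W
  have hc : Fintype.card (Fin k) ≤ t + 1 := by simpa using hk
  have hJ' : (Fintype.card (Fin k) : ℝ) ^ 2 * T ≤ J := by simpa using hJ
  have e1 := comp a ha n hn t ht hc L hL T hT ρ hρ hρ4 J hJ' W hS1 hSn hKn ν hν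
  have e2 := comp a ha m hm t ht hc L hL T hT ρ hρ hρ4 J hJ' W hS1 hSm hKm ν hν
  rw [Fintype.card_fin] at e1 e2
  have e3 : lm (sp a m) - lm (sp a n) =
      (Lm a ν - lm (∑ i, monomial (n i) (a i))) - (Lm a ν - lm (∑ i, monomial (m i) (a i))) := by
    unfold sp
    ring
  rw [e3]
  refine (abs_sub _ _).trans ?_
  linarith

theorem N7_PP {k : ℕ} (a : Fin k → ℤ) (n w : Fin k → ℕ) (I : Finset (Fin k))
    (t : UnitAddCircle) :
    PP (fun i : I => a i) (fun i : I => (0 : I → UnitAddCircle) i + ((n i : ℕ) : ℤ) • t)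
      (fun i : I => w i) = G1_F a n w I (AddCircle.toCircle t : ℂ) := by
  unfold PP G1_F
  rw [← Finset.sum_coe_sort I
    (fun i => monomial (w i) ((a i : ℂ) * (AddCircle.toCircle t : ℂ) ^ n i))]
  refine Finset.sum_congr rfl fun i _ => ?_
  show monomial (w i) ((a i : ℂ) * (AddCircle.toCircle ((0 : UnitAddCircle) +
    ((n i : ℕ) : ℤ) • t) : ℂ)) = monomial (w i) ((a i : ℂ) * (AddCircle.toCircle t : ℂ) ^ n i)
  rw [zero_add, natCast_zsmul, AddCircle.toCircle_nsmul, Circle.coe_pow]

theorem extremeP {k J : ℕ} (t : ℕ) (ht : 0 < t) (a : Fin k → ℤ) (ha : ∀ i, a i ≠ 0)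
    (n w : Fin k → ℕ) (hn : Function.Injective n) (I : Finset (Fin k)) (hI : I.card ≤ t + 1)
    (hw : ∀ c : Fin k → ℤ, (∀ i, i ∉ I → c i = 0) → ∑ i, c i = 0 → ∑ i, |c i| ≤ 2 * (J : ℤ) →
      ∑ i, c i * (n i : ℤ) = 0 → ∑ i, c i * (w i : ℤ) = 0)
    (W : ℕ) (hW : ∀ i ∈ I, w i ≤ W) (hT : ∃ i ∈ I, w i = W) (hB : ∃ i ∈ I, w i = 0)
    (L T ρ : ℝ) (hL : ∑ i, |(a i : ℝ)| ≤ L) (hT1 : 1 ≤ T) (hJ : (k : ℝ) ^ 2 * T ≤ J)
    (hρ : 0 < ρ) (hρ4 : ρ ≤ 1 / 4) :
    Real.circleAverage (fun z : ℂ =>
      max (Real.log ‖aeval z (fp a n (I.filter fun i => w i = W))‖)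
        (Real.log ‖aeval z (fp a n (I.filter fun i => w i = 0))‖)) 0 1 ≤
      lm (fp a n I) + 2 * k * Err t L ρ T := by
  classical
  set PT : ℤ[X] := fp a n (I.filter fun i => w i = W) with hTdef
  set PB : ℤ[X] := fp a n (I.filter fun i => w i = 0) with hBdef
  have hT0 : PT ≠ 0 := by
    obtain ⟨i, hi, hi'⟩ := hT
    exact G1_ne a ha n hn _ ⟨i, Finset.mem_filter.2 ⟨hi, hi'⟩⟩
  have hB0 : PB ≠ 0 := by
    obtain ⟨i, hi, hi'⟩ := hB
    exact G1_ne a ha n hn _ ⟨i, Finset.mem_filter.2 ⟨hi, hi'⟩⟩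
  have hev : ∀ (Q : ℤ[X]) (z : ℂ), (Q.map (Int.castRingHom ℂ)).eval z = aeval z Q := by
    intro Q z
    simp [aeval_def, eval_map, algebraMap_int_eq]
  have hint : ∀ Q : ℤ[X], CircleIntegrable (fun z : ℂ => Real.log ‖aeval z Q‖) 0 1 := by
    intro Q
    have := Pool.Agent.H61.Sparse.circleIntegrable_log_eval (Q.map (Int.castRingHom ℂ))
    simpa only [hev] using this
  obtain ⟨i0, hi0, _⟩ := hT
  have hne : Nonempty I := ⟨⟨i0, hi0⟩⟩
  -- the data on the index set `I`
  let a' : I → ℤ := fun i => a i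
  let n' : I → ℕ := fun i => n i
  let w' : I → ℕ := fun i => w i
  have ha' : ∀ i, a' i ≠ 0 := fun i => ha i
  have hn' : Function.Injective n' := fun i j hij => Subtype.ext (hn hij)
  have hc : Fintype.card I ≤ t + 1 := by simpa using hI
  have hL0 : 0 ≤ L := le_trans (Finset.sum_nonneg fun i _ => abs_nonneg _) hL
  have hL' : ∑ i, |(a' i : ℝ)| ≤ L := by
    refine le_trans ?_ hL
    rw [Finset.sum_coe_sort I (fun i => |(a i : ℝ)|)]
    exact Finset.sum_le_sum_of_subset_of_nonneg (Finset.subset_univ I) fun i _ _ => abs_nonneg _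
  have hcard : (Fintype.card I : ℝ) ≤ k := by
    have h1 : Fintype.card I ≤ k := by
      have := Finset.card_le_univ I
      simpa using this
    exact_mod_cast h1
  have hJ' : (Fintype.card I : ℝ) ^ 2 * T ≤ J := by
    refine le_trans ?_ hJ
    apply mul_le_mul_of_nonneg_right _ (by linarith)
    exact pow_le_pow_left₀ (Nat.cast_nonneg _) hcard 2
  -- the measures
  have hν₁ := haar_twist (haar_bot (ι := I)) (fun i => (n' i : ℤ))
  have hν₂ := haar_twist hν₁ (fun i => (w' i : ℤ))
  have hν₃ := haar_twist hν₂ (fun _ => (1 : ℤ))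
  set ν₁ := twist (fun i => (n' i : ℤ)) (Measure.dirac (0 : I → UnitAddCircle)) with hν₁def
  have hp₁ := hν₁.1
  have hp₂ := hν₂.1
  have hn₁ : (fun i => (n' i : ℚ)) ∈ (⊥ ⊔ line (fun i => (n' i : ℤ)) :
      Submodule ℚ (I → ℚ)) := by
    apply Submodule.mem_sup_right
    have h1 : (fun i => (n' i : ℚ)) = (fun i => (((n' i : ℤ)) : ℚ)) := by
      funext i
      simp
    rw [h1]
    exact Submodule.mem_span_singleton_self _
  obtain ⟨hi₁, hi₂⟩ := Lm_twist a' ha' hν₁ n' hn' hn₁ t ht hc w'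
  -- the comparison
  have hcomp := comp a' ha' n' hn' t ht hc L hL' T hT1 ρ hρ hρ4 J hJ'
    ((⊥ ⊔ line (fun i => (n' i : ℤ))) ⊔ line (fun i => (w' i : ℤ)) ⊔ line (fun _ => (1 : ℤ)))
    (Submodule.mem_sup_right (by
      have h1 : (fun _ : I => (1 : ℚ)) = (fun _ => (((1 : ℤ)) : ℚ)) := by
        funext i
        simp
      rw [h1]
      exact Submodule.mem_span_singleton_self _))
    (Submodule.mem_sup_left (Submodule.mem_sup_left hn₁))
    (by
      intro c h0 h1 h2
      have hO : Orth ((⊥ ⊔ line (fun i => (n' i : ℤ))) ⊔ line (fun i => (w' i : ℤ)) ⊔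
          line (fun _ => (1 : ℤ))) c := by
        rw [orth_sup, orth_sup, orth_sup]
        refine ⟨⟨⟨?_, h2⟩, ?_⟩, ?_⟩
        · intro x hx
          rw [Submodule.mem_bot] at hx
          subst hx
          simp
        · -- extend `c` by zero
          let c' : Fin k → ℤ := fun i => if hi : i ∈ I then c ⟨i, hi⟩ else 0
          have hc' : ∀ i, i ∉ I → c' i = 0 := fun i hi => dif_neg hi
          have hsum : ∀ g : Fin k → ℤ, (∀ i, i ∉ I → g i = 0) → ∑ i, g i = ∑ i : I, g i := by
            intro g hg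
            rw [Finset.sum_coe_sort I g]
            symm
            apply Finset.sum_subset (Finset.subset_univ I)
            intro i _ hi
            exact hg i hi
          have hcI : ∀ i : I, c' i = c i := fun i => dif_pos i.2
          have g0 : ∑ i, c' i = 0 := by
            rw [hsum c' hc', ← h0]
            exact Finset.sum_congr rfl fun i _ => hcI i
          have g1 : ∑ i, |c' i| ≤ 2 * (J : ℤ) := by
            rw [hsum (fun i => |c' i|) fun i hi => by simp [hc' i hi]]
            refine le_trans (le_of_eq ?_) h1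
            exact Finset.sum_congr rfl fun i _ => by rw [hcI i]
          have g2 : ∑ i, c' i * (n i : ℤ) = 0 := by
            rw [hsum (fun i => c' i * (n i : ℤ)) fun i hi => by simp [hc' i hi], ← h2]
            exact Finset.sum_congr rfl fun i _ => by rw [hcI i]
          have g3 := hw c' hc' g0 g1 g2
          rw [hsum (fun i => c' i * (w i : ℤ)) fun i hi => by simp [hc' i hi]] at g3
          rw [← g3]
          exact Finset.sum_congr rfl fun i _ => by rw [hcI i]
        · simpa using h0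
      exact hO)
    _ hν₃
  rw [Lm_one, hi₂] at hcomp
  have hfp : (∑ i, monomial (n' i) (a' i) : ℤ[X]) = fp a n I := by
    unfold fp
    exact Finset.sum_coe_sort I (fun i => monomial (n i) (a i))
  rw [hfp] at hcomp
  have hE : 2 * (Fintype.card I : ℝ) * Err t L ρ T ≤ 2 * k * Err t L ρ T := by
    apply mul_le_mul_of_nonneg_right _ (Err_nonneg t L ρ T hL0 hρ (by linarith))
    linarith
  -- the integral over `ν₁` as an integral over the circle
  let g : UnitAddCircle → ℝ := fun s =>
    (G1_F a n w I (AddCircle.toCircle s : ℂ)).logMahlerMeasure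
  have hφ := twist_cont (fun i => (n' i : ℤ))
  have hφ' : Measurable fun s : UnitAddCircle =>
      ((0 : I → UnitAddCircle), s) := by fun_prop
  have hgi : Integrable g AddCircle.haarAddCircle := by
    have h1 := hi₁
    rw [hν₁def] at h1
    unfold twist at h1
    have h2 := h1.comp_aemeasurable hφ.measurable.aemeasurable
    rw [Measure.dirac_prod] at h2
    have h3 := h2.comp_aemeasurable hφ'.aemeasurable
    refine h3.congr (Filter.Eventually.of_forall fun s => ?_)
    show (PP a' (fun i : I => (0 : I → UnitAddCircle) i + ((n i : ℕ) : ℤ) • s)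
      w').logMahlerMeasure = g s
    simp only [g]
    rw [← N7_PP]
  have hgv : ∫ y, (PP a' y w').logMahlerMeasure ∂ν₁ = ∫ s, g s ∂AddCircle.haarAddCircle := by
    have h1 := hi₁
    rw [hν₁def] at h1 ⊢
    unfold twist at h1 ⊢
    have h2 := h1.comp_aemeasurable hφ.measurable.aemeasurable
    rw [integral_map hφ.measurable.aemeasurable h1.aestronglyMeasurable]
    rw [Measure.dirac_prod] at h2 ⊢
    have h3 := integral_map hφ'.aemeasurable h2.aestronglyMeasurable
    refine Eq.trans h3 ?_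
    refine integral_congr_ae (Filter.Eventually.of_forall fun s => ?_)
    show (PP a' (fun i : I => (0 : I → UnitAddCircle) i + ((n i : ℕ) : ℤ) • s)
      w').logMahlerMeasure = g s
    simp only [g]
    rw [← N7_PP]
  -- the left hand side
  set M : ℂ → ℝ := fun z => max (Real.log ‖aeval z PT‖) (Real.log ‖aeval z PB‖) with hM
  have hMint : CircleIntegrable M 0 1 := by
    have h : M = fun z => (1 / 2 : ℝ) • ((Real.log ‖aeval z PT‖ + Real.log ‖aeval z PB‖) +
        |Real.log ‖aeval z PT‖ - Real.log ‖aeval z PB‖|) := by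
      funext z
      rw [smul_eq_mul, hM]
      show max (Real.log ‖aeval z PT‖) (Real.log ‖aeval z PB‖) = _
      rcases le_total (Real.log ‖aeval z PT‖) (Real.log ‖aeval z PB‖) with h | h
      · rw [max_eq_right h, abs_of_nonpos (by linarith)]; ring
      · rw [max_eq_left h, abs_of_nonneg (by linarith)]; ring
    rw [h]
    exact (((hint PT).add (hint PB)).add ((hint PT).sub (hint PB)).abs).const_smul
  have hcont : ∀ Q : ℤ[X], Continuous fun z : ℂ => aeval z Q := fun Q => Q.continuous_aeval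
  have hMm : Measurable M :=
    (Real.measurable_log.comp (hcont PT).norm.measurable).max
      (Real.measurable_log.comp (hcont PB).norm.measurable)
  have hMi := N3_integrable hMm hMint
  have hMv := integral_circle M
  -- the inequality outside a finite set
  have hae : ∀ᵐ s : UnitAddCircle ∂AddCircle.haarAddCircle,
      M (AddCircle.toCircle s : ℂ) ≤ g s := by
    have hQ : (PT * PB).map (Int.castRingHom ℂ) ≠ 0 :=
      (Polynomial.map_ne_zero_iff (RingHom.injective_int _)).2 (mul_ne_zero hT0 hB0)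
    have hinj : Function.Injective fun s : UnitAddCircle => (AddCircle.toCircle s : ℂ) :=
      Subtype.val_injective.comp (AddCircle.injective_toCircle one_ne_zero)
    have hfin : {s : UnitAddCircle | ¬ M (AddCircle.toCircle s : ℂ) ≤ g s}.Finite := by
      refine (((PT * PB).map (Int.castRingHom ℂ)).roots.toFinset.finite_toSet.preimage
        hinj.injOn).subset ?_
      intro s hs
      simp only [Set.mem_preimage, Finset.mem_coe, Multiset.mem_toFinset]
      rw [mem_roots hQ, IsRoot.def, hev, map_mul]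
      by_contra h0
      rw [mul_eq_zero, not_or] at h0
      exact hs (G1_jensen a n w I (AddCircle.toCircle s : ℂ) W hW h0.1 h0.2)
    rw [ae_iff, N3_haar]
    exact N3_finite hfin
  have hfinal := integral_mono_ae hMi hgi hae
  rw [hMv, ← hgv] at hfinal
  have h9 := (abs_le.1 hcomp).2
  linarith

end H25.LKP
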